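import Pool.Agent.J6H71.ET.Sparse
import Pool.Agent.J6H42.CE.Ext

/-! Counting consequences. -/

set_option autoImplicit false

namespace Pool.Agent.J6H71.ET

open Pool.Agent.H315R3.ETC Pool.Agent.TH673.VG Pool.Agent.R19.QS Pool.Agent.HP778.QS

/-- the elements outside `H` which have more than two values on `H` -/
def BadOn (S : QData) (H : Subgroup S.G) : Set S.G := {z | z ∉ H ∧ ¬ TwoOn S H z}

section
variable {S : QData} (h : IsQuat S)

/-- the radical -/
def Rad (h : IsQuat S) : Subgroup S.G where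
  carrier := {a | ∀ x, S.q a x = S.zero}
  one_mem' := by
    intro x
    rw [h.qs2]
    exact q_one h x
  mul_mem' := fun ha hb x => mul_left0 h (ha x) (hb x)
  inv_mem' := by
    intro x hx
    have : x⁻¹ = x := inv_eq_of_mul_eq_one_right (h.exp2 x)
    rw [this]
    exact hx

lemma mem_Rad {a : S.G} : a ∈ Rad h ↔ ∀ x, S.q a x = S.zero := Iff.rfl

variable [Finite S.G]

include h in
/-- a subgroup to which symbols do not extend: many elements are bad, and the radical is small in
it -/
theorem counts {A : Type*} [AddCommGroup A] (hA : ∀ t : A, t + t = 0)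
    (β : S.G → S.G → A) (hmul : ∀ a b c, β a (b * c) = β a b + β a c)
    (hiff : ∀ a b c d, β a b = β c d ↔ S.q a b = S.q c d) {H : Subgroup S.G}
    (h8 : 8 ≤ H.index) (hno : ¬ CanExt S H) :
    8 * Nat.card H ≤ Nat.card S.G ∧ 5 * Nat.card S.G ≤ 8 * (BadOn S H).ncard + 8 * Nat.card H ∧
      8 * Nat.card (H ⊓ Rad h : Subgroup S.G) ≤ Nat.card H := by
  have hout := exists_out h8
  have c8 : 8 * Nat.card H ≤ Nat.card S.G := by
    rw [← H.card_mul_index, mul_comm]
    exact Nat.mul_le_mul_left _ h8
  have hT : 8 * (Tw S H).ncard ≤ 3 * Nat.card S.G := by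
    by_contra hc
    exact hno (canExt_of_tw h hA β hmul hiff hout (by omega))
  refine ⟨c8, ?_, ?_⟩
  · have e1 : (Set.univ : Set S.G) ⊆ (Tw S H ∪ (H : Set S.G)) ∪ BadOn S H := by
      intro x _
      by_cases h1 : x ∈ H
      · exact Or.inl (Or.inr h1)
      by_cases h2 : TwoOn S H x
      · exact Or.inl (Or.inl h2)
      · exact Or.inr ⟨h1, h2⟩
    have e2 := (Set.ncard_le_ncard e1 (Set.toFinite _)).trans (Set.ncard_union_le _ _)
    have e3 := Set.ncard_union_le (Tw S H) (H : Set S.G)
    have e4 : (H : Set S.G).ncard = Nat.card H := rfl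
    rw [Set.ncard_univ] at e2
    omega
  · by_contra hc
    push Not at hc
    obtain ⟨z, hz⟩ : ∃ z, ¬ TwoOn S H z := by
      by_contra hall
      push Not at hall
      obtain ⟨a, ha⟩ := hout
      exact hno (canExt_of_pairs h ha (pairs_of_two h fun z _ g _ _ => hall z))
    rw [TwoOn] at hz
    push Not at hz
    obtain ⟨b, hb, c, hcH, b0, c0, bc0⟩ := hz
    set R := H ⊓ Rad h with hR
    have hRH : R ≤ H := inf_le_left
    have nR : ∀ x, S.q z x ≠ S.zero → x ∉ R := by
      intro x hx hxR
      apply hx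
      rw [h.qs2]
      exact hxR.2 z
    have k1 : 2 * Nat.card R ≤ Nat.card (R ⊔ Subgroup.zpowers b : Subgroup S.G) :=
      card_half le_sup_left
        (fun e => nR b b0 (e (Subgroup.mem_sup_right (Subgroup.mem_zpowers b))))
    have hc1 : c ∉ R ⊔ Subgroup.zpowers b := by
      intro e
      rcases mem_sup_z h e with f | f
      · exact nR c c0 f
      · rw [mul_comm] at f
        exact nR _ bc0 f
    have k2 : 2 * Nat.card (R ⊔ Subgroup.zpowers b : Subgroup S.G) ≤
        Nat.card (R ⊔ Subgroup.zpowers b ⊔ Subgroup.zpowers c : Subgroup S.G) :=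
      card_half le_sup_left
        (fun e => hc1 (e (Subgroup.mem_sup_right (Subgroup.mem_zpowers c))))
    have hKH : R ⊔ Subgroup.zpowers b ⊔ Subgroup.zpowers c ≤ H :=
      sup_le (sup_le hRH ((Subgroup.zpowers_le).2 hb)) ((Subgroup.zpowers_le).2 hcH)
    have hHK : H ≤ R ⊔ Subgroup.zpowers b ⊔ Subgroup.zpowers c := by
      by_contra hne
      have k3 := card_half hKH hne
      omega
    refine hno (canExt_rank h hA β hmul hiff hout hb hcH fun g hg => ?_)
    rcases mem_sup_z h (hHK hg) with e | e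
    · rcases mem_sup_z h e with f | f
      · exact ⟨1, Or.inl rfl, by rw [mul_one]; exact f.2⟩
      · exact ⟨b, Or.inr (Or.inl rfl), f.2⟩
    · rcases mem_sup_z h e with f | f
      · exact ⟨c, Or.inr (Or.inr (Or.inl rfl)), f.2⟩
      · refine ⟨b * c, Or.inr (Or.inr (Or.inr rfl)), ?_⟩
        have e' : g * (b * c) = g * c * b := by rw [mul_comm b c, mul_assoc]
        rw [e']
        exact f.2

include h in
/-- indices of value groups -/
lemma bad_index {H : Subgroup S.G} (hcl : Closed S H) {z : S.G} (hz : z ∈ BadOn S H) :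
    8 ≤ (D h z).index := by
  rcases index_cases h.exp2 (D h z) with e | e
  · exact absurd (twoOn_of_index h hcl hz.1 e) hz.2
  · exact e

include h in
lemma out_index {H : Subgroup S.G} (hcl : Closed S H) {z : S.G} (hz : z ∉ H) :
    4 ≤ (D h z).index := four_le h fun hc => hz (hcl.1 z hc)

include h in
lemma rad_index {z : S.G} (hz : z ∉ Rad h) : 2 ≤ (D h z).index := by
  rcases index_cases2 h.exp2 (D h z) with e | e | e
  · exfalso
    apply hz
    intro x
    have : x ∈ D h z := by rw [Subgroup.index_eq_one.1 e]; trivial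
    exact this
  · omega
  · omega

include h in
lemma core_index_four {z : S.G} (hz : z ∉ Core S) : 4 ≤ (D h z).index :=
  four_le h fun hc => hz (Subgroup.mem_sInf.2 fun _ hL => hL.1 z hc)

lemma core_card {H : Subgroup S.G} (h4 : 4 * H.index ≤ (Core S).index) :
    4 * Nat.card (Core S) ≤ Nat.card H := by
  have e1 := H.card_mul_index
  have e2 := (Core S).card_mul_index
  have e3 := idx_pos H
  have e4 : 4 * Nat.card (Core S) * H.index ≤ Nat.card H * H.index := by
    calc 4 * Nat.card (Core S) * H.index = Nat.card (Core S) * (4 * H.index) := by ring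
      _ ≤ Nat.card (Core S) * (Core S).index := Nat.mul_le_mul_left _ h4
      _ = Nat.card H * H.index := by rw [e1, e2]
  exact Nat.le_of_mul_le_mul_right e4 e3

include h in
/-- few exceptional elements -/
theorem elem_of_few {A : Type*} [AddCommGroup A] (hA : ∀ t : A, t + t = 0)
    (β : S.G → S.G → A) (hmul : ∀ a b c, β a (b * c) = β a b + β a c)
    (hiff : ∀ a b c d, β a b = β c d ↔ S.q a b = S.q c d)
    (hB : 2 * {a : S.G | a ∉ Core S ∧ 4 < (D h a).index}.ncard < Nat.card S.G) : Elem S := by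
  refine Pool.Agent.J6H42.CE.elem_of_core_four h ⟨hmul, hiff, hA⟩ fun H hcl h8 h4 => ?_
  by_contra hno
  obtain ⟨c1, c2, -⟩ := counts h hA β hmul hiff h8 hno
  have hcore : Core S ≤ H := sInf_le hcl
  have e1 : (BadOn S H).ncard ≤ {a : S.G | a ∉ Core S ∧ 4 < (D h a).index}.ncard := by
    refine Set.ncard_le_ncard (fun a ha => ⟨fun e => ha.1 (hcore e), ?_⟩) (Set.toFinite _)
    have := bad_index h hcl ha
    omega
  omega

include h in
/-- small average index -/
theorem elem_of_average [Fintype S.G] {A : Type*} [AddCommGroup A] (hA : ∀ t : A, t + t = 0)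
    (β : S.G → S.G → A) (hmul : ∀ a b c, β a (b * c) = β a b + β a c)
    (hiff : ∀ a b c d, β a b = β c d ↔ S.q a b = S.q c d)
    (hB : 64 * ∑ a : S.G, (D h a).index < 379 * Nat.card S.G) : Elem S := by
  classical
  refine Pool.Agent.J6H42.CE.elem_of_core_four h ⟨hmul, hiff, hA⟩ fun H hcl h8 h4 => ?_
  by_contra hno
  obtain ⟨c1, c2, c3⟩ := counts h hA β hmul hiff h8 hno
  have c4 := core_card h4
  have hcore : Core S ≤ H := sInf_le hcl
  have key : ∀ a : S.G, 4 + 4 * (if a ∈ BadOn S H then 1 else 0) ≤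
      (D h a).index + (if a ∈ ((H ⊓ Rad h : Subgroup S.G) : Set S.G) then 1 else 0) +
        2 * (if a ∈ (Core S : Set S.G) then 1 else 0) := by
    intro a
    by_cases aH : a ∈ Core S
    · have n1 : a ∉ BadOn S H := fun e => e.1 (hcore aH)
      have p1 : a ∈ (Core S : Set S.G) := aH
      rw [if_neg n1, if_pos p1]
      by_cases aR : a ∈ Rad h
      · have p2 : a ∈ ((H ⊓ Rad h : Subgroup S.G) : Set S.G) := ⟨hcore aH, aR⟩
        rw [if_pos p2]
        have := idx_pos (D h a)
        omega
      · have := rad_index h aR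
        omega
    · have n2 : a ∉ (Core S : Set S.G) := aH
      have h4 : 4 ≤ (D h a).index := core_index_four h aH
      rw [if_neg n2]
      by_cases aB : a ∈ BadOn S H
      · rw [if_pos aB]
        have := bad_index h hcl aB
        omega
      · rw [if_neg aB]
        omega
  have s1 := Finset.sum_le_sum fun a (_ : a ∈ (Finset.univ : Finset S.G)) => key a
  simp only [Finset.sum_add_distrib, ← Finset.mul_sum, sum_ind, Finset.sum_const, smul_eq_mul,
    Finset.card_univ, ← Nat.card_eq_fintype_card] at s1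
  have e4 : (Core S : Set S.G).ncard = Nat.card (Core S) := rfl
  have e5 : ((H ⊓ Rad h : Subgroup S.G) : Set S.G).ncard = Nat.card (H ⊓ Rad h : Subgroup S.G) :=
    rfl
  rw [e4, e5] at s1
  omega

include h in
/-- many split pairs -/
theorem elem_of_split [Fintype S.G] {A : Type*} [AddCommGroup A] (hA : ∀ t : A, t + t = 0)
    (β : S.G → S.G → A) (hmul : ∀ a b c, β a (b * c) = β a b + β a c)
    (hiff : ∀ a b c d, β a b = β c d ↔ S.q a b = S.q c d)
    (hB : 13 * Nat.card S.G ^ 2 < 64 * ∑ a : S.G, Nat.card (D h a)) : Elem S := by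
  classical
  refine Pool.Agent.J6H42.CE.elem_of_core_four h ⟨hmul, hiff, hA⟩ fun H hcl h8 h4 => ?_
  by_contra hno
  obtain ⟨c1, c2, c3⟩ := counts h hA β hmul hiff h8 hno
  have c4 := core_card h4
  have hcore : Core S ≤ H := sInf_le hcl
  have small : ∀ (a : S.G) (n : ℕ), n ≤ (D h a).index → n * Nat.card (D h a) ≤ Nat.card S.G := by
    intro a n hn
    rw [← (D h a).card_mul_index, mul_comm]
    exact Nat.mul_le_mul_left _ hn
  have key : ∀ a : S.G, 8 * Nat.card (D h a) +
      Nat.card S.G * (if a ∈ BadOn S H then 1 else 0) ≤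
      2 * Nat.card S.G + 4 * Nat.card S.G *
        (if a ∈ ((H ⊓ Rad h : Subgroup S.G) : Set S.G) then 1 else 0) +
        2 * Nat.card S.G * (if a ∈ (Core S : Set S.G) then 1 else 0) := by
    intro a
    by_cases aH : a ∈ Core S
    · have n1 : a ∉ BadOn S H := fun e => e.1 (hcore aH)
      have p1 : a ∈ (Core S : Set S.G) := aH
      rw [if_neg n1, if_pos p1]
      by_cases aR : a ∈ Rad h
      · have p2 : a ∈ ((H ⊓ Rad h : Subgroup S.G) : Set S.G) := ⟨hcore aH, aR⟩
        rw [if_pos p2]
        have := small a 1 (idx_pos (D h a))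
        omega
      · have := small a 2 (rad_index h aR)
        omega
    · have n2 : a ∉ (Core S : Set S.G) := aH
      have h4 : 4 ≤ (D h a).index := core_index_four h aH
      rw [if_neg n2]
      by_cases aB : a ∈ BadOn S H
      · rw [if_pos aB]
        have := small a 8 (bad_index h hcl aB)
        omega
      · rw [if_neg aB]
        have := small a 4 h4
        omega
  have s1 := Finset.sum_le_sum fun a (_ : a ∈ (Finset.univ : Finset S.G)) => key a
  simp only [Finset.sum_add_distrib, ← Finset.mul_sum, sum_ind, Finset.sum_const, smul_eq_mul,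
    Finset.card_univ, ← Nat.card_eq_fintype_card] at s1
  have e4 : (Core S : Set S.G).ncard = Nat.card (Core S) := rfl
  have e5 : ((H ⊓ Rad h : Subgroup S.G) : Set S.G).ncard = Nat.card (H ⊓ Rad h : Subgroup S.G) :=
    rfl
  rw [e4, e5] at s1
  set g := Nat.card S.G
  set hh := Nat.card H
  set cc := Nat.card (Core S)
  set r := Nat.card (H ⊓ Rad h : Subgroup S.G)
  set bb := (BadOn S H).ncard
  have m1 : g * (8 * hh) ≤ g * g := Nat.mul_le_mul_left _ c1
  have m2 : g * (5 * g) ≤ g * (8 * bb + 8 * hh) := Nat.mul_le_mul_left _ c2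
  have m3 : g * (8 * r) ≤ g * hh := Nat.mul_le_mul_left _ c3
  have m4 : g * (4 * cc) ≤ g * hh := Nat.mul_le_mul_left _ c4
  nlinarith [m1, m2, m3, m4, s1, hB]

include h in
/-- small average index outside the core -/
theorem elem_of_average_out [Fintype S.G] [DecidablePred (· ∉ Core S)] {A : Type*}
    [AddCommGroup A] (hA : ∀ t : A, t + t = 0)
    (β : S.G → S.G → A) (hmul : ∀ a b c, β a (b * c) = β a b + β a c)
    (hiff : ∀ a b c d, β a b = β c d ↔ S.q a b = S.q c d)
    (hB : ∑ a : S.G with a ∉ Core S, (D h a).index ≤ 6 * {a : S.G | a ∉ Core S}.ncard) :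
    Elem S := by
  classical
  refine Pool.Agent.J6H42.CE.elem_of_core_four h ⟨hmul, hiff, hA⟩ fun H hcl h8 h4 => ?_
  by_contra hno
  obtain ⟨c1, c2, -⟩ := counts h hA β hmul hiff h8 hno
  have hcore : Core S ≤ H := sInf_le hcl
  have key : ∀ a : S.G, a ∉ Core S → 4 + 4 * (if a ∈ BadOn S H then 1 else 0) ≤
      (D h a).index := by
    intro a aC
    by_cases aB : a ∈ BadOn S H
    · rw [if_pos aB]
      exact bad_index h hcl aB
    · rw [if_neg aB]
      exact four_le h fun hc => aC (Subgroup.mem_sInf.2 fun L hL => hL.1 a hc)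
  have s1 := Finset.sum_le_sum fun a (ha : a ∈ (Finset.univ.filter fun a : S.G => a ∉ Core S)) =>
    key a (Finset.mem_filter.1 ha).2
  rw [Finset.sum_add_distrib, ← Finset.mul_sum, Finset.sum_const, smul_eq_mul] at s1
  have e1 : (Finset.univ.filter fun a : S.G => a ∉ Core S).card = {a : S.G | a ∉ Core S}.ncard := by
    rw [← Set.ncard_coe_finset]
    simp
  have e2 : ∑ a : S.G with a ∉ Core S, (if a ∈ BadOn S H then 1 else 0) = (BadOn S H).ncard := by
    rw [← sum_ind, Finset.sum_filter]
    refine Finset.sum_congr rfl fun a _ => ?_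
    by_cases aB : a ∈ BadOn S H
    · have : a ∉ Core S := fun e => aB.1 (hcore e)
      simp [aB, this]
    · simp [aB]
  rw [e1, e2] at s1
  have e3 : {a : S.G | a ∉ Core S}.ncard < Nat.card S.G := by
    rw [← Set.ncard_univ]
    refine Set.ncard_lt_ncard ⟨Set.subset_univ _, fun e => ?_⟩ (Set.toFinite _)
    exact (e (Set.mem_univ (1 : S.G))) (Core S).one_mem
  omega

include h in
/-- many split pairs outside the core -/
theorem elem_of_split_out [Fintype S.G] [DecidablePred (· ∉ Core S)] {A : Type*}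
    [AddCommGroup A] (hA : ∀ t : A, t + t = 0)
    (β : S.G → S.G → A) (hmul : ∀ a b c, β a (b * c) = β a b + β a c)
    (hiff : ∀ a b c d, β a b = β c d ↔ S.q a b = S.q c d)
    (hB : 3 * Nat.card S.G * {a : S.G | a ∉ Core S}.ncard ≤
      16 * ∑ a : S.G with a ∉ Core S, Nat.card (D h a)) :
    Elem S := by
  classical
  refine Pool.Agent.J6H42.CE.elem_of_core_four h ⟨hmul, hiff, hA⟩ fun H hcl h8 h4 => ?_
  by_contra hno
  obtain ⟨c1, c2, -⟩ := counts h hA β hmul hiff h8 hno
  have hcore : Core S ≤ H := sInf_le hcl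
  have small : ∀ (a : S.G) (n : ℕ), n ≤ (D h a).index → n * Nat.card (D h a) ≤ Nat.card S.G := by
    intro a n hn
    rw [← (D h a).card_mul_index, mul_comm]
    exact Nat.mul_le_mul_left _ hn
  have key : ∀ a : S.G, a ∉ Core S → 8 * Nat.card (D h a) +
      Nat.card S.G * (if a ∈ BadOn S H then 1 else 0) ≤ 2 * Nat.card S.G := by
    intro a aC
    by_cases aB : a ∈ BadOn S H
    · rw [if_pos aB]
      have := small a 8 (bad_index h hcl aB)
      omega
    · rw [if_neg aB]
      have := small a 4 (four_le h fun hc => aC (Subgroup.mem_sInf.2 fun L hL => hL.1 a hc))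
      omega
  have s1 := Finset.sum_le_sum fun a (ha : a ∈ (Finset.univ.filter fun a : S.G => a ∉ Core S)) =>
    key a (Finset.mem_filter.1 ha).2
  rw [Finset.sum_add_distrib, ← Finset.mul_sum, ← Finset.mul_sum, Finset.sum_const,
    smul_eq_mul] at s1
  have e1 : (Finset.univ.filter fun a : S.G => a ∉ Core S).card = {a : S.G | a ∉ Core S}.ncard := by
    rw [← Set.ncard_coe_finset]
    simp
  have e2 : ∑ a : S.G with a ∉ Core S, (if a ∈ BadOn S H then 1 else 0) = (BadOn S H).ncard := by
    rw [← sum_ind, Finset.sum_filter]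
    refine Finset.sum_congr rfl fun a _ => ?_
    by_cases aB : a ∈ BadOn S H
    · have : a ∉ Core S := fun e => aB.1 (hcore e)
      simp [aB, this]
    · simp [aB]
  rw [e1, e2] at s1
  have e3 : {a : S.G | a ∉ Core S}.ncard < Nat.card S.G := by
    rw [← Set.ncard_univ]
    refine Set.ncard_lt_ncard ⟨Set.subset_univ _, fun e => ?_⟩ (Set.toFinite _)
    exact (e (Set.mem_univ (1 : S.G))) (Core S).one_mem
  set g := Nat.card S.G
  set o := {a : S.G | a ∉ Core S}.ncard
  set bb := (BadOn S H).ncard
  have hb : g ≤ 2 * bb := by omega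
  have m1 : g * g ≤ g * (2 * bb) := Nat.mul_le_mul_left _ hb
  have hg : 0 < g := Nat.card_pos
  have m2 : g * o < g * g := Nat.mul_lt_mul_of_pos_left e3 hg
  nlinarith [m1, m2, s1, hB]

end

end Pool.Agent.J6H71.ET
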