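import Pool.Agent.J6H71.ET.Seven

/-! Counting consequences. -/

set_option autoImplicit false

namespace Pool.Agent.J6H71.ET

open Pool.Agent.H315R3.ETC Pool.Agent.TH673.VG Pool.Agent.R19.QS Pool.Agent.HP778.QS

section
variable {G : Type} [CommGroup G] [Finite G] (h2 : ∀ x : G, x * x = 1)

include h2 in
lemma index_cases3 (W : Subgroup G) : W.index ≤ 8 ∨ 16 ≤ W.index := by
  have hp : IsPGroup 2 G := by
    intro x
    exact ⟨1, by rw [pow_one, pow_two, h2]⟩
  obtain ⟨n, hn⟩ := hp.index W
  rw [hn]
  by_cases hc : n ≤ 3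
  · left
    calc 2 ^ n ≤ 2 ^ 3 := Nat.pow_le_pow_right (by norm_num) hc
      _ = 8 := by norm_num
  · right
    calc 16 = 2 ^ 4 := by norm_num
      _ ≤ 2 ^ n := Nat.pow_le_pow_right (by norm_num) (by omega)

end

section
variable {S : QData} (h : IsQuat S) [Finite S.G]

lemma relIndex_le (K H : Subgroup S.G) : K.relIndex H ≤ K.index :=
  Nat.le_of_dvd (Nat.pos_of_ne_zero Subgroup.index_ne_zero_of_finite)
    (Subgroup.relIndex_dvd_index_of_normal K H)

include h in
lemma cc_of_four {H : Subgroup S.G} {a : Fin 3 → S.G} (ha : ∀ j, a j ∈ H) {x : S.G}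
    (hx : (D h x).relIndex H ≤ 4) : cc S a x ≤ 3 := by
  obtain ⟨T, hT, h0⟩ := dep_of_index h hx le_rfl a ha
  exact cc_le_three a x hT h0

include h in
lemma cc_of_two {H : Subgroup S.G} {a : Fin 3 → S.G} (ha : ∀ j, a j ∈ H) {x : S.G}
    (hx : (D h x).relIndex H ≤ 2) : cc S a x ≤ 1 :=
  cc_le_one h a ha (twoOn_of_rel h hx)

omit [Finite S.G] in
include h in
lemma cc_at_one (a : Fin 3 → S.G) : cc S a 1 = 0 := cc_zero a 1 fun j => q_one h _

include h in
lemma cc_values {H : Subgroup S.G} {a : Fin 3 → S.G} (ha : ∀ j, a j ∈ H) (x : S.G) :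
    cc S a x + 1 ≤ min 8 ((D h x).relIndex H) := by
  have h2' : ∀ x : H, x * x = 1 := fun x => Subtype.ext (h.exp2 x.1)
  have h7 := cc_le_seven (S := S) a x
  have e1 := index_cases2 h2' ((D h x).subgroupOf H)
  have e2 := index_cases h2' ((D h x).subgroupOf H)
  change (D h x).relIndex H = 1 ∨ (D h x).relIndex H = 2 ∨ 4 ≤ (D h x).relIndex H at e1
  change (D h x).relIndex H ≤ 4 ∨ 8 ≤ (D h x).relIndex H at e2
  rcases e1 with e | e | e
  · have e0 : cc S a x = 0 := by
      refine cc_zero a x fun j => ?_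
      have := Subgroup.relIndex_eq_one.1 e (ha j)
      rw [h.qs2]
      exact this
    rw [e0, e]
    decide
  · have := cc_of_two h ha (x := x) (by omega)
    rw [e]
    omega
  · rcases e2 with f | f
    · have := cc_of_four h ha (x := x) f
      omega
    · omega

include h in
lemma cc_all {H : Subgroup S.G} {a : Fin 3 → S.G} (ha : ∀ j, a j ∈ H) (x : S.G) :
    2 * cc S a x ≤ min 16 (D h x).index + 6 := by
  have h7 := cc_le_seven (S := S) a x
  have hp := idx_pos (D h x)
  rcases index_cases h.exp2 (D h x) with e | e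
  · rcases index_cases2 h.exp2 (D h x) with f | f | f
    · have := cc_of_two h ha (x := x) ((relIndex_le _ _).trans (by omega))
      omega
    · have := cc_of_two h ha (x := x) ((relIndex_le _ _).trans (by omega))
      omega
    · have := cc_of_four h ha (x := x) ((relIndex_le _ _).trans e)
      omega
  · omega

include h in
lemma cc_out {H : Subgroup S.G} (hcl : Closed S H) {a : Fin 3 → S.G} (ha : ∀ j, a j ∈ H)
    {x : S.G} (hx : x ∉ H) : 2 * cc S a x + 2 ≤ min 16 (D h x).index := by
  have h7 := cc_le_seven (S := S) a x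
  have h4 := out_index h hcl hx
  rcases index_cases h.exp2 (D h x) with e | e
  · have := cc_le_one h a ha (twoOn_of_index h hcl hx e)
    omega
  · rcases index_cases3 h.exp2 (D h x) with f | f
    · have := cc_of_four h ha (x := x) (rel_four h hcl hx f)
      omega
    · omega

omit [Finite S.G] in
lemma tw_mono {V H : Subgroup S.G} (hV : V ≤ H) : Tw S H ⊆ Tw S V :=
  fun _ hx u hu v hv => hx u (hV hu) v (hV hv)

/-- the data of a subgroup to which symbols do not extend -/
theorem counts2 [Fintype S.G] {A : Type*} [AddCommGroup A] (hA : ∀ t : A, t + t = 0)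
    (β : S.G → S.G → A) (hmul : ∀ a b c, β a (b * c) = β a b + β a c)
    (hiff : ∀ a b c d, β a b = β c d ↔ S.q a b = S.q c d) {H : Subgroup S.G}
    (h8 : 8 ≤ H.index) (hno : ¬ CanExt S H) :
    8 * Nat.card H ≤ Nat.card S.G ∧ 4 * (Tw S H).ncard ≤ Nat.card S.G ∧
      8 * Nat.card (H ⊓ Rad h : Subgroup S.G) ≤ Nat.card H ∧
      ∃ a : Fin 3 → S.G, (∀ j, a j ∈ H) ∧ 35 * Nat.card S.G ≤ 8 * ∑ x : S.G, cc S a x := by
  obtain ⟨c1, -, c3⟩ := counts h hA β hmul hiff h8 hno
  obtain ⟨a, ha, d1, d2⟩ := exists_cc h hA β hmul hiff (exists_out h8) hno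
  have hle : Subgroup.closure (Set.range a) ≤ H := by
    rw [Subgroup.closure_le]
    rintro _ ⟨j, rfl⟩
    exact ha j
  exact ⟨c1, (Nat.mul_le_mul_left _ (Set.ncard_le_ncard (tw_mono hle) (Set.toFinite _))).trans d1,
    c3, a, ha, d2⟩

lemma card_out (H : Subgroup S.G) : {x : S.G | x ∉ H}.ncard + Nat.card H = Nat.card S.G := by
  have e1 := Set.ncard_add_ncard_compl (H : Set S.G)
  have e2 : (H : Set S.G).ncard = Nat.card H := rfl
  have e3 : ((H : Set S.G)ᶜ) = {x : S.G | x ∉ H} := rfl
  rw [e3] at e1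
  omega

include h in
/-- few exceptional elements -/
theorem elem_of_few2 {A : Type*} [AddCommGroup A] (hA : ∀ t : A, t + t = 0)
    (β : S.G → S.G → A) (hmul : ∀ a b c, β a (b * c) = β a b + β a c)
    (hiff : ∀ a b c d, β a b = β c d ↔ S.q a b = S.q c d)
    (hB : 8 * {a : S.G | a ∉ Core S ∧ 4 < (D h a).index}.ncard < 5 * Nat.card S.G) :
    Elem S := by
  have := Fintype.ofFinite S.G
  refine Pool.Agent.J6H42.CE.elem_of_core_four h ⟨hmul, hiff, hA⟩ fun H hcl h8 h4 => ?_
  by_contra hno
  obtain ⟨c1, c2, -⟩ := counts2 h hA β hmul hiff h8 hno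
  have hcore : Core S ≤ H := sInf_le hcl
  have e1 : (Set.univ : Set S.G) ⊆ (Tw S H ∪ (H : Set S.G)) ∪
      {a : S.G | a ∉ Core S ∧ 4 < (D h a).index} := by
    intro x _
    by_cases h1 : x ∈ H
    · exact Or.inl (Or.inr h1)
    by_cases h2 : TwoOn S H x
    · exact Or.inl (Or.inl h2)
    · refine Or.inr ⟨fun e => h1 (hcore e), ?_⟩
      have := bad_index h hcl (z := x) ⟨h1, h2⟩
      omega
  have e2 := (Set.ncard_le_ncard e1 (Set.toFinite _)).trans (Set.ncard_union_le _ _)
  have e3 := Set.ncard_union_le (Tw S H) (H : Set S.G)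
  have e4 : (H : Set S.G).ncard = Nat.card H := rfl
  rw [Set.ncard_univ] at e2
  omega

include h in
/-- the average of the truncated indices is at most 39/4 -/
theorem elem_of_average2 [Fintype S.G] {A : Type*} [AddCommGroup A] (hA : ∀ t : A, t + t = 0)
    (β : S.G → S.G → A) (hmul : ∀ a b c, β a (b * c) = β a b + β a c)
    (hiff : ∀ a b c d, β a b = β c d ↔ S.q a b = S.q c d)
    (hB : 4 * ∑ a : S.G, min 16 (D h a).index ≤ 39 * Nat.card S.G) : Elem S := by
  classical
  refine elem_of_closed h fun H hcl h8 => ?_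
  by_contra hno
  obtain ⟨c1, -, -, a, ha, c2⟩ := counts2 h hA β hmul hiff h8 hno
  have key : ∀ x : S.G, 2 * cc S a x + 8 * (if x ∈ {x : S.G | x ∉ H} then 1 else 0) +
      (if x ∈ ({1} : Set S.G) then 1 else 0) ≤ min 16 (D h x).index + 6 := by
    intro x
    by_cases hx : x ∈ H
    · have n1 : x ∉ {x : S.G | x ∉ H} := fun e => e hx
      rw [if_neg n1]
      by_cases h1 : x = 1
      · subst h1
        rw [cc_at_one h a]
        have := idx_pos (D h (1 : S.G))
        simp only [Set.mem_singleton_iff, if_true]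
        omega
      · have n2 : x ∉ ({1} : Set S.G) := h1
        rw [if_neg n2]
        have := cc_all h ha x
        omega
    · have n1 : x ∈ {x : S.G | x ∉ H} := hx
      have n2 : x ∉ ({1} : Set S.G) := by
        intro e
        rw [Set.mem_singleton_iff.1 e] at hx
        exact hx H.one_mem
      rw [if_pos n1, if_neg n2]
      have := cc_out h hcl ha hx
      omega
  have s1 := Finset.sum_le_sum fun x (_ : x ∈ (Finset.univ : Finset S.G)) => key x
  rw [Finset.sum_add_distrib, Finset.sum_add_distrib, Finset.sum_add_distrib, ← Finset.mul_sum,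
    ← Finset.mul_sum, sum_ind, sum_ind, Finset.sum_const, smul_eq_mul, Finset.card_univ,
    ← Nat.card_eq_fintype_card, Set.ncard_singleton] at s1
  have e1 := card_out H
  omega

include h in
/-- the same outside the core -/
theorem elem_of_average_out2 [Fintype S.G] [DecidablePred (· ∉ Core S)] {A : Type*}
    [AddCommGroup A] (hA : ∀ t : A, t + t = 0)
    (β : S.G → S.G → A) (hmul : ∀ a b c, β a (b * c) = β a b + β a c)
    (hiff : ∀ a b c d, β a b = β c d ↔ S.q a b = S.q c d)
    (hB : 4 * ∑ a : S.G with a ∉ Core S, min 16 (D h a).index ≤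
      39 * {a : S.G | a ∉ Core S}.ncard) : Elem S := by
  classical
  refine elem_of_closed h fun H hcl h8 => ?_
  by_contra hno
  obtain ⟨c1, -, -, a, ha, c2⟩ := counts2 h hA β hmul hiff h8 hno
  have hcore : Core S ≤ H := sInf_le hcl
  have key : ∀ x : S.G, 2 * cc S a x + 8 * (if x ∈ {x : S.G | x ∉ H} then 1 else 0) ≤
      (if x ∉ Core S then min 16 (D h x).index else 0) +
        6 * (if x ∈ {x : S.G | x ∉ Core S} then 1 else 0) +
        14 * (if x ∈ (Core S : Set S.G) then 1 else 0) := by
    intro x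
    by_cases hC : x ∈ Core S
    · have n1 : x ∉ {x : S.G | x ∉ H} := fun e => e (hcore hC)
      have n2 : x ∉ {x : S.G | x ∉ Core S} := fun e => e hC
      have n3 : x ∈ (Core S : Set S.G) := hC
      have n4 : ¬ (x ∉ Core S) := fun e => e hC
      rw [if_neg n1, if_neg n2, if_pos n3, if_neg n4]
      have := cc_le_seven (S := S) a x
      omega
    · have n2 : x ∈ {x : S.G | x ∉ Core S} := hC
      have n3 : x ∉ (Core S : Set S.G) := hC
      rw [if_pos n2, if_neg n3, if_pos hC]
      by_cases hx : x ∈ H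
      · have n1 : x ∉ {x : S.G | x ∉ H} := fun e => e hx
        rw [if_neg n1]
        have := cc_all h ha x
        omega
      · have n1 : x ∈ {x : S.G | x ∉ H} := hx
        rw [if_pos n1]
        have := cc_out h hcl ha hx
        omega
  have s1 := Finset.sum_le_sum fun x (_ : x ∈ (Finset.univ : Finset S.G)) => key x
  rw [Finset.sum_add_distrib, Finset.sum_add_distrib, Finset.sum_add_distrib, ← Finset.mul_sum,
    ← Finset.mul_sum, ← Finset.mul_sum, ← Finset.mul_sum, sum_ind, sum_ind, sum_ind,
    ← Finset.sum_filter] at s1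
  have e1 := card_out H
  have e2 := card_out (Core S)
  have e3 : (Core S : Set S.G).ncard = Nat.card (Core S) := rfl
  have e4 : 0 < Nat.card (Core S) := Nat.card_pos
  rw [e3] at s1
  omega

include h in
/-- the criterion -/
theorem canExt_of_values [Fintype S.G] {A : Type*} [AddCommGroup A] (hA : ∀ t : A, t + t = 0)
    (β : S.G → S.G → A) (hmul : ∀ a b c, β a (b * c) = β a b + β a c)
    (hiff : ∀ a b c d, β a b = β c d ↔ S.q a b = S.q c d) {H : Subgroup S.G}
    (h8 : 8 ≤ H.index)
    (hH : ∀ a : Fin 3 → S.G, (∀ j, a j ∈ H) →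
      Nat.card S.G < 4 * (Tw S (Subgroup.closure (Set.range a))).ncard ∨
      8 * ∑ x : S.G, (D h x).relIndex (Subgroup.closure (Set.range a)) < 43 * Nat.card S.G) :
    CanExt S H := by
  by_contra hno
  obtain ⟨a, ha, c2, c3⟩ := exists_cc h hA β hmul hiff (exists_out h8) hno
  rcases hH a ha with hH | hH
  · omega
  · have s1 := Finset.sum_le_sum fun x (_ : x ∈ (Finset.univ : Finset S.G)) =>
      (cc_values h (H := Subgroup.closure (Set.range a))
        (fun j => Subgroup.subset_closure (Set.mem_range_self j)) x).trans (min_le_right _ _)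
    rw [Finset.sum_add_distrib, Finset.sum_const, smul_eq_mul, Finset.card_univ,
      ← Nat.card_eq_fintype_card, mul_one] at s1
    omega

omit [Finite S.G] in
lemma small_card {a : S.G} (n : ℕ) (hn : n ≤ (D h a).index) :
    n * Nat.card (D h a) ≤ Nat.card S.G := by
  rw [← (D h a).card_mul_index, mul_comm]
  exact Nat.mul_le_mul_left _ hn

include h in
/-- the value groups of the elements outside the core -/
lemma weight_out {H : Subgroup S.G} (hcl : Closed S H) {a : Fin 3 → S.G} (ha : ∀ j, a j ∈ H)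
    {x : S.G} (hx : x ∉ Core S) {t k : ℕ} (ht : x ∈ Tw S H → t = 1) (hk : x ∈ H → k = 1) :
    64 * Nat.card (D h x) + Nat.card S.G * cc S a x ≤
      Nat.card S.G * (11 + 6 * t + 8 * k) := by
  have h7 := cc_le_seven (S := S) a x
  have h4 : 4 ≤ (D h x).index := core_index_four h hx
  have hc := Nat.mul_le_mul_left (Nat.card S.G) h7
  have g4 := small_card h 4 h4
  by_cases hH : x ∈ H
  · rw [hk hH]
    have ex : Nat.card S.G * (11 + 6 * t + 8 * 1) =
        19 * Nat.card S.G + 6 * (Nat.card S.G * t) := by ring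
    rw [ex]
    rcases index_cases h.exp2 (D h x) with e | e
    · have c3 := cc_of_four h ha (x := x) ((relIndex_le _ _).trans e)
      have := Nat.mul_le_mul_left (Nat.card S.G) c3
      omega
    · have := small_card h 8 e
      omega
  · by_cases hT : x ∈ Tw S H
    · rw [ht hT]
      have ex : Nat.card S.G * (11 + 6 * 1 + 8 * k) =
          17 * Nat.card S.G + 8 * (Nat.card S.G * k) := by ring
      rw [ex]
      have c1 := cc_le_one h a ha hT
      have := Nat.mul_le_mul_left (Nat.card S.G) c1
      omega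
    · have ex : Nat.card S.G * (11 + 6 * t + 8 * k) =
          11 * Nat.card S.G + 6 * (Nat.card S.G * t) + 8 * (Nat.card S.G * k) := by ring
      rw [ex]
      have h8 := bad_index h hcl (z := x) ⟨hH, hT⟩
      rcases index_cases3 h.exp2 (D h x) with e | e
      · have c3 := cc_of_four h ha (x := x) (rel_four h hcl hH e)
        have := Nat.mul_le_mul_left (Nat.card S.G) c3
        have := small_card h 8 h8
        omega
      · have := small_card h 16 e
        omega

include h in
/-- many split pairs -/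
theorem elem_of_split2 [Fintype S.G] {A : Type*} [AddCommGroup A] (hA : ∀ t : A, t + t = 0)
    (β : S.G → S.G → A) (hmul : ∀ a b c, β a (b * c) = β a b + β a c)
    (hiff : ∀ a b c d, β a b = β c d ↔ S.q a b = S.q c d)
    (hB : 161 * Nat.card S.G ^ 2 < 1024 * ∑ a : S.G, Nat.card (D h a)) : Elem S := by
  classical
  refine Pool.Agent.J6H42.CE.elem_of_core_four h ⟨hmul, hiff, hA⟩ fun H hcl h8 h4 => ?_
  by_contra hno
  obtain ⟨c1, c2, c3, a, ha, c5⟩ := counts2 h hA β hmul hiff h8 hno
  have c4 := core_card h4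
  have hcore : Core S ≤ H := sInf_le hcl
  have key : ∀ x : S.G, 64 * Nat.card (D h x) + Nat.card S.G * cc S a x ≤
      Nat.card S.G * (11 + 6 * (if x ∈ Tw S H then 1 else 0) +
        8 * (if x ∈ (H : Set S.G) then 1 else 0) +
        14 * (if x ∈ (Core S : Set S.G) then 1 else 0) +
        32 * (if x ∈ ((H ⊓ Rad h : Subgroup S.G) : Set S.G) then 1 else 0)) := by
    intro x
    by_cases hC : x ∈ Core S
    · have n1 : x ∈ (H : Set S.G) := hcore hC
      have n2 : x ∈ (Core S : Set S.G) := hC
      rw [if_pos n1, if_pos n2]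
      set t : ℕ := if x ∈ Tw S H then 1 else 0
      have h7 := Nat.mul_le_mul_left (Nat.card S.G) (cc_le_seven (S := S) a x)
      by_cases hR : x ∈ Rad h
      · have n3 : x ∈ ((H ⊓ Rad h : Subgroup S.G) : Set S.G) := ⟨hcore hC, hR⟩
        rw [if_pos n3]
        have g1 := small_card h 1 (idx_pos (D h x))
        have hcc : cc S a x = 0 := cc_zero a x fun j => by
          rw [h.qs2]
          exact hR (a j)
        rw [hcc]
        have ex : Nat.card S.G * (11 + 6 * t + 8 * 1 + 14 * 1 + 32 * 1) =
          65 * Nat.card S.G + 6 * (Nat.card S.G * t) := by ring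
        rw [ex]
        omega
      · set r : ℕ := if x ∈ ((H ⊓ Rad h : Subgroup S.G) : Set S.G) then 1 else 0
        have ex : Nat.card S.G * (11 + 6 * t + 8 * 1 + 14 * 1 + 32 * r) =
          33 * Nat.card S.G + 6 * (Nat.card S.G * t) + 32 * (Nat.card S.G * r) := by ring
        rw [ex]
        have g2 := small_card h 2 (rad_index h hR)
        rcases index_cases2 h.exp2 (D h x) with e | e | e
        · have := cc_of_two h ha (x := x) ((relIndex_le _ _).trans (by omega))
          have := Nat.mul_le_mul_left (Nat.card S.G) this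
          omega
        · have := cc_of_two h ha (x := x) ((relIndex_le _ _).trans (by omega))
          have := Nat.mul_le_mul_left (Nat.card S.G) this
          omega
        · have g4 := small_card h 4 e
          omega
    · have n2 : x ∉ (Core S : Set S.G) := hC
      rw [if_neg n2]
      have w := weight_out h hcl ha hC (t := if x ∈ Tw S H then 1 else 0)
        (k := if x ∈ (H : Set S.G) then 1 else 0) (fun e => if_pos e) (fun e => if_pos e)
      refine w.trans (Nat.mul_le_mul_left _ ?_)
      omega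
  have s1 := Finset.sum_le_sum fun x (_ : x ∈ (Finset.univ : Finset S.G)) => key x
  simp only [Finset.sum_add_distrib, ← Finset.mul_sum, sum_ind, Finset.sum_const, smul_eq_mul,
    Finset.card_univ, ← Nat.card_eq_fintype_card] at s1
  have e4 : (Core S : Set S.G).ncard = Nat.card (Core S) := rfl
  have e5 : ((H ⊓ Rad h : Subgroup S.G) : Set S.G).ncard = Nat.card (H ⊓ Rad h : Subgroup S.G) :=
    rfl
  have e6 : (H : Set S.G).ncard = Nat.card H := rfl
  rw [e4, e5, e6] at s1
  set g := Nat.card S.G
  set hh := Nat.card H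
  set cr := Nat.card (Core S)
  set r := Nat.card (H ⊓ Rad h : Subgroup S.G)
  set tt := (Tw S H).ncard
  set ss := ∑ x : S.G, cc S a x
  have hg : 0 < g := Nat.card_pos
  have m1 : g * (8 * hh) ≤ g * g := Nat.mul_le_mul_left _ c1
  have m2 : g * (4 * tt) ≤ g * g := Nat.mul_le_mul_left _ c2
  have m3 : g * (8 * r) ≤ g * hh := Nat.mul_le_mul_left _ c3
  have m4 : g * (4 * cr) ≤ g * hh := Nat.mul_le_mul_left _ c4
  have m5 : g * (35 * g) ≤ g * (8 * ss) := Nat.mul_le_mul_left _ c5
  have m6 : 0 < g * g := Nat.mul_pos hg hg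
  nlinarith [m1, m2, m3, m4, m5, m6, s1, hB]

include h in
/-- many split pairs outside the core -/
theorem elem_of_split_out2 [Fintype S.G] [DecidablePred (· ∉ Core S)] {A : Type*}
    [AddCommGroup A] (hA : ∀ t : A, t + t = 0)
    (β : S.G → S.G → A) (hmul : ∀ a b c, β a (b * c) = β a b + β a c)
    (hiff : ∀ a b c d, β a b = β c d ↔ S.q a b = S.q c d)
    (hB : 73 * Nat.card S.G * {a : S.G | a ∉ Core S}.ncard ≤
      512 * ∑ a : S.G with a ∉ Core S, Nat.card (D h a)) :
    Elem S := by
  classical
  refine elem_of_closed h fun H hcl h8 => ?_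
  by_contra hno
  obtain ⟨c1, c2, -, a, ha, c5⟩ := counts2 h hA β hmul hiff h8 hno
  have hcore : Core S ≤ H := sInf_le hcl
  have key : ∀ x : S.G, 64 * (if x ∉ Core S then Nat.card (D h x) else 0) +
      Nat.card S.G * cc S a x + Nat.card S.G * (12 * (if x ∈ (Core S : Set S.G) then 1 else 0)) ≤
      Nat.card S.G * (11 + 6 * (if x ∈ Tw S H then 1 else 0) +
        8 * (if x ∈ (H : Set S.G) then 1 else 0)) := by
    intro x
    by_cases hC : x ∈ Core S
    · have n1 : x ∈ (H : Set S.G) := hcore hC
      have n2 : x ∈ (Core S : Set S.G) := hC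
      have n4 : ¬ (x ∉ Core S) := fun e => e hC
      rw [if_pos n1, if_pos n2, if_neg n4]
      have h7 := Nat.mul_le_mul_left (Nat.card S.G) (cc_le_seven (S := S) a x)
      set t : ℕ := if x ∈ Tw S H then 1 else 0
      have ex : Nat.card S.G * (11 + 6 * t + 8 * 1) =
          19 * Nat.card S.G + 6 * (Nat.card S.G * t) := by ring
      rw [ex]
      omega
    · have n2 : x ∉ (Core S : Set S.G) := hC
      rw [if_neg n2, if_pos hC, mul_zero, mul_zero, add_zero]
      exact weight_out h hcl ha hC (fun e => if_pos e) (fun e => if_pos e)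
  have s1 := Finset.sum_le_sum fun x (_ : x ∈ (Finset.univ : Finset S.G)) => key x
  simp only [Finset.sum_add_distrib, ← Finset.mul_sum, sum_ind, Finset.sum_const, smul_eq_mul,
    Finset.card_univ, ← Nat.card_eq_fintype_card] at s1
  rw [← Finset.sum_filter] at s1
  have e1 := card_out (Core S)
  have e4 : (Core S : Set S.G).ncard = Nat.card (Core S) := rfl
  have e6 : (H : Set S.G).ncard = Nat.card H := rfl
  rw [e4, e6] at s1
  set g := Nat.card S.G
  set hh := Nat.card H
  set cr := Nat.card (Core S)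
  set tt := (Tw S H).ncard
  set ss := ∑ x : S.G, cc S a x
  set o := {a : S.G | a ∉ Core S}.ncard
  set dd := ∑ a : S.G with a ∉ Core S, Nat.card (D h a)
  have hg : 0 < g := Nat.card_pos
  have hcr : 0 < cr := Nat.card_pos
  have m1 : g * (8 * hh) ≤ g * g := Nat.mul_le_mul_left _ c1
  have m2 : g * (4 * tt) ≤ g * g := Nat.mul_le_mul_left _ c2
  have m5 : g * (35 * g) ≤ g * (8 * ss) := Nat.mul_le_mul_left _ c5
  have m6 : 0 < g * cr := Nat.mul_pos hg hcr
  have m7 : g * (o + cr) = g * g := by rw [e1]
  nlinarith [m1, m2, m5, m6, m7, s1, hB]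

end

end Pool.Agent.J6H71.ET
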