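import Pool.Agent.J6H71.ET.Grp

/-! Seven characters of a finite elementary abelian 2-group indexed by the Fano plane. -/

set_option autoImplicit false

namespace Pool.Agent.J6H71.ET

lemma z2_cases (t : ZMod 2) : t = 0 ∨ t = 1 := by
  revert t
  decide

section
variable {G : Type} [CommGroup G] [Finite G] (h2 : ∀ x : G, x * x = 1)

/-- two disjoint translates -/
lemma two_disj (U : Set G) (y : G) (hU : ∀ x ∈ U, x * y ∉ U) :
    (U ∪ (fun x => x * y) '' U).ncard = 2 * U.ncard := by
  rw [Set.ncard_union_eq ?_ (Set.toFinite _) (Set.toFinite _),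
    Set.ncard_image_of_injective _ (mul_left_injective y), two_mul]
  rw [Set.disjoint_left]
  rintro _ hx ⟨u, hu, rfl⟩
  exact hU u hu hx

include h2 in
/-- four disjoint translates -/
lemma four_disj (U : Set G) (y y' : G) (h1 : ∀ x ∈ U, x * y ∉ U) (h3 : ∀ x ∈ U, x * y' ∉ U)
    (h4 : ∀ x ∈ U, x * (y * y') ∉ U) : 4 * U.ncard ≤ Nat.card G := by
  have e1 := two_disj U y h1
  have e2 := two_disj (U ∪ (fun x => x * y) '' U) y' (by
    rintro x (hx | ⟨u, hu, rfl⟩) hx'
    · rcases hx' with hx' | ⟨v, hv, e⟩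
      · exact h3 x hx hx'
      · apply h4 x hx
        have e' : v * y = x * y' := e
        have : x * (y * y') = v := by
          rw [mul_comm y y', ← mul_assoc, ← e', mul_assoc, h2, mul_one]
        rw [this]
        exact hv
    · rcases hx' with hx' | ⟨v, hv, e⟩
      · apply h4 u hu
        rw [← mul_assoc]
        exact hx'
      · apply h3 u hu
        have e' : v * y = u * y * y' := e
        have : u * y' = v := by
          have e3 : u * y * y' = u * y' * y := by rw [mul_assoc, mul_comm y y', ← mul_assoc]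
          rw [e3] at e'
          exact (mul_right_cancel e').symm
        rw [this]
        exact hv)
  have e3 := Set.ncard_le_ncard (Set.subset_univ
    ((U ∪ (fun x => x * y) '' U) ∪ (fun x => x * y') '' (U ∪ (fun x => x * y) '' U)))
    (Set.toFinite _)
  rw [Set.ncard_univ] at e3
  omega

/-- additive functions -/
def Ch (f : G → ZMod 2) : Prop := ∀ x y, f (x * y) = f x + f y

omit [Finite G] in
lemma Ch.one {f : G → ZMod 2} (hf : Ch f) : f 1 = 0 := by
  have := hf 1 1
  rw [mul_one] at this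
  exact left_eq_add.1 this

lemma Ch.half {f : G → ZMod 2} (hf : Ch f) {z : G} (hz : f z = 1) :
    Nat.card G ≤ 2 * {x | f x = 1}.ncard := by
  have e1 := Set.ncard_add_ncard_compl {x : G | f x = 1}
  have e2 : ({x : G | f x = 1}ᶜ).ncard ≤ {x : G | f x = 1}.ncard := by
    refine Set.ncard_le_ncard_of_injOn (fun x => x * z) (fun x hx => ?_)
      (fun _ _ _ _ e => mul_right_cancel e) (Set.toFinite _)
    show f (x * z) = 1
    rcases z2_cases (f x) with e | e
    · rw [hf, e, hz, zero_add]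
    · exact absurd e hx
  omega

omit [Finite G] in
lemma Ch.sep {f g : G → ZMod 2} (hf : Ch f) (hg : Ch g) {z : G} (hz : g z = 1) (hne : g ≠ f) :
    ∃ y, f y = 0 ∧ g y = 1 := by
  by_contra hc
  push Not at hc
  have h0 : ∀ y, f y = 0 → g y = 0 := fun y hy => (z2_cases (g y)).resolve_right (hc y hy)
  apply hne
  have fz : f z = 1 := by
    rcases z2_cases (f z) with e | e
    · exact absurd hz (hc z e)
    · exact e
  funext y
  rcases z2_cases (f y) with e | e
  · rw [e, h0 y e]
  · have e1 : f (y * z) = 0 := by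
      rw [hf, e, fz]
      decide
    have e2 := h0 _ e1
    rw [hg, hz] at e2
    rw [e]
    rcases z2_cases (g y) with e3 | e3
    · rw [e3] at e2
      exact absurd e2 (by decide)
    · exact e3

include h2 in
lemma Ch.quarter {f g : G → ZMod 2} (hf : Ch f) (hg : Ch g) {z z' : G} (hz : f z = 1)
    (hz' : g z' = 1) (hne : g ≠ f) : 4 * {x | f x = 0 ∧ g x = 0}.ncard ≤ Nat.card G := by
  obtain ⟨y, y1, y2⟩ := hf.sep hg hz' hne
  obtain ⟨w, w1, w2⟩ := hg.sep hf hz (Ne.symm hne)
  refine four_disj h2 _ y w (fun x hx hc => ?_) (fun x hx hc => ?_) (fun x hx hc => ?_)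
  · have := hc.2
    rw [hg, hx.2, y2] at this
    exact absurd this (by decide)
  · have := hc.1
    rw [hf, hx.1, w2] at this
    exact absurd this (by decide)
  · have := hc.1
    rw [hf, hf, hx.1, y1, w2] at this
    exact absurd this (by decide)

/-- the fibres of an additive function have the same number of elements -/
lemma fibre_card {M : Type} [AddCommGroup M] [Fintype M] [DecidableEq M] (hM : ∀ t : M, t + t = 0)
    (F : G → M) (hF : ∀ x y, F (x * y) = F x + F y) (x0 : G) :
    Nat.card G ≤ Fintype.card M * {x | F x = F x0}.ncard := by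
  classical
  have := Fintype.ofFinite G
  have key := Finset.card_le_mul_card_image_of_maps_to (s := (Finset.univ : Finset G))
    (t := (Finset.univ : Finset M)) (f := F) (fun _ _ => Finset.mem_univ _)
    {x | F x = F x0}.ncard (by
      intro b _
      rw [← Set.ncard_coe_finset]
      by_cases hne : ∃ x1, F x1 = b
      · obtain ⟨x1, hx1⟩ := hne
        refine Set.ncard_le_ncard_of_injOn (fun x => x * (x1 * x0)) (fun x hx => ?_)
          (fun _ _ _ _ e => mul_right_cancel e) (Set.toFinite _)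
        have hx' : F x = b := by simpa using hx
        show F (x * (x1 * x0)) = F x0
        rw [hF, hF, hx', hx1, ← add_assoc, hM, zero_add]
      · push Not at hne
        have : (((Finset.univ : Finset G).filter fun x => F x = b : Finset G) : Set G) = ∅ := by
          rw [Finset.coe_eq_empty, Finset.filter_eq_empty_iff]
          exact fun x _ => hne x
        rw [this, Set.ncard_empty]
        exact Nat.zero_le _)
  rw [Finset.card_univ, Finset.card_univ, ← Nat.card_eq_fintype_card (α := G), mul_comm] at key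
  exact key

lemma Ch.eighth {f g k : G → ZMod 2} (hf : Ch f) (hg : Ch g) (hk : Ch k) (x0 : G) :
    Nat.card G ≤ 8 * {x | f x = f x0 ∧ g x = g x0 ∧ k x = k x0}.ncard := by
  have key := fibre_card (M := ZMod 2 × ZMod 2 × ZMod 2) (by decide)
    (fun x : G => (f x, g x, k x)) (fun x y => by
      show (f (x * y), g (x * y), k (x * y)) = (f x + f y, g x + g y, k x + k y)
      rw [hf, hg, hk]) x0
  have e8 : Fintype.card (ZMod 2 × ZMod 2 × ZMod 2) = 8 := by decide
  rw [e8] at key
  refine key.trans (Nat.mul_le_mul_left _ (Set.ncard_le_ncard (fun x hx => ?_) (Set.toFinite _)))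
  have hx' : (f x, g x, k x) = (f x0, g x0, k x0) := hx
  exact ⟨congrArg Prod.fst hx', congrArg (fun t => t.2.1) hx', congrArg (fun t => t.2.2) hx'⟩

lemma Ch.sixteenth {f g k l : G → ZMod 2} (hf : Ch f) (hg : Ch g) (hk : Ch k) (hl : Ch l)
    (x0 : G) :
    Nat.card G ≤ 16 * {x | f x = f x0 ∧ g x = g x0 ∧ k x = k x0 ∧ l x = l x0}.ncard := by
  have key := fibre_card (M := ZMod 2 × ZMod 2 × ZMod 2 × ZMod 2) (by decide)
    (fun x : G => (f x, g x, k x, l x)) (fun x y => by
      show (f (x * y), g (x * y), k (x * y), l (x * y)) =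
        (f x + f y, g x + g y, k x + k y, l x + l y)
      rw [hf, hg, hk, hl]) x0
  have e16 : Fintype.card (ZMod 2 × ZMod 2 × ZMod 2 × ZMod 2) = 16 := by decide
  rw [e16] at key
  refine key.trans (Nat.mul_le_mul_left _ (Set.ncard_le_ncard (fun x hx => ?_) (Set.toFinite _)))
  have hx' : (f x, g x, k x, l x) = (f x0, g x0, k x0, l x0) := hx
  exact ⟨congrArg Prod.fst hx', congrArg (fun t => t.2.1) hx', congrArg (fun t => t.2.2.1) hx',
    congrArg (fun t => t.2.2.2) hx'⟩

omit [Finite G] in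
/-- separation on the kernel of `f` -/
lemma Ch.sepF {f a b : G → ZMod 2} (hf : Ch f) (ha : Ch a) (hb : Ch b) {x w : G} (fx : f x = 0)
    (hx : a x ≠ b x) (fw : f w = 0) (bw : b w = 1) : ∃ y, f y = 0 ∧ a y = 0 ∧ b y = 1 := by
  rcases z2_cases (a x) with e | e
  · rcases z2_cases (b x) with e' | e'
    · rw [e, e'] at hx
      exact absurd rfl hx
    · exact ⟨x, fx, e, e'⟩
  · rcases z2_cases (b x) with e' | e'
    · rcases z2_cases (a w) with e2 | e2
      · exact ⟨w, fw, e2, bw⟩
      · refine ⟨x * w, ?_, ?_, ?_⟩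
        · rw [hf, fx, fw, add_zero]
        · rw [ha, e, e2]
          decide
        · rw [hb, e', bw, zero_add]
    · rw [e, e'] at hx
      exact absurd rfl hx

omit [Finite G] in
lemma Ch.prod {f : G → ZMod 2} (hf : Ch f) (z : Fin 3 → G) (T : Finset (Fin 3)) :
    f (∏ j ∈ T, z j) = ((T ∩ Finset.univ.filter fun j => f (z j) ≠ 0).card : ZMod 2) := by
  classical
  have e1 : f (∏ j ∈ T, z j) = ∑ j ∈ T, f (z j) := by
    induction T using Finset.induction_on with
    | empty => rw [Finset.prod_empty, Finset.sum_empty, hf.one]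
    | insert s T hs ih => rw [Finset.prod_insert hs, Finset.sum_insert hs, hf, ih]
  have e2 : ∀ j, f (z j) = if j ∈ Finset.univ.filter (fun j => f (z j) ≠ 0) then 1 else 0 := by
    intro j
    by_cases hj : f (z j) = 0
    · have hjX : j ∉ Finset.univ.filter (fun j => f (z j) ≠ 0) :=
        fun e => (Finset.mem_filter.1 e).2 hj
      rw [if_neg hjX, hj]
    · have hjX : j ∈ Finset.univ.filter (fun j => f (z j) ≠ 0) :=
        Finset.mem_filter.2 ⟨Finset.mem_univ _, hj⟩
      rw [if_pos hjX]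
      exact (z2_cases _).resolve_left hj
  rw [e1, Finset.sum_congr rfl fun j _ => e2 j, Finset.sum_ite_mem, Finset.sum_const,
    nsmul_eq_mul, mul_one]

lemma odd_iff {n : ℕ} : (n : ZMod 2) = 1 ↔ Odd n := by
  rw [← Nat.not_even_iff_odd, ← ZMod.natCast_eq_zero_iff_even]
  rcases z2_cases (n : ZMod 2) with e | e
  · rw [e]
    decide
  · rw [e]
    decide

end

section
variable {G : Type} [CommGroup G] [Finite G] (h2 : ∀ x : G, x * x = 1)
  (ψ : Finset (Fin 3) → G → ZMod 2) (hψ : ∀ J, Ch (ψ J)) (z : Fin 3 → G)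
  (hz : ∀ J : Finset (Fin 3), J.Nonempty → ψ J (∏ j ∈ J, z j) = 1)

/-- the elements `x` for which `J` is in the span of the `J'` with `ψ J' x = 1` -/
def Mem (ψ : Finset (Fin 3) → G → ZMod 2) (J : Finset (Fin 3)) : Set G :=
  {x | ψ J x = 1 ∨ ∃ J' : Finset (Fin 3), ψ J' x = 1 ∧ ψ (symmDiff J J') x = 1}

include hψ hz in
lemma mem_half {J : Finset (Fin 3)} (hJ : J.Nonempty) : Nat.card G ≤ 2 * (Mem ψ J).ncard :=
  ((hψ J).half (hz J hJ)).trans
    (Nat.mul_le_mul_left _ (Set.ncard_le_ncard (fun _ hx => Or.inl hx) (Set.toFinite _)))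

include hψ hz in
lemma mem_good {J J' : Finset (Fin 3)} (hJ : J.Nonempty) (hJ' : J'.Nonempty)
    (hJJ : (symmDiff J J').Nonempty) (n1 : ψ J' ≠ ψ J) (n2 : ψ (symmDiff J J') ≠ ψ J) :
    5 * Nat.card G ≤ 8 * (Mem ψ J).ncard := by
  have e1 := (hψ J).half (hz J hJ)
  obtain ⟨y, y1, y2⟩ := (hψ J).sep (hψ J') (hz J' hJ') n1
  obtain ⟨w, w1, w2⟩ := (hψ J).sep (hψ _) (hz _ hJJ) n2
  obtain ⟨x0, a1, a2, a3⟩ : ∃ x0, ψ J x0 = 0 ∧ ψ J' x0 = 1 ∧ ψ (symmDiff J J') x0 = 1 := by
    rcases z2_cases (ψ (symmDiff J J') y) with e | e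
    · rcases z2_cases (ψ J' w) with f | f
      · refine ⟨y * w, ?_, ?_, ?_⟩
        · rw [hψ, y1, w1, add_zero]
        · rw [hψ, y2, f, add_zero]
        · rw [hψ, e, w2, zero_add]
      · exact ⟨w, w1, f, w2⟩
    · exact ⟨y, y1, y2, e⟩
  have e2 := (hψ J).eighth (hψ J') (hψ (symmDiff J J')) x0
  rw [a1, a2, a3] at e2
  have e3 : {x | ψ J x = 1}.ncard +
      {x | ψ J x = 0 ∧ ψ J' x = 1 ∧ ψ (symmDiff J J') x = 1}.ncard ≤ (Mem ψ J).ncard := by
    rw [← Set.ncard_union_eq ?_ (Set.toFinite _) (Set.toFinite _)]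
    · refine Set.ncard_le_ncard ?_ (Set.toFinite _)
      rintro x (hx | hx)
      · exact Or.inl hx
      · exact Or.inr ⟨J', hx.2.1, hx.2.2⟩
    · rw [Set.disjoint_left]
      rintro x hx hx'
      have f1 : ψ J x = 1 := hx
      rw [hx'.1] at f1
      exact absurd f1 (by decide)
  omega

lemma card_inter_symmDiff (T J J' : Finset (Fin 3)) :
    (T ∩ symmDiff J J').card % 2 = ((T ∩ J).card + (T ∩ J').card) % 2 := by
  revert T J J'
  decide

lemma odd_count (T : Finset (Fin 3)) (hT : T.Nonempty) :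
    ∑ J : Finset (Fin 3), (if Odd (T ∩ J).card then 8 else 0) = 32 := by
  revert T
  decide

lemma even_three (T : Finset (Fin 3)) (hT : T.Nonempty) : ∃ A B C : Finset (Fin 3),
    A.Nonempty ∧ B.Nonempty ∧ C.Nonempty ∧ A ≠ B ∧ A ≠ C ∧ B ≠ C ∧ Even (T ∩ A).card ∧
      Even (T ∩ B).card ∧ Even (T ∩ C).card ∧ symmDiff A B = C ∧ symmDiff B C = A ∧
      symmDiff C A = B := by
  revert T
  decide

include h2 hψ hz in
/-- the three lines: lower bounds for an even index -/
lemma mem_even {J0 A B C : Finset (Fin 3)} (hJ0 : J0.Nonempty) (hA : A.Nonempty)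
    (hAB : symmDiff A B = C) (hAJ : ψ (symmDiff A J0) = ψ J0) (nA : ψ A ≠ ψ J0) :
    12 * Nat.card G ≤ 16 * (Mem ψ A).ncard ∧
    ((∃ y, ψ J0 y = 0 ∧ ψ A y = 0 ∧ ψ B y = 1) → (∃ y, ψ J0 y = 0 ∧ ψ A y = 0 ∧ ψ C y = 1) →
      13 * Nat.card G ≤ 16 * (Mem ψ A).ncard) ∧
    ((∃ y, ψ J0 y = 0 ∧ ψ A y = 0 ∧ ψ B y = 1) → (∀ x, ψ J0 x = 0 → ψ B x = ψ C x) →
      14 * Nat.card G ≤ 16 * (Mem ψ A).ncard) := by
  have q := (hψ J0).quarter h2 (hψ A) (hz J0 hJ0) (hz A hA) nA
  have c2 := Set.ncard_add_ncard_compl {x | ψ J0 x = 0 ∧ ψ A x = 0}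
  have sub : {x | ψ J0 x = 0 ∧ ψ A x = 0}ᶜ ⊆ Mem ψ A := by
    intro x hx
    rcases z2_cases (ψ A x) with e | e
    · have e2 : ψ J0 x = 1 := by
        rcases z2_cases (ψ J0 x) with e3 | e3
        · exact absurd ⟨e3, e⟩ hx
        · exact e3
      exact Or.inr ⟨J0, e2, by rw [hAJ]; exact e2⟩
    · exact Or.inl e
  have c1 := Set.ncard_le_ncard sub (Set.toFinite _)
  -- a further part
  have more : ∀ X : Set G, (∀ x ∈ X, ψ J0 x = 0 ∧ ψ A x = 0 ∧ ψ B x = 1 ∧ ψ C x = 1) →
      ({x | ψ J0 x = 0 ∧ ψ A x = 0}ᶜ).ncard + X.ncard ≤ (Mem ψ A).ncard := by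
    intro X hX
    rw [← Set.ncard_union_eq ?_ (Set.toFinite _) (Set.toFinite _)]
    · refine Set.ncard_le_ncard (Set.union_subset sub fun x hx => ?_) (Set.toFinite _)
      exact Or.inr ⟨B, (hX x hx).2.2.1, by rw [hAB]; exact (hX x hx).2.2.2⟩
    · rw [Set.disjoint_left]
      exact fun x hx hx' => hx ⟨(hX x hx').1, (hX x hx').2.1⟩
  refine ⟨by omega, fun hy hy' => ?_, fun hy hBC => ?_⟩
  · obtain ⟨y, y1, y2, y3⟩ := hy
    obtain ⟨w, w1, w2, w3⟩ := hy'
    obtain ⟨x0, a1, a2, a3, a4⟩ : ∃ x0, ψ J0 x0 = 0 ∧ ψ A x0 = 0 ∧ ψ B x0 = 1 ∧ ψ C x0 = 1 := by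
      rcases z2_cases (ψ C y) with e | e
      · rcases z2_cases (ψ B w) with f | f
        · refine ⟨y * w, ?_, ?_, ?_, ?_⟩
          · rw [hψ, y1, w1, add_zero]
          · rw [hψ, y2, w2, add_zero]
          · rw [hψ, y3, f, add_zero]
          · rw [hψ, e, w3, zero_add]
        · exact ⟨w, w1, w2, f, w3⟩
      · exact ⟨y, y1, y2, y3, e⟩
    have e2 := (hψ J0).sixteenth (hψ A) (hψ B) (hψ C) x0
    rw [a1, a2, a3, a4] at e2
    have e3 := more {x | ψ J0 x = 0 ∧ ψ A x = 0 ∧ ψ B x = 1 ∧ ψ C x = 1} fun x hx => hx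
    omega
  · obtain ⟨y, y1, y2, y3⟩ := hy
    have e2 := (hψ J0).eighth (hψ A) (hψ B) y
    rw [y1, y2, y3] at e2
    have e3 := more {x | ψ J0 x = 0 ∧ ψ A x = 0 ∧ ψ B x = 1} fun x hx =>
      ⟨hx.1, hx.2.1, hx.2.2, by rw [← hBC x hx.1]; exact hx.2.2⟩
    omega

include h2 hψ hz in
/-- the average size of the spans -/
theorem sum_mem : 35 * Nat.card G ≤
    8 * ∑ J : Finset (Fin 3), if J.Nonempty then (Mem ψ J).ncard else 0 := by
  classical
  by_cases hgood : ∀ J : Finset (Fin 3), J.Nonempty → ∃ J' : Finset (Fin 3), J'.Nonempty ∧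
      (symmDiff J J').Nonempty ∧ ψ J' ≠ ψ J ∧ ψ (symmDiff J J') ≠ ψ J
  · have e1 : ∀ J : Finset (Fin 3), (if J.Nonempty then 5 * Nat.card G else 0) ≤
        8 * (if J.Nonempty then (Mem ψ J).ncard else 0) := by
      intro J
      by_cases hJ : J.Nonempty
      · rw [if_pos hJ, if_pos hJ]
        obtain ⟨J', a1, a2, a3, a4⟩ := hgood J hJ
        exact mem_good ψ hψ z hz hJ a1 a2 a3 a4
      · rw [if_neg hJ, if_neg hJ]
    have e2 := Finset.sum_le_sum fun J (_ : J ∈ (Finset.univ : Finset (Finset (Fin 3)))) => e1 J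
    rw [← Finset.mul_sum, ← Finset.sum_filter, Finset.sum_const, smul_eq_mul] at e2
    have e3 : ((Finset.univ : Finset (Finset (Fin 3))).filter fun J => J.Nonempty).card = 7 := by
      decide
    rw [e3] at e2
    omega
  · push Not at hgood
    obtain ⟨J0, hJ0, hbad⟩ := hgood
    set T : Finset (Fin 3) := Finset.univ.filter fun j => ψ J0 (z j) ≠ 0 with hT
    have val : ∀ J : Finset (Fin 3), ψ J0 (∏ j ∈ J, z j) = ((T ∩ J).card : ZMod 2) := by
      intro J
      rw [(hψ J0).prod z J, Finset.inter_comm]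
    have o0 : Odd (T ∩ J0).card := by
      rw [← odd_iff, ← val]
      exact hz J0 hJ0
    have hTne : T.Nonempty := by
      rw [Finset.nonempty_iff_ne_empty]
      intro e
      rw [e] at o0
      simp at o0
    have ne_of_odd : ∀ J : Finset (Fin 3), Odd (T ∩ J).card → J.Nonempty := by
      intro J o
      rw [Finset.nonempty_iff_ne_empty]
      intro e
      rw [e] at o
      simp at o
    -- the functions on the block coincide
    have blk : ∀ J : Finset (Fin 3), Odd (T ∩ J).card → ψ J = ψ J0 := by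
      intro J o
      by_cases hJJ : symmDiff J0 J = ∅
      · rw [← symmDiff_eq_bot.1 hJJ]
      · by_contra hne
        have h5 := hbad J (ne_of_odd J o) (Finset.nonempty_iff_ne_empty.2 hJJ) hne
        have h6 : ψ J0 (∏ j ∈ symmDiff J0 J, z j) = 1 := by
          rw [← h5]
          exact hz _ (Finset.nonempty_iff_ne_empty.2 hJJ)
        rw [val, odd_iff, Nat.odd_iff, card_inter_symmDiff] at h6
        rw [Nat.odd_iff] at o o0
        omega
    obtain ⟨A, B, C, hA, hB, hC, nAB, nAC, nBC, eA, eB, eC, sC, sA, sB⟩ := even_three T hTne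
    have far : ∀ J : Finset (Fin 3), J.Nonempty → Even (T ∩ J).card → ψ J ≠ ψ J0 := by
      intro J hJ ev e
      have e2 : Odd (T ∩ J).card := by
        rw [← odd_iff, ← val, ← e]
        exact hz J hJ
      exact (Nat.not_even_iff_odd.2 e2) ev
    have nxt : ∀ J : Finset (Fin 3), Even (T ∩ J).card → ψ (symmDiff J J0) = ψ J0 := by
      intro J ev
      apply blk
      rw [Nat.odd_iff, card_inter_symmDiff]
      rw [Nat.odd_iff] at o0
      rw [Nat.even_iff] at ev
      omega
    have zero : ∀ J : Finset (Fin 3), Even (T ∩ J).card → ψ J0 (∏ j ∈ J, z j) = 0 := by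
      intro J ev
      rw [val]
      exact (ZMod.natCast_eq_zero_iff_even).2 ev
    obtain ⟨a12, a13, a14⟩ := mem_even h2 ψ hψ z hz (B := B) (C := C) hJ0 hA sC (nxt A eA)
      (far A hA eA)
    obtain ⟨b12, b13, b14⟩ := mem_even h2 ψ hψ z hz (B := C) (C := A) hJ0 hB sA (nxt B eB)
      (far B hB eB)
    obtain ⟨c12, c13, c14⟩ := mem_even h2 ψ hψ z hz (B := A) (C := B) hJ0 hC sB (nxt C eC)
      (far C hC eC)
    -- existence of separating elements
    have sep : ∀ X Y : Finset (Fin 3), Y.Nonempty → Even (T ∩ Y).card →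
        (∃ x, ψ J0 x = 0 ∧ ψ X x ≠ ψ Y x) → ∃ y, ψ J0 y = 0 ∧ ψ X y = 0 ∧ ψ Y y = 1 := by
      rintro X Y hY ev ⟨x, x1, x2⟩
      exact (hψ J0).sepF (hψ X) (hψ Y) x1 x2 (zero Y ev) (hz Y hY)
    have three : 38 * Nat.card G ≤ 16 * (Mem ψ A).ncard + 16 * (Mem ψ B).ncard +
        16 * (Mem ψ C).ncard := by
      by_cases dBC : ∃ x, ψ J0 x = 0 ∧ ψ B x ≠ ψ C x
      · have dCB : ∃ x, ψ J0 x = 0 ∧ ψ C x ≠ ψ B x := by
          obtain ⟨x, x1, x2⟩ := dBC
          exact ⟨x, x1, Ne.symm x2⟩
        by_cases dCA : ∃ x, ψ J0 x = 0 ∧ ψ C x ≠ ψ A x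
        · have dAC : ∃ x, ψ J0 x = 0 ∧ ψ A x ≠ ψ C x := by
            obtain ⟨x, x1, x2⟩ := dCA
            exact ⟨x, x1, Ne.symm x2⟩
          by_cases dAB : ∃ x, ψ J0 x = 0 ∧ ψ A x ≠ ψ B x
          · have dBA : ∃ x, ψ J0 x = 0 ∧ ψ B x ≠ ψ A x := by
              obtain ⟨x, x1, x2⟩ := dAB
              exact ⟨x, x1, Ne.symm x2⟩
            have r1 := a13 (sep A B hB eB dAB) (sep A C hC eC dAC)
            have r2 := b13 (sep B C hC eC dBC) (sep B A hA eA dBA)
            have r3 := c13 (sep C A hA eA dCA) (sep C B hB eB dCB)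
            omega
          · push Not at dAB
            have := c14 (sep C A hA eA dCA) dAB
            omega
        · push Not at dCA
          have dBC' : ∃ x, ψ J0 x = 0 ∧ ψ B x ≠ ψ C x := dBC
          have := b14 (sep B C hC eC dBC') dCA
          omega
      · push Not at dBC
        have dAB : ∃ x, ψ J0 x = 0 ∧ ψ A x ≠ ψ B x := by
          by_contra hc
          push Not at hc
          -- all three coincide on the kernel
          have e1 : ψ A (∏ j ∈ C, z j) = 1 := by
            rw [hc _ (zero C eC), dBC _ (zero C eC)]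
            exact hz C hC
          have e2 : ψ A (∏ j ∈ B, z j) = 1 := by
            rw [hc _ (zero B eB)]
            exact hz B hB
          have e3 : ψ A (∏ j ∈ A, z j) = 1 := hz A hA
          rw [(hψ A).prod] at e1 e2 e3
          rw [odd_iff, Nat.odd_iff, Finset.inter_comm] at e1 e2 e3
          rw [← sC, card_inter_symmDiff] at e1
          omega
        have := a14 (sep A B hB eB dAB) dBC
        omega
    have e1 : ∀ J : Finset (Fin 3), Nat.card G * (if Odd (T ∩ J).card then 8 else 0) +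
        (if J = A then 16 * (Mem ψ A).ncard else 0) + (if J = B then 16 * (Mem ψ B).ncard else 0) +
        (if J = C then 16 * (Mem ψ C).ncard else 0) ≤
        16 * (if J.Nonempty then (Mem ψ J).ncard else 0) := by
      intro J
      by_cases o : Odd (T ∩ J).card
      · have nA : J ≠ A := by
          rintro rfl
          exact (Nat.not_even_iff_odd.2 o) eA
        have nB : J ≠ B := by
          rintro rfl
          exact (Nat.not_even_iff_odd.2 o) eB
        have nC : J ≠ C := by
          rintro rfl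
          exact (Nat.not_even_iff_odd.2 o) eC
        rw [if_pos o, if_neg nA, if_neg nB, if_neg nC, if_pos (ne_of_odd J o)]
        have := mem_half ψ hψ z hz (ne_of_odd J o)
        omega
      · rw [if_neg o]
        by_cases nA : J = A
        · subst nA
          rw [if_pos rfl, if_neg nAB, if_neg nAC, if_pos hA]
          omega
        · by_cases nB : J = B
          · subst nB
            rw [if_neg nA, if_pos rfl, if_neg nBC, if_pos hB]
            omega
          · by_cases nC : J = C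
            · subst nC
              rw [if_neg nA, if_neg nB, if_pos rfl, if_pos hC]
              omega
            · rw [if_neg nA, if_neg nB, if_neg nC]
              omega
    have e2 := Finset.sum_le_sum fun J (_ : J ∈ (Finset.univ : Finset (Finset (Fin 3)))) => e1 J
    rw [Finset.sum_add_distrib, Finset.sum_add_distrib, Finset.sum_add_distrib, ← Finset.mul_sum,
      ← Finset.mul_sum, odd_count T hTne, Finset.sum_ite_eq', Finset.sum_ite_eq',
      Finset.sum_ite_eq', if_pos (Finset.mem_univ _), if_pos (Finset.mem_univ _),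
      if_pos (Finset.mem_univ _)] at e2
    omega

/-- the elements on which at most one of the functions is nonzero -/
def Thin (ψ : Finset (Fin 3) → G → ZMod 2) : Set G :=
  {x | ∀ J J' : Finset (Fin 3), J.Nonempty → J'.Nonempty → ψ J x = 1 → ψ J' x = 1 → J = J'}

omit [Finite G] in
/-- an element with three nonzero values moves `Thin` away from itself -/
lemma thin_move (hψ : ∀ J, Ch (ψ J)) {A B C : Finset (Fin 3)} (hA : A.Nonempty)
    (hB : B.Nonempty) (hC : C.Nonempty) (hAB : A ≠ B) (hAC : A ≠ C) (hBC : B ≠ C) {y : G}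
    (yA : ψ A y = 1) (yB : ψ B y = 1) (yC : ψ C y = 1) : ∀ x ∈ Thin ψ, x * y ∉ Thin ψ := by
  intro x hx hxy
  have fl : ∀ D, ψ D y = 1 → ψ D x = 0 → ψ D (x * y) = 1 := by
    intro D h1 h3
    rw [hψ, h1, h3, zero_add]
  rcases z2_cases (ψ A x) with a | a
  · rcases z2_cases (ψ B x) with b | b
    · exact hAB (hxy A B hA hB (fl A yA a) (fl B yB b))
    · rcases z2_cases (ψ C x) with c | c
      · exact hAC (hxy A C hA hC (fl A yA a) (fl C yC c))
      · exact hBC (hx B C hB hC b c)
  · rcases z2_cases (ψ B x) with b | b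
    · rcases z2_cases (ψ C x) with c | c
      · exact hBC (hxy B C hB hC (fl B yB b) (fl C yC c))
      · exact hAC (hx A C hA hC a c)
    · exact hAB (hx A B hA hB a b)

include h2 hψ hz in
/-- at most a quarter of all elements are thin -/
theorem thin_quarter : 4 * (Thin ψ).ncard ≤ Nat.card G := by
  classical
  -- the indices of the unit vectors
  let K : Finset (Fin 3) → Prop := fun J => ∃ x, ψ J x = 1 ∧
    ∀ J' : Finset (Fin 3), J'.Nonempty → J' ≠ J → ψ J' x = 0
  have vanish : ∀ J : Finset (Fin 3), J.Nonempty → ¬ K J → ∀ x ∈ Thin ψ, ψ J x = 0 := by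
    intro J hJ hK x hx
    rcases z2_cases (ψ J x) with e | e
    · exact e
    · exfalso
      apply hK
      refine ⟨x, e, fun J' hJ' hne => ?_⟩
      rcases z2_cases (ψ J' x) with e' | e'
      · exact e'
      · exact absurd (hx J' J hJ' hJ e' e) hne
  by_cases ha : ∃ J J' : Finset (Fin 3), J.Nonempty ∧ J'.Nonempty ∧ ¬ K J ∧ ¬ K J' ∧ ψ J' ≠ ψ J
  · obtain ⟨J, J', hJ, hJ', k1, k2, hne⟩ := ha
    have q := (hψ J).quarter h2 (hψ J') (hz J hJ) (hz J' hJ') hne
    have sub : Thin ψ ⊆ {x | ψ J x = 0 ∧ ψ J' x = 0} := fun x hx =>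
      ⟨vanish J hJ k1 x hx, vanish J' hJ' k2 x hx⟩
    have := Set.ncard_le_ncard sub (Set.toFinite _)
    omega
  push Not at ha
  -- three unit vectors on a line and an element `y'`
  have tri : ∀ T : Finset (Fin 3), T.Nonempty → ∃ A B C : Finset (Fin 3), A.Nonempty ∧
      B.Nonempty ∧ C.Nonempty ∧ A ≠ B ∧ A ≠ C ∧ B ≠ C ∧ Even (T ∩ A).card ∧
      Even (T ∩ B).card ∧ Even (T ∩ C).card := by
    decide
  have unit3 : ∀ A B C : Finset (Fin 3), A.Nonempty → B.Nonempty → C.Nonempty → A ≠ B →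
      A ≠ C → B ≠ C → K A → K B → K C → ∃ y, ψ A y = 1 ∧ ψ B y = 1 ∧ ψ C y = 1 ∧
      ∀ J : Finset (Fin 3), J.Nonempty → J ≠ A → J ≠ B → J ≠ C → ψ J y = 0 := by
    rintro A B C hA hB hC hAB hAC hBC ⟨xA, a1, a2⟩ ⟨xB, b1, b2⟩ ⟨xC, c1, c2⟩
    refine ⟨xA * xB * xC, ?_, ?_, ?_, fun J hJ nA nB nC => ?_⟩
    · rw [hψ, hψ, a1, b2 A hA hAB, c2 A hA hAC]
      decide
    · rw [hψ, hψ, a2 B hB (Ne.symm hAB), b1, c2 B hB hBC]
      decide
    · rw [hψ, hψ, a2 C hC (Ne.symm hAC), b2 C hC (Ne.symm hBC), c1]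
      decide
    · rw [hψ, hψ, a2 J hJ nA, b2 J hJ nB, c2 J hJ nC]
      decide
  by_cases hall : ∀ J : Finset (Fin 3), J.Nonempty → K J
  · -- all seven unit vectors
    obtain ⟨y, y1, y2, y3, y4⟩ := unit3 {0} {1} {2} (by decide) (by decide) (by decide)
      (by decide) (by decide) (by decide) (hall _ (by decide)) (hall _ (by decide))
      (hall _ (by decide))
    obtain ⟨w, w1, w2, w3, w4⟩ := unit3 {0, 1} {0, 2} {1, 2} (by decide) (by decide) (by decide)
      (by decide) (by decide) (by decide) (hall _ (by decide)) (hall _ (by decide))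
      (hall _ (by decide))
    refine four_disj h2 _ y w ?_ ?_ ?_
    · exact thin_move ψ hψ (A := {0}) (B := {1}) (C := {2}) (by decide) (by decide) (by decide)
        (by decide) (by decide) (by decide) y1 y2 y3
    · exact thin_move ψ hψ (A := {0, 1}) (B := {0, 2}) (C := {1, 2}) (by decide) (by decide)
        (by decide) (by decide) (by decide) (by decide) w1 w2 w3
    · refine thin_move ψ hψ (A := {0}) (B := {1}) (C := {2}) (by decide) (by decide)
        (by decide) (by decide) (by decide) (by decide) ?_ ?_ ?_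
      · rw [hψ, y1, w4 {0} (by decide) (by decide) (by decide) (by decide), add_zero]
      · rw [hψ, y2, w4 {1} (by decide) (by decide) (by decide) (by decide), add_zero]
      · rw [hψ, y3, w4 {2} (by decide) (by decide) (by decide) (by decide), add_zero]
  · push Not at hall
    obtain ⟨J0, hJ0, k0⟩ := hall
    set T : Finset (Fin 3) := Finset.univ.filter fun j => ψ J0 (z j) ≠ 0 with hT
    have val : ∀ J : Finset (Fin 3), ψ J0 (∏ j ∈ J, z j) = ((T ∩ J).card : ZMod 2) := by
      intro J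
      rw [(hψ J0).prod z J, Finset.inter_comm]
    have o0 : Odd (T ∩ J0).card := by
      rw [← odd_iff, ← val]
      exact hz J0 hJ0
    have hTne : T.Nonempty := by
      rw [Finset.nonempty_iff_ne_empty]
      intro e
      rw [e] at o0
      simp at o0
    have evK : ∀ J : Finset (Fin 3), J.Nonempty → Even (T ∩ J).card → K J := by
      intro J hJ ev
      by_contra hk
      have e1 : ψ J = ψ J0 := ha J0 J hJ0 hJ k0 hk
      have e2 : Odd (T ∩ J).card := by
        rw [← odd_iff, ← val, ← e1]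
        exact hz J hJ
      exact (Nat.not_even_iff_odd.2 e2) ev
    obtain ⟨A, B, C, hA, hB, hC, hAB, hAC, hBC, eA, eB, eC⟩ := tri T hTne
    obtain ⟨y, y1, y2, y3, y4⟩ := unit3 A B C hA hB hC hAB hAC hBC (evK A hA eA) (evK B hB eB)
      (evK C hC eC)
    have nJ : ∀ D : Finset (Fin 3), Even (T ∩ D).card → J0 ≠ D := by
      rintro D hD rfl
      exact (Nat.not_even_iff_odd.2 o0) hD
    have y0 : ψ J0 y = 0 := y4 J0 hJ0 (nJ A eA) (nJ B eB) (nJ C eC)
    have v0 := vanish J0 hJ0 k0
    have w0 : ψ J0 (∏ j ∈ J0, z j) = 1 := hz J0 hJ0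
    refine four_disj h2 _ y (∏ j ∈ J0, z j) ?_ (fun x hx hc => ?_) (fun x hx hc => ?_)
    · exact thin_move ψ hψ hA hB hC hAB hAC hBC y1 y2 y3
    · have := v0 _ hc
      rw [hψ, v0 x hx, w0] at this
      exact absurd this (by decide)
    · have := v0 _ hc
      rw [hψ, hψ, v0 x hx, y0, w0] at this
      exact absurd this (by decide)

end

end Pool.Agent.J6H71.ET
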