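import Pool.Agent.J6H71.ET.Cnt2

/-! The second slots of a minimal relation: the average of the indices over `H`. -/

set_option autoImplicit false

namespace Pool.Agent.J6H71.ET

open Pool.Agent.H315R3.ETC Pool.Agent.TH673.VG Pool.Agent.R19.QS Pool.Agent.HP778.QS

section
variable {S : QData} {H : Subgroup S.G} {M : Type*} [AddCommGroup M] {f : S.G → S.G → M}

lemma Bi.splitA' (hf : Bi H f) {n : ℕ} (g z : Fin n → S.G) (hg : ∀ i, g i ∈ H)
    (I : Finset (Fin n)) (i0 : Fin n) :
    ∑ i, f (g i) (z i) = f (∏ i ∈ I, g i) (z i0) + ∑ i, f (g i) (tw z I i0 i) := by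
  have e1 : ∀ i, f (g i) (tw z I i0 i) = f (g i) (z i) + if i ∈ I then f (g i) (z i0) else 0 := by
    intro i
    unfold tw
    by_cases hi : i ∈ I
    · rw [if_pos hi, if_pos hi, hf.right _ (hg i)]
    · rw [if_neg hi, if_neg hi, mul_one, add_zero]
  rw [hf.prod I g hg, Finset.sum_congr rfl fun i _ => e1 i, Finset.sum_add_distrib,
    Finset.sum_ite_mem, Finset.univ_inter, add_comm, add_assoc, hf.two, add_zero]

lemma Bi.splitB' (hf : Bi H f) {n : ℕ} (z : Fin n → S.G) (h2 : ∀ x : S.G, x * x = 1)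
    (I T : Finset (Fin n)) (i0 : Fin n) (x : S.G) (hx : x ∈ H)
    (hT : Odd (T ∩ I).card) (h0 : f x (∏ i ∈ T, z i) = 0) :
    f x (z i0) = ∑ i, f (if i ∈ T then x else 1) (tw z I i0 i) := by
  have e1 : ∀ i, f (if i ∈ T then x else 1) (tw z I i0 i) =
      if i ∈ T then f x (tw z I i0 i) else 0 := by
    intro i
    by_cases hi : i ∈ T
    · rw [if_pos hi, if_pos hi]
    · rw [if_neg hi, if_neg hi, hf.one_left]
  have e2 : ∏ i ∈ T, tw z I i0 i = (∏ i ∈ T, z i) * z i0 := by
    unfold tw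
    rw [Finset.prod_mul_distrib, Finset.prod_ite_mem, Finset.prod_const]
    obtain ⟨m, hm⟩ := hT
    rw [hm, pow_add, pow_mul, pow_two, h2, one_pow, one_mul, pow_one]
  rw [Finset.sum_congr rfl fun i _ => e1 i, Finset.sum_ite_mem, Finset.univ_inter,
    ← hf.prod_right T _ hx, e2, hf.right _ hx, h0, zero_add]

end

section
variable {S : QData} (h : IsQuat S) {A : Type*} [AddCommGroup A]

/-- the elements `x` of `H` such that `x ⊗ u` is expressed through the slots `z i` -/
def XX (h : IsQuat S) {H : Subgroup S.G} {β : S.G → S.G → A} {χ : S.G → S.G → ZMod 2}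
    (hβ : Bi H β) (hχ : Bi H χ) (u : S.G) {n : ℕ} (z : Fin n → S.G) : Subgroup S.G where
  carrier := {x | x ∈ H ∧ ∃ w : Fin n → S.G, (∀ i, w i ∈ H) ∧ β x u = ∑ i, β (w i) (z i) ∧
    χ x u = ∑ i, χ (w i) (z i)}
  one_mem' := by
    refine ⟨H.one_mem, fun _ => 1, fun _ => H.one_mem, ?_, ?_⟩
    · rw [hβ.one_left, Finset.sum_congr rfl fun i _ => hβ.one_left (z i), Finset.sum_const_zero]
    · rw [hχ.one_left, Finset.sum_congr rfl fun i _ => hχ.one_left (z i), Finset.sum_const_zero]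
  mul_mem' := by
    rintro x y ⟨hx, w, hw, h1, h3⟩ ⟨hy, w', hw', h4, h5⟩
    refine ⟨H.mul_mem hx hy, fun i => w i * w' i, fun i => H.mul_mem (hw i) (hw' i), ?_, ?_⟩
    · rw [hβ.left _ hx _ hy, h1, h4, ← Finset.sum_add_distrib]
      exact Finset.sum_congr rfl fun i _ => (hβ.left _ (hw i) _ (hw' i) _).symm
    · rw [hχ.left _ hx _ hy, h3, h5, ← Finset.sum_add_distrib]
      exact Finset.sum_congr rfl fun i _ => (hχ.left _ (hw i) _ (hw' i) _).symm
  inv_mem' := by
    intro x hx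
    have : x⁻¹ = x := inv_eq_of_mul_eq_one_right (h.exp2 x)
    rw [this]
    exact hx

lemma mem_cc' {X : Type} {c : X → S.G} {a : Fin 3 → S.G} {ψ : Finset (Fin 3) → X → ZMod 2}
    (hodd : ∀ J, ∀ x, c x ∈ Odds S a J → ψ J x = 0) {J : Finset (Fin 3)} {x : X}
    (hx : ψ J x = 1 ∨ ∃ J' : Finset (Fin 3), ψ J' x = 1 ∧ ψ (symmDiff J J') x = 1)
    (T : Finset (Fin 3)) (hT : S.q (∏ j ∈ T, a j) (c x) = S.zero) :
    Even (T ∩ J).card := by
  have key : ∀ J' : Finset (Fin 3), ψ J' x = 1 → Even (T ∩ J').card := by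
    intro J' h1
    by_contra h3
    have h4 := hodd J' x ⟨T, Nat.not_even_iff_odd.1 h3, hT⟩
    rw [h4] at h1
    exact absurd h1 (by decide)
  rcases hx with hx | ⟨J', h1, h3⟩
  · exact key J hx
  · have e1 := key _ h1
    have e2 := key _ h3
    have e3 := card_inter_symmDiff T J J'
    rw [Nat.even_iff] at e1 e2 ⊢
    omega

lemma sum_cc' {X : Type} [Fintype X] {c : X → S.G} {a : Fin 3 → S.G}
    {ψ : Finset (Fin 3) → X → ZMod 2} (hodd : ∀ J, ∀ x, c x ∈ Odds S a J → ψ J x = 0) :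
    (∑ J : Finset (Fin 3), if J.Nonempty then ({x | ψ J x = 1 ∨
      ∃ J' : Finset (Fin 3), ψ J' x = 1 ∧ ψ (symmDiff J J') x = 1} : Set X).ncard else 0) ≤
      ∑ x : X, cc S a (c x) := by
  classical
  have e1 : ∀ x : X, cc S a (c x) = ∑ J : Finset (Fin 3), if J.Nonempty ∧
      ∀ T : Finset (Fin 3), S.q (∏ j ∈ T, a j) (c x) = S.zero → Even (T ∩ J).card then 1
      else 0 := by
    intro x
    exact Finset.card_filter _ _
  rw [Finset.sum_congr rfl fun x _ => e1 x, Finset.sum_comm]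
  refine Finset.sum_le_sum fun J _ => ?_
  by_cases hJ : J.Nonempty
  · rw [if_pos hJ, ← sum_ind]
    refine Finset.sum_le_sum fun x _ => ?_
    by_cases hx : x ∈ ({x | ψ J x = 1 ∨
      ∃ J' : Finset (Fin 3), ψ J' x = 1 ∧ ψ (symmDiff J J') x = 1} : Set X)
    · rw [if_pos hx, if_pos ⟨hJ, fun T hT => mem_cc' hodd hx T hT⟩]
    · rw [if_neg hx]
      exact Nat.zero_le _
  · rw [if_neg hJ]
    exact Nat.zero_le _

end

section
variable {S : QData} (h : IsQuat S) {A : Type*} [AddCommGroup A] (hA : ∀ t : A, t + t = 0)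
  (β : S.G → S.G → A) (hmul : ∀ a b c, β a (b * c) = β a b + β a c)
  (hiff : ∀ a b c d, β a b = β c d ↔ S.q a b = S.q c d)

include h hA hmul hiff in
/-- the characters of the second slots of a minimal relation -/
lemma exists_omega {H : Subgroup S.G} {χ : S.G → S.G → ZMod 2} (hχ : Sy S H χ)
    {n : ℕ} (hn : Rel β H χ (n + 1)) (hmin : ¬ Rel β H χ n) :
    ∃ a z : Fin 3 → S.G, (∀ j, a j ∈ H) ∧ ∃ ψ : Finset (Fin 3) → H → ZMod 2,
      (∀ J, Ch (ψ J)) ∧ (∀ J : Finset (Fin 3), J.Nonempty → ∀ y : H, (y : S.G) = ∏ j ∈ J, a j →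
        ψ J y = 1) ∧
      ∀ J, ∀ x : H, (x : S.G) ∈ Odds S z J → ψ J x = 0 := by
  classical
  have h3 := rel_three h hA β hmul hiff hχ hn
  obtain ⟨g, z, hg, s1, s2⟩ := hn
  have hbβ := bi_beta h hA β hmul hiff H
  have hbχ := bi_chi hχ
  let ι : Fin 3 ↪ Fin (n + 1) := Fin.castLEEmb h3
  refine ⟨fun j => g (ι j), fun j => z (ι j), fun j => hg _, ?_⟩
  suffices hs : ∀ J : Finset (Fin 3), ∃ f : H → ZMod 2, Ch f ∧
      (J.Nonempty → ∀ y : H, (y : S.G) = ∏ j ∈ J, g (ι j) → f y = 1) ∧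
      ∀ x : H, (x : S.G) ∈ Odds S (fun j => z (ι j)) J → f x = 0 by
    choose ψ p1 p2 p3 using hs
    exact ⟨ψ, p1, p2, p3⟩
  intro J
  by_cases hJ : J.Nonempty
  · obtain ⟨j0, hj0⟩ := hJ
    set I : Finset (Fin (n + 1)) := J.map ι with hI
    set i0 : Fin (n + 1) := ι j0 with hi0
    have hi0I : i0 ∈ I := Finset.mem_map_of_mem ι hj0
    set X := XX h hbβ hbχ (z i0) (tw z I i0) with hX
    -- the subgroup is proper
    have hne : ∏ i ∈ I, g i ∉ X := by
      rintro ⟨-, w, hw, h1, h4⟩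
      have gi0 : tw z I i0 i0 = 1 := by
        unfold tw
        rw [if_pos hi0I, h.exp2]
      have f1 : ∑ i, β (w i * g i) (tw z I i0 i) = 0 := by
        rw [← s1, hbβ.splitA' g z hg I i0, h1, ← Finset.sum_add_distrib]
        exact Finset.sum_congr rfl fun i _ => hbβ.left _ (hw i) _ (hg i) _
      have f2 : ∑ i, χ (w i * g i) (tw z I i0 i) ≠ 0 := by
        intro e
        apply s2
        rw [← e, hbχ.splitA' g z hg I i0, h4, ← Finset.sum_add_distrib]
        exact Finset.sum_congr rfl fun i _ => (hbχ.left _ (hw i) _ (hg i) _).symm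
      rw [Fin.sum_univ_succAbove _ i0, gi0] at f1 f2
      rw [hbβ.one_right (H.mul_mem (hw i0) (hg i0)), zero_add] at f1
      rw [hbχ.one_right (H.mul_mem (hw i0) (hg i0)), zero_add] at f2
      exact hmin ⟨_, _, fun j => H.mul_mem (hw _) (hg _), f1, f2⟩
    have hsub : ∀ x ∈ Odds S (fun j => z (ι j)) J, x ∈ H → x ∈ X := by
      rintro x ⟨T, hT, h0⟩ hx
      have k1 : ∏ i ∈ T.map ι, z i = ∏ j ∈ T, z (ι j) := Finset.prod_map _ _ _
      have k2 : Odd (T.map ι ∩ I).card := by
        rw [hI, ← Finset.map_inter, Finset.card_map]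
        exact hT
      rw [← k1, h.qs2] at h0
      refine ⟨hx, fun i => if i ∈ T.map ι then x else 1, fun i => ?_,
        hbβ.splitB' z h.exp2 I (T.map ι) i0 x hx k2 (beta_zero h β hmul hiff h0),
        hbχ.splitB' z h.exp2 I (T.map ι) i0 x hx k2 (hχ.2.2 _ hx _ h0)⟩
      show (if i ∈ T.map ι then x else 1) ∈ H
      by_cases hi : i ∈ T.map ι
      · rw [if_pos hi]
        exact hx
      · rw [if_neg hi]
        exact H.one_mem
    obtain ⟨p, hp, hp1⟩ := Pool.Agent.TH188.ET.exists_char (A := Additive S.G)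
      (Subgroup.toAddSubgroup X) (fun x => by
        have : x + x = 0 := h.exp2 x.toMul
        rw [this]
        exact zero_mem _) (Additive.ofMul (∏ i ∈ I, g i)) (fun e => hne e)
    refine ⟨fun x => p (Additive.ofMul (x : S.G)), fun x y => ?_, fun _ y hy => ?_,
      fun x hx => ?_⟩
    · show p (Additive.ofMul ((x * y : H) : S.G)) = p (Additive.ofMul (x : S.G)) +
        p (Additive.ofMul (y : S.G))
      rw [Subgroup.coe_mul, ofMul_mul, map_add]
    · have k1 : ∏ i ∈ I, g i = ∏ j ∈ J, g (ι j) := Finset.prod_map _ _ _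
      rw [k1, ← hy] at hp1
      exact (z2_cases _).resolve_left hp1
    · exact hp _ (hsub x hx x.2)
  · refine ⟨fun _ => 0, fun x y => (add_zero 0).symm, fun e => absurd e hJ, fun _ _ => rfl⟩

include h hA hmul hiff in
/-- a subgroup to which symbols do not extend -/
theorem sum_index [Finite S.G] {H : Subgroup S.G} [Fintype H] (hH : ∃ a, a ∉ H)
    (hno : ¬ CanExt S H) :
    43 * Nat.card H ≤ 8 * ∑ x : H, min 8 (D h (x : S.G)).index := by
  classical
  by_contra hcon
  apply hno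
  refine canExt_of_fac h β hmul hiff hH fun χ hχ => ?_
  by_contra hl
  have key : ∀ n, ¬ Rel β H χ n := by
    intro n
    induction n with
    | zero =>
      intro hn
      have := rel_three h hA β hmul hiff hχ hn
      omega
    | succ n ih =>
      intro hn
      obtain ⟨a, z, ha, ψ, p1, p2, p3⟩ := exists_omega h hA β hmul hiff hχ hn ih
      apply hcon
      have h2' : ∀ x : H, x * x = 1 := fun x => Subtype.ext (h.exp2 x.1)
      have hval : ∀ J : Finset (Fin 3), J.Nonempty →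
          ψ J (∏ j ∈ J, (⟨a j, ha j⟩ : H)) = 1 := by
        intro J hJ
        refine p2 J hJ _ ?_
        have := map_prod H.subtype (fun j => (⟨a j, ha j⟩ : H)) J
        exact this
      have s1 := sum_mem h2' ψ p1 (fun j => ⟨a j, ha j⟩) hval
      have s2 := sum_cc' (c := fun x : H => (x : S.G)) p3
      have s3 : ∑ x : H, (cc S z (x : S.G) + 1) ≤ ∑ x : H, min 8 (D h (x : S.G)).index := by
        refine Finset.sum_le_sum fun x _ => ?_
        have c1 := cc_values h (H := Subgroup.closure (Set.range z)) (a := z)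
          (fun j => Subgroup.subset_closure (Set.mem_range_self j)) (x : S.G)
        have c2 := relIndex_le (D h (x : S.G)) (Subgroup.closure (Set.range z))
        omega
      rw [Finset.sum_add_distrib, Finset.sum_const, smul_eq_mul, Finset.card_univ,
        ← Nat.card_eq_fintype_card, mul_one] at s3
      have s4 : (∑ J : Finset (Fin 3), if J.Nonempty then (Mem ψ J).ncard else 0) ≤
          ∑ x : H, cc S z (x : S.G) := s2
      omega
  exact hl (fac_of_no_rel hA β hmul hχ key)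

end

end Pool.Agent.J6H71.ET
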