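import Pool.Agent.J6H71.ET.Lines

/-! If symbols do not extend, at most three eighths of all elements have at most two values. -/

set_option autoImplicit false

namespace Pool.Agent.J6H71.ET

open Pool.Agent.H315R3.ETC Pool.Agent.TH673.VG Pool.Agent.R19.QS Pool.Agent.HP778.QS

/-- sums of indicator functions -/
lemma sum_ind {G : Type} [Fintype G] (X : Set G) [DecidablePred (· ∈ X)] :
    ∑ a : G, (if a ∈ X then 1 else 0) = X.ncard := by
  rw [Finset.sum_boole, ← Set.ncard_coe_finset]
  simp

section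
variable {G : Type} [CommGroup G] [Finite G] (h2 : ∀ x : G, x * x = 1)

include h2 in
lemma index_cases128 (W : Subgroup G) : W.index ≤ 64 ∨ 128 ≤ W.index := by
  have hp : IsPGroup 2 G := by
    intro x
    exact ⟨1, by rw [pow_one, pow_two, h2]⟩
  obtain ⟨n, hn⟩ := hp.index W
  rw [hn]
  by_cases hc : n ≤ 6
  · left
    calc 2 ^ n ≤ 2 ^ 6 := Nat.pow_le_pow_right (by norm_num) hc
      _ = 64 := by norm_num
  · right
    calc 128 = 2 ^ 7 := by norm_num
      _ ≤ 2 ^ n := Nat.pow_le_pow_right (by norm_num) (by omega)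

include h2 in
/-- a set of at most half of the elements whose complement has no products in itself -/
lemma mul_out (T : Set G) (hT : 2 * T.ncard ≤ Nat.card G)
    (hY : ∀ z z', z ∉ T → z' ∉ T → z * z' ∈ T) : ∀ x ∈ T, ∀ z, z ∉ T → x * z ∉ T := by
  intro x hx z hz hxz
  have e1 : (Tᶜ).ncard < T.ncard := by
    have e2 : (Tᶜ).ncard ≤ (T \ {x}).ncard := by
      refine Set.ncard_le_ncard_of_injOn (fun y => y * z) (fun y hy => ⟨hY y z hy hz, ?_⟩)
        (fun _ _ _ _ e => mul_right_cancel e) (Set.toFinite _)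
      intro e
      have e' : y * z = x := e
      apply hy
      rw [← e', mul_assoc, h2, mul_one] at hxz
      exact hxz
    have e3 := Set.ncard_sdiff_singleton_lt_of_mem hx (Set.toFinite _)
    omega
  have e2 := Set.ncard_add_ncard_compl T
  omega

include h2 in
/-- four translates -/
lemma four_translates (T : Set G) (z z' : G) (n : ℕ)
    (hp : ∀ w, w = z ∨ w = z' ∨ w = z * z' → {x : G | x ∈ T ∧ x * w ∈ T}.ncard ≤ n) :
    4 * T.ncard ≤ Nat.card G + 6 * n := by
  classical
  have := Fintype.ofFinite G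
  have tr : ∀ w : G, {u : G | u * w ∈ T}.ncard = T.ncard := by
    intro w
    apply le_antisymm
    · exact Set.ncard_le_ncard_of_injOn (fun u => u * w) (fun u hu => hu)
        (fun _ _ _ _ e => mul_right_cancel e) (Set.toFinite _)
    · refine Set.ncard_le_ncard_of_injOn (fun u => u * w) (fun u hu => ?_)
        (fun _ _ _ _ e => mul_right_cancel e) (Set.toFinite _)
      show u * w * w ∈ T
      rw [mul_assoc, h2, mul_one]
      exact hu
  have tr2 : ∀ v w t : G, v * t = w → (t = z ∨ t = z' ∨ t = z * z') →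
      {u : G | u * v ∈ T ∧ u * w ∈ T}.ncard ≤ n := by
    intro v w t e ht
    refine le_trans ?_ (hp t ht)
    refine Set.ncard_le_ncard_of_injOn (fun u => u * v) (fun u hu => ⟨hu.1, ?_⟩)
      (fun _ _ _ _ e => mul_right_cancel e) (Set.toFinite _)
    show u * v * t ∈ T
    rw [mul_assoc, e]
    exact hu.2
  have key : ∀ u : G, (if u ∈ T then 1 else 0) + (if u ∈ {u | u * z ∈ T} then 1 else 0) +
      (if u ∈ {u | u * z' ∈ T} then 1 else 0) + (if u ∈ {u | u * (z * z') ∈ T} then 1 else 0) ≤
      1 + (if u ∈ {u | u * 1 ∈ T ∧ u * z ∈ T} then 1 else 0) +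
      (if u ∈ {u | u * 1 ∈ T ∧ u * z' ∈ T} then 1 else 0) +
      (if u ∈ {u | u * 1 ∈ T ∧ u * (z * z') ∈ T} then 1 else 0) +
      (if u ∈ {u | u * z ∈ T ∧ u * z' ∈ T} then 1 else 0) +
      (if u ∈ {u | u * z ∈ T ∧ u * (z * z') ∈ T} then 1 else 0) +
      (if u ∈ {u | u * z' ∈ T ∧ u * (z * z') ∈ T} then 1 else 0) := by
    intro u
    simp only [Set.mem_ofPred_eq, mul_one]
    by_cases h1 : u ∈ T <;> by_cases h2 : u * z ∈ T <;> by_cases h3 : u * z' ∈ T <;>
      by_cases h4 : u * (z * z') ∈ T <;> simp [h1, h2, h3, h4]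
  have s1 := Finset.sum_le_sum fun a (_ : a ∈ (Finset.univ : Finset G)) => key a
  simp only [Finset.sum_add_distrib, sum_ind, Finset.sum_const, smul_eq_mul,
    Finset.card_univ, ← Nat.card_eq_fintype_card, mul_one] at s1
  have t1 := tr z
  have t2 := tr z'
  have t3 := tr (z * z')
  have p1 := tr2 1 z z (one_mul _) (Or.inl rfl)
  have p2 := tr2 1 z' z' (one_mul _) (Or.inr (Or.inl rfl))
  have p3 := tr2 1 (z * z') (z * z') (one_mul _) (Or.inr (Or.inr rfl))
  have p4 := tr2 z z' (z * z') (by rw [← mul_assoc, h2, one_mul]) (Or.inr (Or.inr rfl))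
  have p5 := tr2 z (z * z') z' rfl (Or.inr (Or.inl rfl))
  have p6 := tr2 z' (z * z') z (mul_comm _ _) (Or.inl rfl)
  simp only [mul_one] at p1 p2 p3
  omega

end

section
variable {S : QData} (h : IsQuat S) [Finite S.G]

include h in
/-- one cell -/
lemma cell {H : Subgroup S.G} {z u v : S.G} (hz : ¬ TwoOn S H z) (hu : u ∈ H) (hv : v ∈ H)
    (u0 : S.q z u ≠ S.zero) (v0 : S.q z v ≠ S.zero) (uv0 : S.q z (u * v) ≠ S.zero) :
    {x : S.G | TwoOn S H x ∧ TwoOn S H (x * z) ∧ S.q x u = S.zero ∧
      S.q (x * z) v = S.zero}.ncard ≤ Nat.card (Perp h H) := by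
  set X := {x : S.G | TwoOn S H x ∧ TwoOn S H (x * z) ∧ S.q x u = S.zero ∧
      S.q (x * z) v = S.zero} with hX
  by_cases hne : ∃ x, x ∈ X
  · obtain ⟨x0, hx0⟩ := hne
    have e : ((Perp h H : Subgroup S.G) : Set S.G).ncard = Nat.card (Perp h H) := rfl
    rw [← e]
    refine Set.ncard_le_ncard_of_injOn (fun x => x * x0) (fun x hx => ?_)
      (fun _ _ _ _ e => mul_right_cancel e) (Set.toFinite _)
    -- the values on the four classes
    have val : ∀ y ∈ X, S.q v y = S.q v z := by
      intro y hy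
      rw [h.qs3, h.qs2]
      exact hy.2.2.2
    have red : ∀ y ∈ X, ∀ k ∈ H, ∀ g0, g0 ∈ H → S.q z (k * g0) = S.zero →
        S.q y k = S.q y g0 := by
      intro y hy k hk g0 hg0 e
      rw [h.qs3]
      exact orth_of_two h hz hy.1 hy.2.1 (H.mul_mem hk hg0) e
    have same : ∀ k ∈ H, S.q x k = S.q x0 k := by
      intro k hk
      obtain ⟨g0, hg0, e⟩ := four_classes h hx0.1 hx0.2.1 hu hv u0 v0 uv0 hk
      have hg0H : g0 ∈ H := by
        rcases hg0 with rfl | rfl | rfl | rfl
        · exact H.one_mem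
        · exact hu
        · exact hv
        · exact H.mul_mem hu hv
      rw [red x hx k hk g0 hg0H e, red x0 hx0 k hk g0 hg0H e]
      rcases hg0 with rfl | rfl | rfl | rfl
      · rw [q_one h, q_one h]
      · rw [hx.2.2.1, hx0.2.2.1]
      · rw [h.qs2 x, h.qs2 x0, val x hx, val x0 hx0]
      · rw [q_shift h v hx.2.2.1, q_shift h v hx0.2.2.1, h.qs2 x, h.qs2 x0, val x hx, val x0 hx0]
    show x * x0 ∈ Perp h H
    rw [mem_perp]
    intro k hk
    rw [h.qs2, ← h.qs3, h.qs2 k x, h.qs2 k x0]
    exact same k hk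
  · push Not at hne
    have : X = ∅ := Set.eq_empty_iff_forall_notMem.2 hne
    rw [this, Set.ncard_empty]
    exact Nat.zero_le _

include h in
/-- an element with more than two values on `H` is in few ways a product of elements with at most
two values -/
lemma pair_bound {H : Subgroup S.G} {z : S.G} (hz : ¬ TwoOn S H z) :
    {x : S.G | x ∈ Tw S H ∧ x * z ∈ Tw S H}.ncard ≤ 6 * Nat.card (Perp h H) := by
  have hz' := hz
  rw [TwoOn] at hz'
  push Not at hz'
  obtain ⟨b, hb, c, hc, b0, c0, bc0⟩ := hz'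
  have hbc := H.mul_mem hb hc
  have e1 : b * (b * c) = c := by rw [← mul_assoc, h.exp2, one_mul]
  have e2 : c * (b * c) = b := by rw [mul_comm b c, ← mul_assoc, h.exp2, one_mul]
  have e3 : b * c * b = c := by rw [mul_comm]; exact e1
  have e4 : b * c * c = b := by rw [mul_comm]; exact e2
  let C : S.G → S.G → Set S.G := fun u v => {x : S.G | TwoOn S H x ∧ TwoOn S H (x * z) ∧
    S.q x u = S.zero ∧ S.q (x * z) v = S.zero}
  have c1 : (C b c).ncard ≤ Nat.card (Perp h H) := cell h hz hb hc b0 c0 bc0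
  have c2 : (C c b).ncard ≤ Nat.card (Perp h H) :=
    cell h hz hc hb c0 b0 (by rw [mul_comm]; exact bc0)
  have c3 : (C b (b * c)).ncard ≤ Nat.card (Perp h H) :=
    cell h hz hb hbc b0 bc0 (by rw [e1]; exact c0)
  have c4 : (C (b * c) b).ncard ≤ Nat.card (Perp h H) :=
    cell h hz hbc hb bc0 b0 (by rw [e3]; exact c0)
  have c5 : (C c (b * c)).ncard ≤ Nat.card (Perp h H) :=
    cell h hz hc hbc c0 bc0 (by rw [e2]; exact b0)
  have c6 : (C (b * c) c).ncard ≤ Nat.card (Perp h H) :=
    cell h hz hbc hc bc0 c0 (by rw [e4]; exact b0)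
  have hsub : {x : S.G | x ∈ Tw S H ∧ x * z ∈ Tw S H} ⊆
      ((C b c ∪ C c b) ∪ (C b (b * c) ∪ C (b * c) b)) ∪ (C c (b * c) ∪ C (b * c) c) := by
    rintro x ⟨hx, hxz⟩
    obtain ⟨ξ, x1, x2⟩ := exists_bit h hx
    obtain ⟨η, y1, y2⟩ := exists_bit h hxz
    have f1 : x * (x * z) = z := by rw [← mul_assoc, h.exp2, one_mul]
    have van : ∀ u : S.G, ξ u = 0 → η u = 0 → S.q z u = S.zero := by
      intro u h1 h2
      have := mul_left0 h ((x2 u).1 h1) ((y2 u).1 h2)
      rwa [f1] at this
    have n1 : ¬ (ξ b = 0 ∧ η b = 0) := fun e => b0 (van b e.1 e.2)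
    have n2 : ¬ (ξ c = 0 ∧ η c = 0) := fun e => c0 (van c e.1 e.2)
    have n3 : ¬ (ξ b + ξ c = 0 ∧ η b + η c = 0) := by
      rw [← x1 b hb c hc, ← y1 b hb c hc]
      exact fun e => bc0 (van _ e.1 e.2)
    have key : ∀ gb gc hb hc : ZMod 2, ¬ (gb = 0 ∧ hb = 0) → ¬ (gc = 0 ∧ hc = 0) →
        ¬ (gb + gc = 0 ∧ hb + hc = 0) → (gb = 0 ∧ hc = 0) ∨ (gc = 0 ∧ hb = 0) ∨
          (gb = 0 ∧ hb + hc = 0) ∨ (gb + gc = 0 ∧ hb = 0) ∨ (gc = 0 ∧ hb + hc = 0) ∨
          (gb + gc = 0 ∧ hc = 0) := by
      have z2 : ∀ x : ZMod 2, x = 0 ∨ x = 1 := by decide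
      intro gb gc hb hc
      rcases z2 gb with rfl | rfl <;> rcases z2 gc with rfl | rfl <;>
        rcases z2 hb with rfl | rfl <;> rcases z2 hc with rfl | rfl <;> decide
    have xbc : ξ (b * c) = ξ b + ξ c := x1 b hb c hc
    have ybc : η (b * c) = η b + η c := y1 b hb c hc
    rcases key (ξ b) (ξ c) (η b) (η c) n1 n2 n3 with e | e | e | e | e | e
    · exact Or.inl (Or.inl (Or.inl ⟨hx, hxz, (x2 b).1 e.1, (y2 c).1 e.2⟩))
    · exact Or.inl (Or.inl (Or.inr ⟨hx, hxz, (x2 c).1 e.1, (y2 b).1 e.2⟩))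
    · exact Or.inl (Or.inr (Or.inl ⟨hx, hxz, (x2 b).1 e.1, (y2 _).1 (ybc.trans e.2)⟩))
    · exact Or.inl (Or.inr (Or.inr ⟨hx, hxz, (x2 _).1 (xbc.trans e.1), (y2 b).1 e.2⟩))
    · exact Or.inr (Or.inl ⟨hx, hxz, (x2 c).1 e.1, (y2 _).1 (ybc.trans e.2)⟩)
    · exact Or.inr (Or.inr ⟨hx, hxz, (x2 _).1 (xbc.trans e.1), (y2 c).1 e.2⟩)
  have s0 := Set.ncard_le_ncard hsub (Set.toFinite _)
  have s1 := Set.ncard_union_le ((C b c ∪ C c b) ∪ (C b (b * c) ∪ C (b * c) b))
    (C c (b * c) ∪ C (b * c) c)
  have s2 := Set.ncard_union_le (C b c ∪ C c b) (C b (b * c) ∪ C (b * c) b)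
  have s3 := Set.ncard_union_le (C b c) (C c b)
  have s4 := Set.ncard_union_le (C b (b * c)) (C (b * c) b)
  have s5 := Set.ncard_union_le (C c (b * c)) (C (b * c) c)
  omega

include h in
/-- more than three eighths of all elements have at most two values on `H` -/
theorem canExt_of_tw {A : Type*} [AddCommGroup A] (hA : ∀ t : A, t + t = 0)
    (β : S.G → S.G → A) (hmul : ∀ a b c, β a (b * c) = β a b + β a c)
    (hiff : ∀ a b c d, β a b = β c d ↔ S.q a b = S.q c d) {H : Subgroup S.G}
    (hH : ∃ a, a ∉ H) (hT : 3 * Nat.card S.G < 8 * (Tw S H).ncard) : CanExt S H := by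
  by_contra hno
  obtain ⟨z0, hz0⟩ : ∃ z, z ∉ Tw S H := by
    by_contra hall
    push Not at hall
    obtain ⟨a, ha⟩ := hH
    exact hno (canExt_of_pairs h ha (pairs_of_two h fun z _ g _ _ => hall z))
  have half : 2 * (Tw S H).ncard ≤ Nat.card S.G := by
    by_contra hc
    exact hno (canExt_of_half h hA β hmul hiff hH (by omega))
  by_cases hgen : Subgroup.closure (Tw S H) = ⊤
  · -- the elements generate
    have h128 : 128 ≤ (Perp h H).index := by
      rcases index_cases128 h.exp2 (Perp h H) with e | e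
      · exact absurd (canExt_of_gen h hA β hmul hiff hH hgen e) hno
      · exact e
    obtain ⟨z, z', hz, hz', hzz⟩ : ∃ z z', z ∉ Tw S H ∧ z' ∉ Tw S H ∧ z * z' ∉ Tw S H := by
      by_contra hcon
      push Not at hcon
      have out := mul_out h.exp2 (Tw S H) half hcon
      have hone : (1 : S.G) ∈ Tw S H := row_sub h (w := S.zero) (Row h H S.zero).one_mem
      let M : Subgroup S.G :=
        { carrier := Tw S H
          one_mem' := hone
          mul_mem' := by
            intro x y hx hy
            by_contra hxy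
            have := out x hx _ hxy
            rw [← mul_assoc, h.exp2, one_mul] at this
            exact this hy
          inv_mem' := by
            intro x hx
            have : x⁻¹ = x := inv_eq_of_mul_eq_one_right (h.exp2 x)
            rw [this]
            exact hx }
      have hle : Subgroup.closure (Tw S H) ≤ M := (Subgroup.closure_le _).2 fun x hx => hx
      rw [hgen] at hle
      exact hz0 (hle (Subgroup.mem_top z0))
    have key := four_translates h.exp2 (Tw S H) z z' (6 * Nat.card (Perp h H)) (by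
      rintro w (rfl | rfl | rfl)
      · exact pair_bound h hz
      · exact pair_bound h hz'
      · exact pair_bound h hzz)
    have c1 : 128 * Nat.card (Perp h H) ≤ Nat.card S.G := by
      rw [← (Perp h H).card_mul_index, mul_comm]
      exact Nat.mul_le_mul_left _ h128
    omega
  · -- they are contained in a proper subgroup
    set M := Subgroup.closure (Tw S H) with hM
    have hTM : Tw S H ⊆ (M : Set S.G) := Subgroup.subset_closure
    have cT := Set.ncard_le_ncard hTM (Set.toFinite _)
    have cM : (M : Set S.G).ncard = Nat.card M := rfl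
    have cc := M.card_mul_index
    rcases index_cases2 h.exp2 M with e | e | e
    · exact hgen (Subgroup.index_eq_one.1 e)
    · by_cases hsub : (M : Set S.G) ⊆ Tw S H
      · exact hno (canExt_of_index_two h hA β hmul hiff hH hsub e)
      · obtain ⟨z, hzM, hz⟩ := Set.not_subset.1 hsub
        have hz' : ¬ TwoOn S H z := hz
        rw [TwoOn] at hz'
        push Not at hz'
        obtain ⟨b, hb, c, hc, b0, c0, bc0⟩ := hz'
        have cm : ∀ x y : S.G, S.q x y ≠ S.zero → S.q y x ≠ S.zero := by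
          intro x y e
          rwa [h.qs2]
        have e1 : b * (b * c) = c := by rw [← mul_assoc, h.exp2, one_mul]
        have e2 : c * (b * c) = b := by rw [mul_comm b c, ← mul_assoc, h.exp2, one_mul]
        have three : 4 * (Tw S H ∩ (M : Set S.G)).ncard ≤ 3 * Nat.card M := by
          refine three_union_in h.exp2 M (D h b) (D h c) (D h (b * c)) (D h b ⊓ D h c) rfl
            (by
              refine le_antisymm (le_inf inf_le_left fun x hx => ?_)
                (le_inf inf_le_left fun x hx => ?_)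
              · have := D_inf h b (b * c) hx.1 hx.2
                rwa [e1] at this
              · exact D_inf h b c hx.1 hx.2)
            (by
              refine le_antisymm (le_inf (fun x hx => ?_) inf_le_left)
                (le_inf inf_le_right fun x hx => ?_)
              · have := D_inf h c (b * c) hx.1 hx.2
                rwa [e2] at this
              · exact D_inf h b c hx.1 hx.2) z hzM (cm _ _ b0) (cm _ _ c0) (cm _ _ bc0) _ ?_
          intro u hu
          rcases hu b hb c hc with e | e | e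
          · exact Or.inl (by show S.q b u = S.zero; rwa [h.qs2])
          · exact Or.inr (Or.inl (by show S.q c u = S.zero; rwa [h.qs2]))
          · exact Or.inr (Or.inr (by show S.q (b * c) u = S.zero; rwa [h.qs2]))
        rw [Set.inter_eq_left.2 hTM] at three
        rw [e] at cc
        omega
    · have c4 : 4 * Nat.card M ≤ Nat.card S.G := by
        rw [← cc, mul_comm]
        exact Nat.mul_le_mul_left _ e
      omega

end

end Pool.Agent.J6H71.ET
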