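import Pool.Agent.J6H71.ET.Rank
import Pool.Agent.J6H71.ET.Sparse

/-! Symbols extend when every quaternion with a slot in `H` has a representation with second slot
of few values on `H`. -/

set_option autoImplicit false

namespace Pool.Agent.J6H71.ET

open Pool.Agent.H315R3.ETC Pool.Agent.TH673.VG Pool.Agent.R19.QS Pool.Agent.HP778.QS

section
variable {S : QData} (h : IsQuat S) {A : Type*} [AddCommGroup A] (hA : ∀ t : A, t + t = 0)
  (β : S.G → S.G → A) (hmul : ∀ a b c, β a (b * c) = β a b + β a c)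
  (hiff : ∀ a b c d, β a b = β c d ↔ S.q a b = S.q c d)

/-- relations of length `n` between quaternions on which the symbol `χ` does not vanish -/
def Rel (β : S.G → S.G → A) (H : Subgroup S.G) (χ : S.G → S.G → ZMod 2) (n : ℕ) : Prop :=
  ∃ g z : Fin n → S.G, (∀ i, g i ∈ H) ∧ ∑ i, β (g i) (z i) = 0 ∧ ∑ i, χ (g i) (z i) ≠ 0

/-- the representations of the quaternions with a slot in `H` -/
def FourRep (h : IsQuat S) (H : Subgroup S.G) : Prop :=
  ∀ g ∈ H, ∀ z, ∃ k ∈ H, ∃ w, S.q k w = S.q g z ∧ (D h w).relIndex H ≤ 4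

include hmul in
lemma beta_one (a : S.G) : β a 1 = 0 := by
  have := hmul a 1 1
  rw [mul_one] at this
  exact left_eq_add.1 this

include h hmul hiff in
lemma beta_zero {a b : S.G} (e : S.q a b = S.zero) : β a b = 0 := by
  rw [(hiff _ _ _ _).2 (e.trans (q_one h a).symm), beta_one β hmul]

include h hmul hiff in
lemma beta_zero_iff {a b : S.G} : β a b = 0 ↔ S.q a b = S.zero := by
  constructor
  · intro e
    rw [← beta_one β hmul a] at e
    exact ((hiff _ _ _ _).1 e).trans (q_one h a)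
  · exact beta_zero h β hmul hiff

include h hA hmul hiff in
lemma bi_beta (H : Subgroup S.G) : Bi H β := by
  have hsym : ∀ a b, β a b = β b a := fun a b => (hiff _ _ _ _).2 (h.qs2 a b)
  refine ⟨fun a _ b _ c => ?_, fun a _ b c => hmul a b c, hA⟩
  rw [hsym, hmul, hsym c a, hsym c b]

lemma bi_chi {H : Subgroup S.G} {χ : S.G → S.G → ZMod 2} (hχ : Sy S H χ) : Bi H χ :=
  ⟨hχ.1, hχ.2.1, fun t => CharTwo.add_self_eq_zero t⟩

variable [Finite S.G]

include hA hmul in
lemma fac_of_no_rel {H : Subgroup S.G} {χ : S.G → S.G → ZMod 2} (hχ : Sy S H χ)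
    (hno : ∀ n, ¬ Rel β H χ n) : ∃ l : A →+ ZMod 2, ∀ g ∈ H, ∀ u, l (β g u) = χ g u := by
  classical
  have : Fintype H := Fintype.ofFinite H
  have b1 := beta_one β hmul
  have x1 : ∀ a ∈ H, χ a 1 = 0 := fun a ha => (bi_chi hχ).one_right ha
  have hχ' := hχ
  obtain ⟨c1, c2, c3⟩ := hχ'
  let Φ : (H → Additive S.G) →+ A :=
    AddMonoidHom.mk' (fun x => ∑ g : H, β g (x g).toMul) (by
      intro x x'
      rw [← Finset.sum_add_distrib]
      exact Finset.sum_congr rfl fun g _ => hmul _ _ _)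
  let Λ : (H → Additive S.G) →+ ZMod 2 :=
    AddMonoidHom.mk' (fun x => ∑ g : H, χ g (x g).toMul) (by
      intro x x'
      rw [← Finset.sum_add_distrib]
      exact Finset.sum_congr rfl fun g _ => c2 _ g.2 _ _)
  obtain ⟨k, hk⟩ := Pool.Agent.TH188.ET.exists_factor hA Φ Λ (by
    intro x hx
    by_contra hne
    let e := Fintype.equivFin H
    refine hno (Fintype.card H) ⟨fun i => (e.symm i : S.G), fun i => (x (e.symm i)).toMul,
      fun i => (e.symm i).2, ?_, ?_⟩
    · rw [← hx]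
      exact Equiv.sum_comp e.symm (fun g : H => β g (x g).toMul)
    · intro h0
      exact hne ((Equiv.sum_comp e.symm (fun g : H => χ g (x g).toMul)).symm.trans h0))
  refine ⟨k, fun g hg u => ?_⟩
  have e := hk (Pi.single ⟨g, hg⟩ (Additive.ofMul u))
  have e1 : Φ (Pi.single ⟨g, hg⟩ (Additive.ofMul u)) = β g u := by
    show ∑ g' : H, β g' ((Pi.single ⟨g, hg⟩ (Additive.ofMul u) : H → Additive S.G) g').toMul = _
    rw [Finset.sum_eq_single (⟨g, hg⟩ : H)]
    · rw [Pi.single_eq_same]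
      rfl
    · intro b _ hb
      rw [Pi.single_eq_of_ne hb]
      exact b1 _
    · intro hc
      exact absurd (Finset.mem_univ _) hc
  have e2 : Λ (Pi.single ⟨g, hg⟩ (Additive.ofMul u)) = χ g u := by
    show ∑ g' : H, χ g' ((Pi.single ⟨g, hg⟩ (Additive.ofMul u) : H → Additive S.G) g').toMul = _
    rw [Finset.sum_eq_single (⟨g, hg⟩ : H)]
    · rw [Pi.single_eq_same]
      rfl
    · intro b _ hb
      rw [Pi.single_eq_of_ne hb]
      exact x1 _ b.2
    · intro hc
      exact absurd (Finset.mem_univ _) hc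
  rw [← e1, ← e2]
  exact e

omit [Finite S.G] in
include h hA hmul hiff in
/-- relations have length at least three -/
lemma rel_three {H : Subgroup S.G} {χ : S.G → S.G → ZMod 2} (hχ : Sy S H χ) {n : ℕ}
    (hn : Rel β H χ n) : 3 ≤ n := by
  obtain ⟨g, z, hg, h1, h3⟩ := hn
  by_contra hlt
  have hn : n = 0 ∨ n = 1 ∨ n = 2 := by omega
  rcases hn with rfl | rfl | rfl
  · exact h3 (by simp)
  · rw [Fin.sum_univ_one] at h1 h3
    exact h3 (hχ.2.2 _ (hg 0) _ ((beta_zero_iff h β hmul hiff).1 h1))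
  · rw [Fin.sum_univ_two] at h1 h3
    have e1 : β (g 0) (z 0) = β (g 1) (z 1) := by
      have e3 := hA (β (g 1) (z 1))
      rw [← e3] at h1
      exact add_right_cancel h1
    apply h3
    rw [sy_eq h hχ (hg 0) (hg 1) ((hiff _ _ _ _).1 e1)]
    exact CharTwo.add_self_eq_zero _

include h in
/-- dependent products -/
lemma dep_of_index {H : Subgroup S.G} {w : S.G} (hw : (D h w).relIndex H ≤ 4) {n : ℕ}
    (hn : 3 ≤ n) (g : Fin n → S.G) (hg : ∀ i, g i ∈ H) :
    ∃ T : Finset (Fin n), T.Nonempty ∧ S.q (∏ j ∈ T, g j) w = S.zero := by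
  classical
  have : Fintype (H ⧸ (D h w).subgroupOf H) := Fintype.ofFinite _
  let ψ : Finset (Fin n) → H ⧸ (D h w).subgroupOf H := fun T =>
    (QuotientGroup.mk (⟨∏ j ∈ T, g j, H.prod_mem fun j _ => hg j⟩ : H))
  have hc : Fintype.card (H ⧸ (D h w).subgroupOf H) < Fintype.card (Finset (Fin n)) := by
    rw [Fintype.card_finset, Fintype.card_fin, ← Nat.card_eq_fintype_card]
    have e1 : Nat.card (H ⧸ (D h w).subgroupOf H) ≤ 4 := hw
    have e2 : 2 ^ 3 ≤ 2 ^ n := Nat.pow_le_pow_right (by norm_num) hn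
    omega
  obtain ⟨T, T', hne, he⟩ := Fintype.exists_ne_map_eq_of_card_lt ψ hc
  refine ⟨symmDiff T T', ?_, ?_⟩
  · rw [Finset.nonempty_iff_ne_empty]
    intro e
    exact hne (symmDiff_eq_bot.1 e)
  · have e1 := QuotientGroup.eq.1 he
    have e2 : (∏ j ∈ T, g j)⁻¹ * ∏ j ∈ T', g j ∈ D h w := e1
    have e3 : (∏ j ∈ T, g j)⁻¹ = ∏ j ∈ T, g j := inv_eq_of_mul_eq_one_right (h.exp2 _)
    have e4 : (∏ j ∈ T, g j) * ∏ j ∈ T', g j = ∏ j ∈ symmDiff T T', g j := by
      have f : ∀ U : Finset (Fin n), ∏ j ∈ U, g j = ∏ j, if j ∈ U then g j else 1 := by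
        intro U
        rw [Finset.prod_ite_mem, Finset.univ_inter]
      rw [f T, f T', f (symmDiff T T'), ← Finset.prod_mul_distrib]
      refine Finset.prod_congr rfl fun j _ => ?_
      by_cases h1 : j ∈ T <;> by_cases h3 : j ∈ T' <;>
        simp [Finset.mem_symmDiff, h1, h3, h.exp2]
    rw [e3, e4] at e2
    rw [h.qs2]
    exact e2

include h hA hmul hiff in
/-- relations can be shortened -/
lemma rel_shorten {H : Subgroup S.G} (hR : FourRep h H) {χ : S.G → S.G → ZMod 2}
    (hχ : Sy S H χ) {n : ℕ} (hn : Rel β H χ (n + 1)) : Rel β H χ n := by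
  classical
  have h3 := rel_three h hA β hmul hiff hχ hn
  obtain ⟨g0, z0, hg0, s1, s2⟩ := hn
  have hrep := fun i => hR (g0 i) (hg0 i) (z0 i)
  choose g hg z hq hi using hrep
  have t1 : ∑ i, β (g i) (z i) = 0 := by
    rw [← s1]
    exact Finset.sum_congr rfl fun i _ => (hiff _ _ _ _).2 (hq i)
  have t2 : ∑ i, χ (g i) (z i) ≠ 0 := by
    intro e
    apply s2
    rw [← e]
    exact Finset.sum_congr rfl fun i _ => (sy_eq h hχ (hg i) (hg0 i) (hq i)).symm
  have hdep := fun i => dep_of_index h (hi i) h3 g hg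
  choose T hT0 hT using hdep
  obtain ⟨I, hI0, hI⟩ := exists_odd T hT0
  have hbβ := bi_beta h hA β hmul hiff H
  have hbχ := bi_chi hχ
  have m1 := hbβ.modify g z hg I T fun i => beta_zero h β hmul hiff (hT i)
  have m2 := hbχ.modify g z hg I T fun i => hχ.2.2 _ (H.prod_mem fun j _ => hg j) _ (hT i)
  have hdp := prod_dep h.exp2 g I T hI
  obtain ⟨i0, hi0⟩ := hI0
  have hi0c : i0 ∈ Finset.univ.filter (fun j => Odd (I.filter fun i => j ∈ T i).card) :=
    Finset.mem_filter.2 ⟨Finset.mem_univ _, hI i0 hi0⟩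
  have hg' : ∀ i, g i * (if i ∈ I then ∏ j ∈ T i, g j else 1) ∈ H := by
    intro i
    refine H.mul_mem (hg i) ?_
    by_cases hi : i ∈ I
    · rw [if_pos hi]
      exact H.prod_mem fun j _ => hg j
    · rw [if_neg hi]
      exact H.one_mem
  have f1 := hbβ.shorten (fun i => g i * if i ∈ I then ∏ j ∈ T i, g j else 1) z hg' _ i0 hi0c hdp
  have f2 := hbχ.shorten (fun i => g i * if i ∈ I then ∏ j ∈ T i, g j else 1) z hg' _ i0 hi0c hdp
  exact ⟨_, _, fun i => hg' _, f1.trans (m1.trans t1), fun e => t2 ((f2.trans m2).symm.trans e)⟩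

include h hA hmul hiff in
/-- symbols extend -/
theorem canExt_of_rep {H : Subgroup S.G} (hH : ∃ a, a ∉ H) (hR : FourRep h H) :
    CanExt S H := by
  refine canExt_of_fac h β hmul hiff hH fun χ hχ => ?_
  by_contra hno
  have hex : ∃ n, Rel β H χ n := by
    by_contra hc
    push Not at hc
    exact hno (fac_of_no_rel hA β hmul hχ hc)
  classical
  obtain ⟨n, hn⟩ := hex
  have key : ∀ n, ¬ Rel β H χ n := by
    intro n
    induction n with
    | zero =>
      intro hn
      have := rel_three h hA β hmul hiff hχ hn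
      omega
    | succ n ih => exact fun hn => ih (rel_shorten h hA β hmul hiff hR hχ hn)
  exact key n hn

end

section
variable {S : QData} (h : IsQuat S) [Finite S.G]

/-- `w` has at most four values on a closed subgroup not containing it -/
lemma rel_four {H : Subgroup S.G} (hcl : Closed S H) {w : S.G} (hw : w ∉ H)
    (hi : (D h w).index ≤ 8) : (D h w).relIndex H ≤ 4 := by
  have h1 : (D h w).relIndex (H ⊔ D h w) * (H ⊔ D h w).index = (D h w).index :=
    Subgroup.relIndex_mul_index le_sup_right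
  have h2 : (D h w).relIndex (H ⊔ D h w) = (D h w).relIndex H := by
    rw [Subgroup.relIndex_sup_right]
  have h3 : (H ⊔ D h w).index ≠ 1 := by
    intro e
    refine closed_sup h hcl hw ?_
    rw [sup_comm]
    exact Subgroup.index_eq_one.1 e
  have h4 : (H ⊔ D h w).index ≠ 0 := Subgroup.index_ne_zero_of_finite
  rw [h2] at h1
  have h5 : (D h w).relIndex H * 2 ≤ (D h w).relIndex H * (H ⊔ D h w).index :=
    Nat.mul_le_mul_left _ (by omega)
  omega

/-- the exceptional elements -/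
def Exc (h : IsQuat S) : Set S.G := {a | 8 < (D h a).index}

/-- all value groups have index at most 64 -/
lemma index_le_64 (hfew : 2 * (Exc h).ncard < Nat.card S.G) (a : S.G) :
    (D h a).index ≤ 64 := by
  have e1 := Set.ncard_add_ncard_compl (Exc h)
  obtain ⟨x, hx, hxa⟩ := exists_pair (Exc h)ᶜ (by omega) a
  have hx' : (D h x).index ≤ 8 := not_lt.1 hx
  have hxa' : (D h (x * a)).index ≤ 8 := not_lt.1 hxa
  have hle : D h x ⊓ D h (x * a) ≤ D h a := by
    rintro y ⟨h1, h3⟩
    have := D_inf h x (x * a) h1 h3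
    rwa [← mul_assoc, h.exp2, one_mul] at this
  have h4 := Nat.le_of_dvd (Nat.pos_of_ne_zero Subgroup.index_ne_zero_of_finite)
    (Subgroup.index_dvd_of_le hle)
  have h5 : (D h x ⊓ D h (x * a)).index ≤ (D h x).index * (D h (x * a)).index :=
    Subgroup.index_inf_le
  calc (D h a).index ≤ _ := h4
    _ ≤ _ := h5
    _ ≤ 8 * 8 := Nat.mul_le_mul hx' hxa'
    _ = 64 := by norm_num

/-- a second slot of index at most eight -/
lemma pick (hfew : 128 * (Exc h).ncard < Nat.card S.G) (H : Subgroup S.G) (g z : S.G) :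
    ∃ y, S.q g y = S.q g z ∧ (D h y).index ≤ 8 ∧ (z ∉ H → y ∉ H) := by
  have h64 := index_le_64 h (by omega) g
  have cD : Nat.card S.G ≤ 64 * Nat.card (D h g) := by
    rw [← (D h g).card_mul_index, mul_comm]
    exact Nat.mul_le_mul_right _ h64
  obtain ⟨d, hd, hdH⟩ : ∃ d ∈ D h g, z ∉ H → ∀ x, x * z ∈ D h g → x ∈ H → x * d ∉ H := by
    by_cases hDH : D h g ≤ H
    · refine ⟨1, (D h g).one_mem, fun hz x hx hxH _ => hz ?_⟩
      exact (H.mul_mem_cancel_left hxH).1 (hDH hx)
    · obtain ⟨d, hd, hdH⟩ := Set.not_subset.1 hDH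
      exact ⟨d, hd, fun _ x _ hxH e => hdH ((H.mul_mem_cancel_left hxH).1 e)⟩
  let E : Set S.G := {x | x * z ∈ D h g ∧ (z ∉ H → x ∉ H)}
  let E' : Set S.G := {x | x * z ∈ D h g ∧ ¬ (z ∉ H → x ∉ H)}
  have c1 : E'.ncard ≤ E.ncard := by
    refine Set.ncard_le_ncard_of_injOn (fun x => x * d) ?_
      (fun _ _ _ _ e => mul_right_cancel e) (Set.toFinite _)
    rintro x ⟨h1, h3⟩
    rw [Classical.not_imp, not_not] at h3
    refine ⟨?_, fun hz => hdH hz x h1 h3.2⟩
    show x * d * z ∈ D h g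
    have e : x * d * z = x * z * d := by rw [mul_assoc, mul_comm d z, ← mul_assoc]
    rw [e]
    exact (D h g).mul_mem h1 hd
  have c2 : Nat.card (D h g) ≤ E.ncard + E'.ncard := by
    have e1 : ((D h g : Subgroup S.G) : Set S.G).ncard ≤ (E ∪ E').ncard := by
      refine Set.ncard_le_ncard_of_injOn (fun x => x * z) ?_
        (fun _ _ _ _ e => mul_right_cancel e) (Set.toFinite _)
      intro x hx
      have e2 : x * z * z ∈ D h g := by rw [mul_assoc, h.exp2, mul_one]; exact hx
      by_cases hc : z ∉ H → x * z ∉ H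
      · exact Or.inl ⟨e2, hc⟩
      · exact Or.inr ⟨e2, hc⟩
    exact e1.trans (Set.ncard_union_le _ _)
  have hns : ¬ E ⊆ Exc h := by
    intro hs
    have := Set.ncard_le_ncard hs (Set.toFinite _)
    omega
  obtain ⟨y, hyE, hy⟩ := Set.not_subset.1 hns
  exact ⟨y, (h.qs3 _ _ _).2 hyE.1, not_lt.1 hy, hyE.2⟩

/-- closed subgroups of index at least eight -/
theorem fourRep_of_few (hfew : 128 * (Exc h).ncard < Nat.card S.G) {H : Subgroup S.G}
    (hcl : Closed S H) (h8 : 8 ≤ H.index) : FourRep h H := by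
  obtain ⟨a, ha⟩ := exists_out h8
  -- second slot outside `H`
  have out : ∀ g ∈ H, ∀ z, z ∉ H → ∃ k ∈ H, ∃ w, S.q k w = S.q g z ∧
      (D h w).relIndex H ≤ 4 := by
    intro g hg z hz
    obtain ⟨y, h1, h3, h4⟩ := pick h hfew H g z
    exact ⟨g, hg, y, h1, rel_four h hcl (h4 hz) h3⟩
  intro g hg z
  by_cases hz : z ∉ H
  · exact out g hg z hz
  by_cases hq : S.q g z = S.zero
  · obtain ⟨k, hk, w, h1, h3⟩ := out 1 H.one_mem a ha
    refine ⟨k, hk, w, ?_, h3⟩
    rw [h1, hq, h.qs2]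
    exact q_one h a
  obtain ⟨y, h1, h3, -⟩ := pick h hfew H g z
  by_cases hy : y ∉ H
  · obtain ⟨k, hk, w, h5, h6⟩ := out g hg y hy
    exact ⟨k, hk, w, h5.trans h1, h6⟩
  rw [not_not] at hy
  have hD : ¬ D h y ≤ H := by
    intro hle
    have e1 := Subgroup.relIndex_mul_index hle
    have e2 : (D h y).relIndex H = 1 := by
      have e3 : (D h y).relIndex H * 8 ≤ (D h y).relIndex H * H.index :=
        Nat.mul_le_mul_left _ h8
      have e4 : (D h y).relIndex H ≠ 0 := by
        intro e0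
        rw [e0, zero_mul] at e1
        exact Subgroup.index_ne_zero_of_finite e1.symm
      omega
    have e5 : g ∈ D h y := Subgroup.relIndex_eq_one.1 e2 hg
    apply hq
    rw [← h1, h.qs2]
    exact e5
  obtain ⟨d, hd, hdH⟩ := Set.not_subset.1 hD
  obtain ⟨k, hk, w, h5, h6⟩ := out y hy (g * d)
    (fun e => hdH ((H.mul_mem_cancel_left hg).1 e))
  refine ⟨k, hk, w, h5.trans ?_, h6⟩
  rw [← h1, h.qs2 g y, h.qs3]
  have e : g * d * g = d := by rw [mul_comm g d, mul_assoc, h.exp2, mul_one]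
  rw [e]
  exact hd

include h in
/-- fewer than `1/128` of the value groups have index greater than eight -/
theorem elem_of_eight {A : Type*} [AddCommGroup A] (hA : ∀ t : A, t + t = 0)
    (β : S.G → S.G → A) (hmul : ∀ a b c, β a (b * c) = β a b + β a c)
    (hiff : ∀ a b c d, β a b = β c d ↔ S.q a b = S.q c d)
    (hfew : 128 * (Exc h).ncard < Nat.card S.G) : Elem S :=
  elem_of_closed h fun _ hcl h8 => canExt_of_rep h hA β hmul hiff (exists_out h8)
    (fourRep_of_few h hfew hcl h8)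

end

end Pool.Agent.J6H71.ET
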