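import Pool.Agent.J6H71.ET.Cnt
import Pool.Agent.HP778.QS.Field
import Pool.Agent.TH188.ET.FieldSmall

/-! The criteria for fields. -/

set_option autoImplicit false

namespace Pool.Agent.J6H71.ET

open Pool.Agent.H315R3.ETC Pool.Agent.TH188.ET Pool.Agent.TH673.VG Pool.Agent.R19.QS
open Pool.Agent.HP778.QS (squares classes)

universe u

section str
variable {S : QData} (h : IsQuat S) [Finite S.G]

include h in
lemma twoOn_of_rel {H : Subgroup S.G} {z : S.G} (hi : (D h z).relIndex H ≤ 2) :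
    TwoOn S H z := by
  intro u hu v hv
  by_contra hcon
  push Not at hcon
  obtain ⟨u0, v0, uv0⟩ := hcon
  set K := (D h z).subgroupOf H with hK
  have h0 : K.index ≠ 0 := Subgroup.index_ne_zero_of_finite
  have hi' : K.index ≤ 2 := hi
  have h1 : K.index ≠ 1 := by
    intro e
    have : (⟨u, hu⟩ : H) ∈ K := by rw [Subgroup.index_eq_one.1 e]; trivial
    exact u0 this
  have h2 : K.index = 2 := by omega
  have := (Subgroup.mul_mem_iff_of_index_two h2 (a := ⟨u, hu⟩) (b := ⟨v, hv⟩)).2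
    ⟨fun e => absurd e u0, fun e => absurd e v0⟩
  exact uv0 this

omit [Finite S.G] in
include h in
/-- a small average bounds all indices -/
lemma index_le_of_average [Fintype S.G] (N : ℕ)
    (hB : ∑ a : S.G, (D h a).index ≤ N * Nat.card S.G) (b : S.G) :
    (D h b).index ≤ 4 * N ^ 2 := by
  classical
  have hfS : Finite S.G := inferInstance
  obtain ⟨T, memT⟩ : ∃ T : Set S.G, ∀ a, a ∈ T ↔ (D h a).index ≤ 2 * N :=
    ⟨{a | (D h a).index ≤ 2 * N}, fun _ => Iff.rfl⟩
  have hT : Nat.card S.G < 2 * T.ncard := by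
    have key : ∀ a : S.G, 2 * N + 1 ≤ (D h a).index + (2 * N + 1) * (if a ∈ T then 1 else 0) := by
      intro a
      by_cases ha : a ∈ T
      · rw [if_pos ha]; omega
      · have : ¬ (D h a).index ≤ 2 * N := fun e => ha ((memT a).2 e)
        rw [if_neg ha]; omega
    have s1 := Finset.sum_le_sum fun a (_ : a ∈ (Finset.univ : Finset S.G)) => key a
    simp only [Finset.sum_add_distrib, ← Finset.mul_sum, sum_ind, Finset.sum_const, smul_eq_mul,
      Finset.card_univ, ← Nat.card_eq_fintype_card] at s1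
    have hg : 0 < Nat.card S.G := Nat.card_pos
    by_contra hc
    push Not at hc
    have s2 : (2 * N + 1) * (2 * T.ncard) ≤ (2 * N + 1) * Nat.card S.G := Nat.mul_le_mul_left _ hc
    nlinarith [s1, s2, hB, hg]
  obtain ⟨x, hx, hxb⟩ := exists_pair T hT b
  have i3 : D h x ⊓ D h (x * b) ≤ D h b := by
    intro y hy
    have := D_inf h x (x * b) hy.1 hy.2
    have e : x * (x * b) = b := by rw [← mul_assoc, h.exp2, one_mul]
    rwa [e] at this
  have i4 := Nat.le_of_dvd (Pool.Agent.HP778.QS.idx_pos _) (Subgroup.index_dvd_of_le i3)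
  refine i4.trans ((Subgroup.index_inf_le (H := D h x) (K := D h (x * b))).trans ?_)
  calc (D h x).index * (D h (x * b)).index ≤ (2 * N) * (2 * N) :=
        Nat.mul_le_mul ((memT _).1 hx) ((memT _).1 hxb)
    _ = 4 * N ^ 2 := by ring

omit [Finite S.G] in
/-- counting orthogonal pairs -/
lemma pairs_card [Fintype S.G] (P : S.G → Prop) [DecidablePred P] :
    {p : S.G × S.G | P p.1 ∧ S.q p.1 p.2 = S.zero}.ncard =
      ∑ a : S.G with P a, Nat.card (D h a) := by
  classical
  let t : S.G → Finset S.G := fun a => Finset.univ.filter fun b => S.q a b = S.zero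
  have ht : ∀ a, Nat.card (D h a) = (t a).card := by
    intro a
    have e : ((D h a : Subgroup S.G) : Set S.G).ncard = Nat.card (D h a) := rfl
    rw [← e, ← Set.ncard_coe_finset]
    congr 1
    ext b
    rw [Finset.mem_coe, Finset.mem_filter]
    exact ⟨fun e => ⟨Finset.mem_univ _, e⟩, fun e => e.2⟩
  rw [Finset.sum_congr rfl fun a _ => ht a, ← Finset.card_sigma]
  rw [← Set.ncard_coe_finset]
  refine Set.ncard_congr (fun p _ => (⟨p.1, p.2⟩ : (_ : S.G) × S.G)) ?_ ?_ ?_
  · rintro ⟨a, b⟩ ⟨h1, h2⟩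
    rw [Finset.mem_coe, Finset.mem_sigma]
    exact ⟨Finset.mem_filter.2 ⟨Finset.mem_univ _, h1⟩, Finset.mem_filter.2 ⟨Finset.mem_univ _, h2⟩⟩
  · rintro ⟨a, b⟩ ⟨a', b'⟩ - - e
    simp only [Sigma.mk.injEq, heq_eq_eq] at e
    obtain ⟨rfl, rfl⟩ := e
    rfl
  · rintro ⟨a, b⟩ hp
    rw [Finset.mem_coe, Finset.mem_sigma] at hp
    exact ⟨(a, b), ⟨(Finset.mem_filter.1 hp.1).2, (Finset.mem_filter.1 hp.2).2⟩, rfl⟩

end str

section
variable {F : Type u} [Field F]

/-- the structure of a field with its norm groups, its core and its quaternion algebras -/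
theorem fsetup (h2 : (2 : F) ≠ 0) (hfin : FinSq F) :
    ∃ (S : QData) (hS : IsQuat S) (φ : Fˣ →* S.G), IsStructureOf F S ∧ Finite S.G ∧
      Function.Surjective φ ∧ φ.ker = squares F ∧
      (∀ a : Fˣ, (D hS (φ a)).comap φ = normGroup a) ∧ fieldCore F = (Core S).comap φ ∧
      (∀ L : Subgroup S.G, Closed S L → NormClosed (L.comap φ)) ∧
      ∃ β : S.G → S.G → Pool.Agent.TH188.ETF.B2 F,
        (∀ a b c, β a (b * c) = β a b + β a c) ∧
        ∀ a b c d, β a b = β c d ↔ S.q a b = S.q c d := by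
  obtain ⟨S, hS, hSfin, hSq⟩ := exists_structure h2 hfin
  obtain ⟨φ, hs, hk, hn, h0, hq⟩ := id hS
  have hz : ∀ a b : Fˣ, S.q (φ a) (φ b) = S.zero ↔ NormFrom a b := by
    intro a b
    rw [← qiso_one h2, ← h0, ← map_one φ]
    exact hq a b 1 1
  have hinv : ∀ a b a' b' : Fˣ, φ a = φ a' → φ b = φ b' →
      Pool.Agent.TH188.ETF.bq h2 a b = Pool.Agent.TH188.ETF.bq h2 a' b' := by
    intro a b a' b' h1 h3
    rw [Pool.Agent.TH188.ETF.bq_eq_iff]
    exact qiso_of_phi h2 hk h1 h3
  have hs' := hs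
  choose r hr using hs'
  refine ⟨S, hSq, φ, hS, hSfin, hs, ?_, fun a => ?_, core_comap h2 hs hk hSfin hz, ?_,
    fun g k => Pool.Agent.TH188.ETF.bq h2 (r g) (r k), ?_, ?_⟩
  · ext a
    rw [MonoidHom.mem_ker, hk, Pool.Agent.HP778.QS.mem_squares]
  · ext c
    exact hz a c
  · rintro L ⟨h1, h3⟩
    exact ⟨fun a ha => h1 _ ((index_two_iff hs hk hSfin hz a).1 ha),
      fun a ha => h3 _ ((sup_iff hs hk hz a L).1 ha)⟩
  · intro g k l
    show Pool.Agent.TH188.ETF.bq h2 (r g) (r (k * l)) = Pool.Agent.TH188.ETF.bq h2 (r g) (r k) +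
      Pool.Agent.TH188.ETF.bq h2 (r g) (r l)
    rw [← Pool.Agent.TH188.ETF.bq_mul]
    apply hinv _ _ _ _ rfl
    rw [map_mul, hr, hr, hr]
  · intro g k l m
    show Pool.Agent.TH188.ETF.bq h2 (r g) (r k) = Pool.Agent.TH188.ETF.bq h2 (r l) (r m) ↔ _
    rw [Pool.Agent.TH188.ETF.bq_eq_iff]
    have := hq (r g) (r k) (r l) (r m)
    rw [hr, hr, hr, hr] at this
    exact this.symm

/-- the index of the norm group of a square class -/
noncomputable def nIndex (x : Fˣ ⧸ squares F) : ℕ := (normGroup x.out).index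

/-- the square classes outside the core -/
def OutCl (F : Type u) [Field F] : Set (Fˣ ⧸ squares F) :=
  {x | ∃ a : Fˣ, (a : Fˣ ⧸ squares F) = x ∧ a ∉ fieldCore F}

variable (h2 : (2 : F) ≠ 0) (hfin : FinSq F)

include h2 hfin in
theorem field_crit (hcr : ∀ H : Subgroup Fˣ, NormClosed H → 8 ≤ H.index →
      4 ≤ (fieldCore F).relIndex H → 3 * (squares F).index < 8 * {x : Fˣ ⧸ squares F | ∃ a : Fˣ, (a : Fˣ ⧸ squares F) = x ∧
        (normGroup a).relIndex H ≤ 2}.ncard) :
    ∃ S : QData, Elem S ∧ IsStructureOf F S := by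
  obtain ⟨S, hS, φ, hst, hf, hs, hker, hD, hC, hcl, β, hmul, hiff⟩ := fsetup h2 hfin
  obtain ⟨f, hfb, hfa⟩ := classes hker hs
  have hq : Finite (Fˣ ⧸ squares F) := Finite.of_injective f hfb.1
  have hcard : Nat.card S.G = (squares F).index := by
    rw [← hker, Subgroup.index_ker, MonoidHom.range_eq_top.2 hs, Subgroup.card_top]
  refine ⟨S, Pool.Agent.J6H42.CE.elem_of_core_four hS
    ⟨hmul, hiff, Pool.Agent.TH188.ETF.B2_add_self⟩ fun H hcH h8 h4 => ?_, hst⟩
  refine canExt_of_tw hS Pool.Agent.TH188.ETF.B2_add_self β hmul hiff (exists_out h8) ?_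
  have h7 : 4 ≤ (fieldCore F).relIndex (H.comap φ) := by
    have h5 : fieldCore F ≤ H.comap φ := sInf_le (hcl H hcH)
    have h6 := Subgroup.relIndex_mul_index h5
    have h3 : (H.comap φ).index = H.index := Subgroup.index_comap_of_surjective _ hs
    have h9 : (fieldCore F).index = (Core S).index := by
      rw [hC, Subgroup.index_comap_of_surjective _ hs]
    rw [h9, h3] at h6
    by_contra hc
    have h8' : (fieldCore F).relIndex (H.comap φ) * H.index ≤ 3 * H.index :=
      Nat.mul_le_mul_right _ (by omega)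
    omega
  have h1 := hcr (H.comap φ) (hcl H hcH) (by rwa [Subgroup.index_comap_of_surjective _ hs]) h7
  rw [hcard]
  refine lt_of_lt_of_le h1 (Nat.mul_le_mul_left _ ?_)
  refine Set.ncard_le_ncard_of_injOn f ?_ hfb.1.injOn (Set.toFinite _)
  rintro _ ⟨a, rfl, ha⟩
  rw [hfa]
  refine twoOn_of_rel hS ?_
  rw [← hD a, Subgroup.relIndex_comap, Subgroup.map_comap_eq_self_of_surjective hs] at ha
  exact ha

include h2 hfin in
theorem field_few (hB : 2 * {x : Fˣ ⧸ squares F | ∃ a : Fˣ, (a : Fˣ ⧸ squares F) = x ∧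
      a ∉ fieldCore F ∧ 4 < (normGroup a).index}.ncard < (squares F).index) :
    ∃ S : QData, Elem S ∧ IsStructureOf F S := by
  obtain ⟨S, hS, φ, hst, hf, hs, hker, hD, hC, hcl, β, hmul, hiff⟩ := fsetup h2 hfin
  obtain ⟨f, hfb, hfa⟩ := classes hker hs
  have hq : Finite (Fˣ ⧸ squares F) := Finite.of_injective f hfb.1
  have hcard : Nat.card S.G = (squares F).index := by
    rw [← hker, Subgroup.index_ker, MonoidHom.range_eq_top.2 hs, Subgroup.card_top]
  have hDi : ∀ a : Fˣ, (D hS (φ a)).index = (normGroup a).index := by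
    intro a
    rw [← Subgroup.index_comap_of_surjective _ hs, hD]
  refine ⟨S, elem_of_few hS Pool.Agent.TH188.ETF.B2_add_self β hmul hiff ?_, hst⟩
  rw [hcard]
  refine lt_of_le_of_lt (Nat.mul_le_mul_left _ ?_) hB
  have hsub : {a : S.G | a ∉ Core S ∧ 4 < (D hS a).index} ⊆ f ''
      {x : Fˣ ⧸ squares F | ∃ a : Fˣ, (a : Fˣ ⧸ squares F) = x ∧
        a ∉ fieldCore F ∧ 4 < (normGroup a).index} := by
    rintro y ⟨h1, h3⟩
    obtain ⟨a, rfl⟩ := hs y
    exact ⟨(a : Fˣ ⧸ squares F), ⟨a, rfl, by rw [hC]; exact h1, by rw [← hDi]; exact h3⟩, hfa a⟩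
  exact (Set.ncard_le_ncard hsub (Set.toFinite _)).trans (Set.ncard_image_le (Set.toFinite _))

include h2 hfin in
theorem field_average (hB : 64 * ∑ᶠ x : Fˣ ⧸ squares F, nIndex x < 379 * (squares F).index) :
    ∃ S : QData, Elem S ∧ IsStructureOf F S := by
  obtain ⟨S, hS, φ, hst, hf, hs, hker, hD, hC, hcl, β, hmul, hiff⟩ := fsetup h2 hfin
  obtain ⟨f, hfb, hfa⟩ := classes hker hs
  have hq : Finite (Fˣ ⧸ squares F) := Finite.of_injective f hfb.1
  have hcard : Nat.card S.G = (squares F).index := by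
    rw [← hker, Subgroup.index_ker, MonoidHom.range_eq_top.2 hs, Subgroup.card_top]
  have := Fintype.ofFinite S.G
  have := Fintype.ofFinite (Fˣ ⧸ squares F)
  have hn : ∀ x, nIndex x = (D hS (f x)).index := by
    intro x
    conv_rhs => rw [← x.out_eq]
    have : f (Quotient.mk _ x.out) = φ x.out := hfa x.out
    rw [this, ← Subgroup.index_comap_of_surjective _ hs, hD]
    rfl
  refine ⟨S, elem_of_average hS Pool.Agent.TH188.ETF.B2_add_self β hmul hiff ?_, hst⟩
  rw [hcard]
  rw [finsum_eq_sum_of_fintype, Fintype.sum_bijective f hfb nIndex (fun a => (D hS a).index) hn]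
    at hB
  exact hB

include h2 hfin in
theorem field_average_out (hB : ∑ᶠ x ∈ OutCl F, nIndex x ≤ 6 * (OutCl F).ncard) :
    ∃ S : QData, Elem S ∧ IsStructureOf F S := by
  classical
  obtain ⟨S, hS, φ, hst, hf, hs, hker, hD, hC, hcl, β, hmul, hiff⟩ := fsetup h2 hfin
  obtain ⟨f, hfb, hfa⟩ := classes hker hs
  have hq : Finite (Fˣ ⧸ squares F) := Finite.of_injective f hfb.1
  have := Fintype.ofFinite S.G
  have := Fintype.ofFinite (Fˣ ⧸ squares F)
  have hn : ∀ x, nIndex x = (D hS (f x)).index := by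
    intro x
    conv_rhs => rw [← x.out_eq]
    have : f (Quotient.mk _ x.out) = φ x.out := hfa x.out
    rw [this, ← Subgroup.index_comap_of_surjective _ hs, hD]
    rfl
  have hout : ∀ x, x ∈ OutCl F ↔ f x ∉ Core S := by
    intro x
    constructor
    · rintro ⟨a, rfl, ha⟩
      rw [hfa]
      rw [hC] at ha
      exact ha
    · intro e
      obtain ⟨a, rfl⟩ := QuotientGroup.mk_surjective x
      rw [hfa] at e
      exact ⟨a, rfl, by rw [hC]; exact e⟩
  have hnc : (OutCl F).ncard = {a : S.G | a ∉ Core S}.ncard := by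
    refine Set.ncard_congr (fun x _ => f x) (fun x hx => (hout x).1 hx)
      (fun x y _ _ e => hfb.1 e) (fun y hy => ?_)
    obtain ⟨x, rfl⟩ := hfb.2 y
    exact ⟨x, (hout x).2 hy, rfl⟩
  refine ⟨S, elem_of_average_out hS Pool.Agent.TH188.ETF.B2_add_self β hmul hiff ?_, hst⟩
  rw [← hnc]
  refine le_trans (le_of_eq ?_) hB
  rw [finsum_mem_def, finsum_eq_sum_of_fintype, Finset.sum_filter]
  symm
  refine Fintype.sum_bijective f hfb _ _ fun x => ?_
  by_cases hx : x ∈ OutCl F
  · rw [Set.indicator_of_mem hx, if_pos ((hout x).1 hx), hn]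
  · rw [Set.indicator_of_notMem hx, if_neg fun e => hx ((hout x).2 e)]

include h2 hfin in
theorem field_split (hB : 13 * (squares F).index ^ 2 <
      64 * {p : (Fˣ ⧸ squares F) × (Fˣ ⧸ squares F) | ∃ a b : Fˣ, b ∈ normGroup a ∧
        p = ((a : Fˣ ⧸ squares F), (b : Fˣ ⧸ squares F))}.ncard) :
    ∃ S : QData, Elem S ∧ IsStructureOf F S := by
  classical
  obtain ⟨S, hS, φ, hst, hf, hs, hker, hD, hC, hcl, β, hmul, hiff⟩ := fsetup h2 hfin
  obtain ⟨f, hfb, hfa⟩ := classes hker hs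
  have hq : Finite (Fˣ ⧸ squares F) := Finite.of_injective f hfb.1
  have hcard : Nat.card S.G = (squares F).index := by
    rw [← hker, Subgroup.index_ker, MonoidHom.range_eq_top.2 hs, Subgroup.card_top]
  have := Fintype.ofFinite S.G
  refine ⟨S, elem_of_split hS Pool.Agent.TH188.ETF.B2_add_self β hmul hiff ?_, hst⟩
  rw [hcard]
  refine lt_of_lt_of_le hB (Nat.mul_le_mul_left _ ?_)
  have e1 := pairs_card hS (fun _ => True)
  rw [Finset.filter_true_of_mem fun _ _ => trivial] at e1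
  rw [← e1]
  refine Set.ncard_le_ncard_of_injOn (Prod.map f f) ?_ (hfb.1.prodMap hfb.1).injOn
    (Set.toFinite _)
  rintro _ ⟨a, b, hb, rfl⟩
  rw [Prod.map_apply, hfa, hfa]
  refine ⟨trivial, ?_⟩
  rw [← hD a] at hb
  exact hb

include h2 hfin in
theorem field_split_out (hB : 3 * (squares F).index * (OutCl F).ncard ≤
      16 * {p : (Fˣ ⧸ squares F) × (Fˣ ⧸ squares F) | ∃ a b : Fˣ, a ∉ fieldCore F ∧
        b ∈ normGroup a ∧ p = ((a : Fˣ ⧸ squares F), (b : Fˣ ⧸ squares F))}.ncard) :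
    ∃ S : QData, Elem S ∧ IsStructureOf F S := by
  classical
  obtain ⟨S, hS, φ, hst, hf, hs, hker, hD, hC, hcl, β, hmul, hiff⟩ := fsetup h2 hfin
  obtain ⟨f, hfb, hfa⟩ := classes hker hs
  have hq : Finite (Fˣ ⧸ squares F) := Finite.of_injective f hfb.1
  have hcard : Nat.card S.G = (squares F).index := by
    rw [← hker, Subgroup.index_ker, MonoidHom.range_eq_top.2 hs, Subgroup.card_top]
  have := Fintype.ofFinite S.G
  have hnc : {a : S.G | a ∉ Core S}.ncard ≤ (OutCl F).ncard := by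
    have hsub : {a : S.G | a ∉ Core S} ⊆ f '' OutCl F := by
      intro y hy
      obtain ⟨a, rfl⟩ := hs y
      exact ⟨(a : Fˣ ⧸ squares F), ⟨a, rfl, by rw [hC]; exact hy⟩, hfa a⟩
    exact (Set.ncard_le_ncard hsub (Set.toFinite _)).trans (Set.ncard_image_le (Set.toFinite _))
  refine ⟨S, elem_of_split_out hS Pool.Agent.TH188.ETF.B2_add_self β hmul hiff ?_, hst⟩
  rw [hcard]
  refine (Nat.mul_le_mul_left _ hnc).trans (hB.trans (Nat.mul_le_mul_left _ ?_))
  rw [← pairs_card hS (fun a => a ∉ Core S)]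
  refine Set.ncard_le_ncard_of_injOn (Prod.map f f) ?_ (hfb.1.prodMap hfb.1).injOn
    (Set.toFinite _)
  rintro _ ⟨a, b, ha, hb, rfl⟩
  rw [Prod.map_apply, hfa, hfa]
  rw [hC] at ha
  refine ⟨ha, ?_⟩
  rw [← hD a] at hb
  exact hb

include h2 hfin in
/-- a small average bounds all indices -/
theorem field_bound (N : ℕ) (hB : ∑ᶠ x : Fˣ ⧸ squares F, nIndex x ≤ N * (squares F).index)
    (a : Fˣ) : (normGroup a).index ≤ 4 * N ^ 2 := by
  obtain ⟨S, hS, φ, hst, hf, hs, hker, hD, hC, hcl, β, hmul, hiff⟩ := fsetup h2 hfin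
  obtain ⟨f, hfb, hfa⟩ := classes hker hs
  have hq : Finite (Fˣ ⧸ squares F) := Finite.of_injective f hfb.1
  have hcard : Nat.card S.G = (squares F).index := by
    rw [← hker, Subgroup.index_ker, MonoidHom.range_eq_top.2 hs, Subgroup.card_top]
  have := Fintype.ofFinite S.G
  have := Fintype.ofFinite (Fˣ ⧸ squares F)
  have hn : ∀ x, nIndex x = (D hS (f x)).index := by
    intro x
    conv_rhs => rw [← x.out_eq]
    have : f (Quotient.mk _ x.out) = φ x.out := hfa x.out
    rw [this, ← Subgroup.index_comap_of_surjective _ hs, hD]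
    rfl
  rw [finsum_eq_sum_of_fintype, Fintype.sum_bijective f hfb nIndex (fun a => (D hS a).index) hn,
    ← hcard] at hB
  have e1 : (normGroup a).index = (D hS (φ a)).index := by
    rw [← Subgroup.index_comap_of_surjective _ hs, hD]
  rw [e1]
  exact index_le_of_average hS N hB (φ a)

end

end Pool.Agent.J6H71.ET
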