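import Pool.Agent.J6H71.ET.Cnt2

/-! The criteria for fields. -/

set_option autoImplicit false

namespace Pool.Agent.J6H71.ET

open Pool.Agent.H315R3.ETC Pool.Agent.TH188.ET Pool.Agent.TH673.VG Pool.Agent.R19.QS
open Pool.Agent.HP778.QS (squares classes)

universe u

section
variable {F : Type u} [Field F] (h2 : (2 : F) ≠ 0) (hfin : FinSq F)

/-- the number of the quaternion algebras `(a,h)`, `h ∈ H`, for `a` in the class `x` -/
noncomputable def vIndex (H : Subgroup Fˣ) (x : Fˣ ⧸ squares F) : ℕ :=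
  (normGroup x.out).relIndex H

include h2 hfin in
theorem field_few2 (hB : 8 * {x : Fˣ ⧸ squares F | ∃ a : Fˣ, (a : Fˣ ⧸ squares F) = x ∧
      a ∉ fieldCore F ∧ 4 < (normGroup a).index}.ncard < 5 * (squares F).index) :
    ∃ S : QData, Elem S ∧ IsStructureOf F S := by
  obtain ⟨S, hS, φ, hst, hf, hs, hker, hD, hC, hcl, β, hmul, hiff⟩ := fsetup h2 hfin
  obtain ⟨f, hfb, hfa⟩ := classes hker hs
  have hq : Finite (Fˣ ⧸ squares F) := Finite.of_injective f hfb.1
  have hcard : Nat.card S.G = (squares F).index := by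
    rw [← hker, Subgroup.index_ker, MonoidHom.range_eq_top.2 hs, Subgroup.card_top]
  have hDi : ∀ a : Fˣ, (D hS (φ a)).index = (normGroup a).index := by
    intro a
    rw [← Subgroup.index_comap_of_surjective _ hs, hD]
  refine ⟨S, elem_of_few2 hS Pool.Agent.TH188.ETF.B2_add_self β hmul hiff ?_, hst⟩
  rw [hcard]
  refine lt_of_le_of_lt (Nat.mul_le_mul_left _ ?_) hB
  have hsub : {a : S.G | a ∉ Core S ∧ 4 < (D hS a).index} ⊆ f ''
      {x : Fˣ ⧸ squares F | ∃ a : Fˣ, (a : Fˣ ⧸ squares F) = x ∧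
        a ∉ fieldCore F ∧ 4 < (normGroup a).index} := by
    rintro y ⟨h1, h3⟩
    obtain ⟨a, rfl⟩ := hs y
    exact ⟨(a : Fˣ ⧸ squares F), ⟨a, rfl, by rw [hC]; exact h1, by rw [← hDi]; exact h3⟩, hfa a⟩
  exact (Set.ncard_le_ncard hsub (Set.toFinite _)).trans (Set.ncard_image_le (Set.toFinite _))

include h2 hfin in
theorem field_average2
    (hB : 4 * ∑ᶠ x : Fˣ ⧸ squares F, min 16 (nIndex x) ≤ 39 * (squares F).index) :
    ∃ S : QData, Elem S ∧ IsStructureOf F S := by
  obtain ⟨S, hS, φ, hst, hf, hs, hker, hD, hC, hcl, β, hmul, hiff⟩ := fsetup h2 hfin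
  obtain ⟨f, hfb, hfa⟩ := classes hker hs
  have hq : Finite (Fˣ ⧸ squares F) := Finite.of_injective f hfb.1
  have hcard : Nat.card S.G = (squares F).index := by
    rw [← hker, Subgroup.index_ker, MonoidHom.range_eq_top.2 hs, Subgroup.card_top]
  have := Fintype.ofFinite S.G
  have := Fintype.ofFinite (Fˣ ⧸ squares F)
  have hn : ∀ x, min 16 (nIndex x) = min 16 (D hS (f x)).index := by
    intro x
    conv_rhs => rw [← x.out_eq]
    have : f (Quotient.mk _ x.out) = φ x.out := hfa x.out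
    rw [this, ← Subgroup.index_comap_of_surjective _ hs, hD]
    rfl
  refine ⟨S, elem_of_average2 hS Pool.Agent.TH188.ETF.B2_add_self β hmul hiff ?_, hst⟩
  rw [hcard]
  rw [finsum_eq_sum_of_fintype,
    Fintype.sum_bijective f hfb (fun x => min 16 (nIndex x)) (fun a => min 16 (D hS a).index) hn]
    at hB
  exact hB

include h2 hfin in
theorem field_average_out2
    (hB : 4 * ∑ᶠ x ∈ OutCl F, min 16 (nIndex x) ≤ 39 * (OutCl F).ncard) :
    ∃ S : QData, Elem S ∧ IsStructureOf F S := by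
  classical
  obtain ⟨S, hS, φ, hst, hf, hs, hker, hD, hC, hcl, β, hmul, hiff⟩ := fsetup h2 hfin
  obtain ⟨f, hfb, hfa⟩ := classes hker hs
  have hq : Finite (Fˣ ⧸ squares F) := Finite.of_injective f hfb.1
  have := Fintype.ofFinite S.G
  have := Fintype.ofFinite (Fˣ ⧸ squares F)
  have hn : ∀ x, nIndex x = (D hS (f x)).index := by
    intro x
    conv_rhs => rw [← x.out_eq]
    have : f (Quotient.mk _ x.out) = φ x.out := hfa x.out
    rw [this, ← Subgroup.index_comap_of_surjective _ hs, hD]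
    rfl
  have hout : ∀ x, x ∈ OutCl F ↔ f x ∉ Core S := by
    intro x
    constructor
    · rintro ⟨a, rfl, ha⟩
      rw [hfa]
      rw [hC] at ha
      exact ha
    · intro e
      obtain ⟨a, rfl⟩ := QuotientGroup.mk_surjective x
      rw [hfa] at e
      exact ⟨a, rfl, by rw [hC]; exact e⟩
  have hnc : (OutCl F).ncard = {a : S.G | a ∉ Core S}.ncard := by
    refine Set.ncard_congr (fun x _ => f x) (fun x hx => (hout x).1 hx)
      (fun x y _ _ e => hfb.1 e) (fun y hy => ?_)
    obtain ⟨x, rfl⟩ := hfb.2 y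
    exact ⟨x, (hout x).2 hy, rfl⟩
  refine ⟨S, elem_of_average_out2 hS Pool.Agent.TH188.ETF.B2_add_self β hmul hiff ?_, hst⟩
  rw [← hnc]
  refine le_trans (le_of_eq ?_) hB
  congr 1
  rw [finsum_mem_def, finsum_eq_sum_of_fintype, Finset.sum_filter]
  symm
  refine Fintype.sum_bijective f hfb _ _ fun x => ?_
  by_cases hx : x ∈ OutCl F
  · rw [Set.indicator_of_mem hx, if_pos ((hout x).1 hx), hn]
  · rw [Set.indicator_of_notMem hx, if_neg fun e => hx ((hout x).2 e)]

include h2 hfin in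
theorem field_split2 (hB : 161 * (squares F).index ^ 2 <
      1024 * {p : (Fˣ ⧸ squares F) × (Fˣ ⧸ squares F) | ∃ a b : Fˣ, b ∈ normGroup a ∧
        p = ((a : Fˣ ⧸ squares F), (b : Fˣ ⧸ squares F))}.ncard) :
    ∃ S : QData, Elem S ∧ IsStructureOf F S := by
  classical
  obtain ⟨S, hS, φ, hst, hf, hs, hker, hD, hC, hcl, β, hmul, hiff⟩ := fsetup h2 hfin
  obtain ⟨f, hfb, hfa⟩ := classes hker hs
  have hq : Finite (Fˣ ⧸ squares F) := Finite.of_injective f hfb.1
  have hcard : Nat.card S.G = (squares F).index := by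
    rw [← hker, Subgroup.index_ker, MonoidHom.range_eq_top.2 hs, Subgroup.card_top]
  have := Fintype.ofFinite S.G
  refine ⟨S, elem_of_split2 hS Pool.Agent.TH188.ETF.B2_add_self β hmul hiff ?_, hst⟩
  rw [hcard]
  refine lt_of_lt_of_le hB (Nat.mul_le_mul_left _ ?_)
  have e1 := pairs_card hS (fun _ => True)
  rw [Finset.filter_true_of_mem fun _ _ => trivial] at e1
  rw [← e1]
  refine Set.ncard_le_ncard_of_injOn (Prod.map f f) ?_ (hfb.1.prodMap hfb.1).injOn
    (Set.toFinite _)
  rintro _ ⟨a, b, hb, rfl⟩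
  rw [Prod.map_apply, hfa, hfa]
  refine ⟨trivial, ?_⟩
  rw [← hD a] at hb
  exact hb

include h2 hfin in
theorem field_split_out2 (hB : 73 * (squares F).index * (OutCl F).ncard ≤
      512 * {p : (Fˣ ⧸ squares F) × (Fˣ ⧸ squares F) | ∃ a b : Fˣ, a ∉ fieldCore F ∧
        b ∈ normGroup a ∧ p = ((a : Fˣ ⧸ squares F), (b : Fˣ ⧸ squares F))}.ncard) :
    ∃ S : QData, Elem S ∧ IsStructureOf F S := by
  classical
  obtain ⟨S, hS, φ, hst, hf, hs, hker, hD, hC, hcl, β, hmul, hiff⟩ := fsetup h2 hfin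
  obtain ⟨f, hfb, hfa⟩ := classes hker hs
  have hq : Finite (Fˣ ⧸ squares F) := Finite.of_injective f hfb.1
  have hcard : Nat.card S.G = (squares F).index := by
    rw [← hker, Subgroup.index_ker, MonoidHom.range_eq_top.2 hs, Subgroup.card_top]
  have := Fintype.ofFinite S.G
  have hnc : {a : S.G | a ∉ Core S}.ncard ≤ (OutCl F).ncard := by
    have hsub : {a : S.G | a ∉ Core S} ⊆ f '' OutCl F := by
      intro y hy
      obtain ⟨a, rfl⟩ := hs y
      exact ⟨(a : Fˣ ⧸ squares F), ⟨a, rfl, by rw [hC]; exact hy⟩, hfa a⟩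
    exact (Set.ncard_le_ncard hsub (Set.toFinite _)).trans (Set.ncard_image_le (Set.toFinite _))
  refine ⟨S, elem_of_split_out2 hS Pool.Agent.TH188.ETF.B2_add_self β hmul hiff ?_, hst⟩
  rw [hcard]
  refine (Nat.mul_le_mul_left _ hnc).trans (hB.trans (Nat.mul_le_mul_left _ ?_))
  rw [← pairs_card hS (fun a => a ∉ Core S)]
  refine Set.ncard_le_ncard_of_injOn (Prod.map f f) ?_ (hfb.1.prodMap hfb.1).injOn
    (Set.toFinite _)
  rintro _ ⟨a, b, ha, hb, rfl⟩
  rw [Prod.map_apply, hfa, hfa]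
  rw [hC] at ha
  refine ⟨ha, ?_⟩
  rw [← hD a] at hb
  exact hb

include h2 hfin in
theorem field_crit2 (hcr : ∀ H : Subgroup Fˣ, NormClosed H → 8 ≤ H.index →
      4 ≤ (fieldCore F).relIndex H → ∀ a : Fin 3 → Fˣ, (∀ j, a j ∈ H) →
        (squares F).index < 4 * {x : Fˣ ⧸ squares F | ∃ b : Fˣ, (b : Fˣ ⧸ squares F) = x ∧
          (normGroup b).relIndex (Subgroup.closure (Set.range a)) ≤ 2}.ncard ∨
        8 * ∑ᶠ x : Fˣ ⧸ squares F, vIndex (Subgroup.closure (Set.range a)) x <
          43 * (squares F).index) :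
    ∃ S : QData, Elem S ∧ IsStructureOf F S := by
  obtain ⟨S, hS, φ, hst, hf, hs, hker, hD, hC, hcl, β, hmul, hiff⟩ := fsetup h2 hfin
  obtain ⟨f, hfb, hfa⟩ := classes hker hs
  have hq : Finite (Fˣ ⧸ squares F) := Finite.of_injective f hfb.1
  have hcard : Nat.card S.G = (squares F).index := by
    rw [← hker, Subgroup.index_ker, MonoidHom.range_eq_top.2 hs, Subgroup.card_top]
  have := Fintype.ofFinite S.G
  have := Fintype.ofFinite (Fˣ ⧸ squares F)
  refine ⟨S, Pool.Agent.J6H42.CE.elem_of_core_four hS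
    ⟨hmul, hiff, Pool.Agent.TH188.ETF.B2_add_self⟩ fun H hcH h8 h4 => ?_, hst⟩
  have hrel : ∀ (a : Fˣ) (V : Subgroup Fˣ), (normGroup a).relIndex V =
      (D hS (φ a)).relIndex (V.map φ) := by
    intro a V
    rw [← hD a, Subgroup.relIndex_comap]
  have h7 : 4 ≤ (fieldCore F).relIndex (H.comap φ) := by
    have h5 : fieldCore F ≤ H.comap φ := sInf_le (hcl H hcH)
    have h6 := Subgroup.relIndex_mul_index h5
    have h3 : (H.comap φ).index = H.index := Subgroup.index_comap_of_surjective _ hs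
    have h9 : (fieldCore F).index = (Core S).index := by
      rw [hC, Subgroup.index_comap_of_surjective _ hs]
    rw [h9, h3] at h6
    by_contra hc
    have h8' : (fieldCore F).relIndex (H.comap φ) * H.index ≤ 3 * H.index :=
      Nat.mul_le_mul_right _ (by omega)
    omega
  refine canExt_of_values hS Pool.Agent.TH188.ETF.B2_add_self β hmul hiff h8 fun b hb => ?_
  rw [hcard]
  have hlift := fun j => hs (b j)
  choose a ha using hlift
  have hV : (Subgroup.closure (Set.range a)).map φ = Subgroup.closure (Set.range b) := by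
    rw [MonoidHom.map_closure, ← Set.range_comp]
    congr 2
    funext j
    exact ha j
  rcases hcr (H.comap φ) (hcl H hcH) (by rwa [Subgroup.index_comap_of_surjective _ hs]) h7 a
    (fun j => by
      show φ (a j) ∈ H
      rw [ha]
      exact hb j) with h1 | h1
  · left
    refine lt_of_lt_of_le h1 (Nat.mul_le_mul_left _ ?_)
    refine Set.ncard_le_ncard_of_injOn f ?_ hfb.1.injOn (Set.toFinite _)
    rintro _ ⟨c, rfl, hc⟩
    rw [hfa]
    refine twoOn_of_rel hS ?_
    rw [← hV, ← hrel]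
    exact hc
  · right
    have hn : ∀ x, vIndex (Subgroup.closure (Set.range a)) x =
        (D hS (f x)).relIndex (Subgroup.closure (Set.range b)) := by
      intro x
      conv_rhs => rw [← x.out_eq]
      have : f (Quotient.mk _ x.out) = φ x.out := hfa x.out
      rw [this, ← hV, ← hrel]
      rfl
    rw [finsum_eq_sum_of_fintype, Fintype.sum_bijective f hfb
      (fun x => vIndex (Subgroup.closure (Set.range a)) x)
      (fun c => (D hS c).relIndex (Subgroup.closure (Set.range b))) hn] at h1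
    exact h1

end

end Pool.Agent.J6H71.ET
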