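import Pool.Agent.J6H71.ET.Fld2
import Pool.Agent.J6H71.ET.Dual

/-! The representation criterion for fields. -/

set_option autoImplicit false

namespace Pool.Agent.J6H71.ET

open Pool.Agent.H315R3.ETC Pool.Agent.TH188.ET Pool.Agent.TH673.VG Pool.Agent.R19.QS
open Pool.Agent.HP778.QS (squares classes)
open scoped Quaternion

universe u

section
variable {F : Type u} [Field F] (h2 : (2 : F) ≠ 0) (hfin : FinSq F)

/-- the square classes of the elements of `H` -/
def ClassesOf (H : Subgroup Fˣ) : Set (Fˣ ⧸ squares F) :=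
  {x | ∃ a : Fˣ, (a : Fˣ ⧸ squares F) = x ∧ a ∈ H}

include h2 hfin in
theorem field_crit3 (hcr : ∀ H : Subgroup Fˣ, NormClosed H → 8 ≤ H.index →
      4 ≤ (fieldCore F).relIndex H →
        8 * ∑ᶠ x ∈ ClassesOf H, min 8 (nIndex x) < 43 * (ClassesOf H).ncard ∨
        (∀ a : Fin 3 → Fˣ, (∀ j, a j ∈ H) →
          (squares F).index < 4 * {x : Fˣ ⧸ squares F | ∃ b : Fˣ, (b : Fˣ ⧸ squares F) = x ∧
            (normGroup b).relIndex (Subgroup.closure (Set.range a)) ≤ 2}.ncard ∨
          8 * ∑ᶠ x : Fˣ ⧸ squares F, vIndex (Subgroup.closure (Set.range a)) x <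
            43 * (squares F).index) ∨
        ∀ g ∈ H, ∀ z : Fˣ, ∃ k ∈ H, ∃ w : Fˣ,
          Nonempty (ℍ[F,(k : F),0,(w : F)] ≃ₐ[F] ℍ[F,(g : F),0,(z : F)]) ∧
          (normGroup w).relIndex H ≤ 4) :
    ∃ S : QData, Elem S ∧ IsStructureOf F S := by
  classical
  obtain ⟨S, hS, hSfin, hSq⟩ := exists_structure h2 hfin
  obtain ⟨φ, hs, hk, hn, h0, hq⟩ := id hS
  have hz : ∀ a b : Fˣ, S.q (φ a) (φ b) = S.zero ↔ NormFrom a b := by
    intro a b
    rw [← qiso_one h2, ← h0, ← map_one φ]
    exact hq a b 1 1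
  have hinv : ∀ a b a' b' : Fˣ, φ a = φ a' → φ b = φ b' →
      Pool.Agent.TH188.ETF.bq h2 a b = Pool.Agent.TH188.ETF.bq h2 a' b' := by
    intro a b a' b' h1 h3
    rw [Pool.Agent.TH188.ETF.bq_eq_iff]
    exact qiso_of_phi h2 hk h1 h3
  have hs' := hs
  choose r hr using hs'
  have hker : φ.ker = squares F := by
    ext a
    rw [MonoidHom.mem_ker, hk, Pool.Agent.HP778.QS.mem_squares]
  have hD : ∀ a : Fˣ, (D hSq (φ a)).comap φ = normGroup a := by
    intro a
    ext c
    exact hz a c
  have hC : fieldCore F = (Core S).comap φ := core_comap h2 hs hk hSfin hz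
  have hcl : ∀ L : Subgroup S.G, Closed S L → NormClosed (L.comap φ) := by
    rintro L ⟨h1, h3⟩
    exact ⟨fun a ha => h1 _ ((index_two_iff hs hk hSfin hz a).1 ha),
      fun a ha => h3 _ ((sup_iff hs hk hz a L).1 ha)⟩
  have hmul : ∀ g k l : S.G, Pool.Agent.TH188.ETF.bq h2 (r g) (r (k * l)) =
      Pool.Agent.TH188.ETF.bq h2 (r g) (r k) + Pool.Agent.TH188.ETF.bq h2 (r g) (r l) := by
    intro g k l
    rw [← Pool.Agent.TH188.ETF.bq_mul]
    apply hinv _ _ _ _ rfl
    rw [map_mul, hr, hr, hr]
  have hiff : ∀ g k l m : S.G, Pool.Agent.TH188.ETF.bq h2 (r g) (r k) =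
      Pool.Agent.TH188.ETF.bq h2 (r l) (r m) ↔ S.q g k = S.q l m := by
    intro g k l m
    rw [Pool.Agent.TH188.ETF.bq_eq_iff]
    have := hq (r g) (r k) (r l) (r m)
    rw [hr, hr, hr, hr] at this
    exact this.symm
  obtain ⟨f, hfb, hfa⟩ := classes hker hs
  have hfin' : Finite (Fˣ ⧸ squares F) := Finite.of_injective f hfb.1
  have hcard : Nat.card S.G = (squares F).index := by
    rw [← hker, Subgroup.index_ker, MonoidHom.range_eq_top.2 hs, Subgroup.card_top]
  have := Fintype.ofFinite S.G
  have := Fintype.ofFinite (Fˣ ⧸ squares F)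
  have hout : ∀ x, f x = φ x.out := by
    intro x
    conv_lhs => rw [← x.out_eq]
    exact hfa x.out
  have hnI : ∀ x, nIndex x = (D hSq (f x)).index := by
    intro x
    rw [hout, ← Subgroup.index_comap_of_surjective _ hs, hD]
    rfl
  refine ⟨S, Pool.Agent.J6H42.CE.elem_of_core_four hSq
    ⟨hmul, hiff, Pool.Agent.TH188.ETF.B2_add_self⟩ fun H hcH h8 h4 => ?_, hS⟩
  have h7 : 4 ≤ (fieldCore F).relIndex (H.comap φ) := by
    have h5 : fieldCore F ≤ H.comap φ := sInf_le (hcl H hcH)
    have h6 := Subgroup.relIndex_mul_index h5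
    have h3 : (H.comap φ).index = H.index := Subgroup.index_comap_of_surjective _ hs
    have h9 : (fieldCore F).index = (Core S).index := by
      rw [hC, Subgroup.index_comap_of_surjective _ hs]
    rw [h9, h3] at h6
    by_contra hc
    have h8' : (fieldCore F).relIndex (H.comap φ) * H.index ≤ 3 * H.index :=
      Nat.mul_le_mul_right _ (by omega)
    omega
  rcases hcr (H.comap φ) (hcl H hcH) (by rwa [Subgroup.index_comap_of_surjective _ hs]) h7 with
    hA | hB | hR
  · -- the average over `H`
    by_contra hno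
    have key := sum_index hSq Pool.Agent.TH188.ETF.B2_add_self
      (fun g k => Pool.Agent.TH188.ETF.bq h2 (r g) (r k)) hmul hiff (exists_out h8) hno
    have hmem : ∀ x, x ∈ ClassesOf (H.comap φ) ↔ f x ∈ H := by
      intro x
      constructor
      · rintro ⟨a, rfl, ha⟩
        rw [hfa]
        exact ha
      · intro e
        obtain ⟨a, rfl⟩ := QuotientGroup.mk_surjective x
        rw [hfa] at e
        exact ⟨a, rfl, e⟩
    have hnc : (ClassesOf (H.comap φ)).ncard = Nat.card H := by
      have e1 : (H : Set S.G).ncard = Nat.card H := rfl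
      rw [← e1]
      refine Set.ncard_congr (fun x _ => f x) (fun x hx => (hmem x).1 hx)
        (fun x y _ _ e => hfb.1 e) (fun y hy => ?_)
      obtain ⟨x, rfl⟩ := hfb.2 y
      exact ⟨x, (hmem x).2 hy, rfl⟩
    have hsum : ∑ᶠ x ∈ ClassesOf (H.comap φ), min 8 (nIndex x) =
        ∑ x : H, min 8 (D hSq (x : S.G)).index := by
      have e1 : ∑ x : H, min 8 (D hSq (x : S.G)).index =
          ∑ y : S.G with y ∈ H, min 8 (D hSq y).index :=
        (Finset.sum_subtype (Finset.univ.filter fun y : S.G => y ∈ H)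
          (fun x => by simp) fun y => min 8 (D hSq y).index).symm
      rw [e1, finsum_mem_def, finsum_eq_sum_of_fintype, Finset.sum_filter]
      refine Fintype.sum_bijective f hfb _ _ fun x => ?_
      by_cases hx : x ∈ ClassesOf (H.comap φ)
      · rw [Set.indicator_of_mem hx, if_pos ((hmem x).1 hx), hnI]
      · rw [Set.indicator_of_notMem hx, if_neg fun e => hx ((hmem x).2 e)]
    rw [hsum, hnc] at hA
    omega
  · -- the subgroups generated by three elements
    refine canExt_of_values hSq Pool.Agent.TH188.ETF.B2_add_self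
      (fun g k => Pool.Agent.TH188.ETF.bq h2 (r g) (r k)) hmul hiff h8 fun b hb => ?_
    rw [hcard]
    have hlift := fun j => hs (b j)
    choose a ha using hlift
    have hV : (Subgroup.closure (Set.range a)).map φ = Subgroup.closure (Set.range b) := by
      rw [MonoidHom.map_closure, ← Set.range_comp]
      congr 2
      funext j
      exact ha j
    have hrel : ∀ (a : Fˣ) (V : Subgroup Fˣ), (normGroup a).relIndex V =
        (D hSq (φ a)).relIndex (V.map φ) := by
      intro a V
      rw [← hD a, Subgroup.relIndex_comap]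
    rcases hB a (fun j => by
        show φ (a j) ∈ H
        rw [ha]
        exact hb j) with h1 | h1
    · left
      refine lt_of_lt_of_le h1 (Nat.mul_le_mul_left _ ?_)
      refine Set.ncard_le_ncard_of_injOn f ?_ hfb.1.injOn (Set.toFinite _)
      rintro _ ⟨c, rfl, hc⟩
      rw [hfa]
      refine twoOn_of_rel hSq ?_
      rw [← hV, ← hrel]
      exact hc
    · right
      have hn' : ∀ x, vIndex (Subgroup.closure (Set.range a)) x =
          (D hSq (f x)).relIndex (Subgroup.closure (Set.range b)) := by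
        intro x
        rw [hout, ← hV, ← hrel]
        rfl
      rw [finsum_eq_sum_of_fintype, Fintype.sum_bijective f hfb
        (fun x => vIndex (Subgroup.closure (Set.range a)) x)
        (fun c => (D hSq c).relIndex (Subgroup.closure (Set.range b))) hn'] at h1
      exact h1
  · -- representations
    refine canExt_of_rep hSq Pool.Agent.TH188.ETF.B2_add_self
      (fun g k => Pool.Agent.TH188.ETF.bq h2 (r g) (r k)) hmul hiff (exists_out h8)
      fun g hg z => ?_
    obtain ⟨g', rfl⟩ := hs g
    obtain ⟨z', rfl⟩ := hs z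
    obtain ⟨k, hk', w, hiso, hw⟩ := hR g' hg z'
    refine ⟨φ k, hk', φ w, (hq k w g' z').2 hiso, ?_⟩
    rw [← hD w, Subgroup.relIndex_comap, Subgroup.map_comap_eq_self_of_surjective hs] at hw
    exact hw

end

end Pool.Agent.J6H71.ET
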