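import Pool.Agent.J6H71.ET.Fld
import Pool.Agent.J6H71.ET.Eight

/-! Norm groups of index at most eight. -/

set_option autoImplicit false

namespace Pool.Agent.J6H71.ET

open Pool.Agent.H315R3.ETC Pool.Agent.TH188.ET Pool.Agent.TH673.VG Pool.Agent.R19.QS
open Pool.Agent.HP778.QS (squares classes)

universe u

section
variable {F : Type u} [Field F] (h2 : (2 : F) ≠ 0) (hfin : FinSq F)

include h2 hfin in
theorem field_eight (hB : 128 * {x : Fˣ ⧸ squares F | ∃ a : Fˣ, (a : Fˣ ⧸ squares F) = x ∧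
      8 < (normGroup a).index}.ncard < (squares F).index) :
    ∃ S : QData, Elem S ∧ IsStructureOf F S := by
  obtain ⟨S, hS, φ, hst, hf, hs, hker, hD, hC, hcl, β, hmul, hiff⟩ := fsetup h2 hfin
  obtain ⟨f, hfb, hfa⟩ := classes hker hs
  have hq : Finite (Fˣ ⧸ squares F) := Finite.of_injective f hfb.1
  have hcard : Nat.card S.G = (squares F).index := by
    rw [← hker, Subgroup.index_ker, MonoidHom.range_eq_top.2 hs, Subgroup.card_top]
  have hDi : ∀ a : Fˣ, (D hS (φ a)).index = (normGroup a).index := by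
    intro a
    rw [← Subgroup.index_comap_of_surjective _ hs, hD]
  refine ⟨S, elem_of_eight hS Pool.Agent.TH188.ETF.B2_add_self β hmul hiff ?_, hst⟩
  rw [hcard]
  refine lt_of_le_of_lt (Nat.mul_le_mul_left _ ?_) hB
  have hsub : Exc hS ⊆ f '' {x : Fˣ ⧸ squares F | ∃ a : Fˣ, (a : Fˣ ⧸ squares F) = x ∧
      8 < (normGroup a).index} := by
    intro y hy
    obtain ⟨a, rfl⟩ := hs y
    refine ⟨(a : Fˣ ⧸ squares F), ⟨a, rfl, ?_⟩, hfa a⟩
    rw [← hDi]
    exact hy
  exact (Set.ncard_le_ncard hsub (Set.toFinite _)).trans (Set.ncard_image_le (Set.toFinite _))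

end

end Pool.Agent.J6H71.ET
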