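import Pool.Agent.HP778.QS.Count

/-! Subgroups of finite elementary abelian 2-groups. -/

set_option autoImplicit false

namespace Pool.Agent.J6H71.ET

open Pool.Agent.HP778.QS

section
variable {G : Type} [CommGroup G] [Finite G] (h2 : ∀ x : G, x * x = 1)

include h2 in
lemma index_cases (W : Subgroup G) : W.index ≤ 4 ∨ 8 ≤ W.index := by
  have hp : IsPGroup 2 G := by
    intro x
    exact ⟨1, by rw [pow_one, pow_two, h2]⟩
  obtain ⟨n, hn⟩ := hp.index W
  rw [hn]
  by_cases hc : n ≤ 2
  · left
    calc 2 ^ n ≤ 2 ^ 2 := Nat.pow_le_pow_right (by norm_num) hc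
      _ = 4 := by norm_num
  · right
    calc 8 = 2 ^ 3 := by norm_num
      _ ≤ 2 ^ n := Nat.pow_le_pow_right (by norm_num) (by omega)

include h2 in
lemma index_cases2 (W : Subgroup G) : W.index = 1 ∨ W.index = 2 ∨ 4 ≤ W.index := by
  have hp : IsPGroup 2 G := by
    intro x
    exact ⟨1, by rw [pow_one, pow_two, h2]⟩
  obtain ⟨n, hn⟩ := hp.index W
  rw [hn]
  rcases n with _ | _ | n
  · left; norm_num
  · right; left; norm_num
  · right; right
    calc 4 = 2 ^ 2 := by norm_num
      _ ≤ 2 ^ (n + 1 + 1) := Nat.pow_le_pow_right (by norm_num) (by omega)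

include h2 in
/-- three proper subgroups with the same pairwise intersections -/
lemma three_union (A B C K : Subgroup G) (hAB : A ⊓ B = K) (hAC : A ⊓ C = K) (hBC : B ⊓ C = K)
    (z : G) (hzA : z ∉ A) (hzB : z ∉ B) (hzC : z ∉ C) :
    Nat.card G ≤ 4 * {x : G | x ∉ A ∧ x ∉ B ∧ x ∉ C}.ncard := by
  set T : Set G := {x : G | x ∉ A ∧ x ∉ B ∧ x ∉ C} with hT
  have hKA : K ≤ A := hAB ▸ inf_le_left
  have hKB : K ≤ B := hAB ▸ inf_le_right
  have hKC : K ≤ C := hAC ▸ inf_le_right
  rcases index_cases h2 K with hK | hK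
  · have e1 := card_of_index hK
    have e2 : (K : Set G).ncard ≤ T.ncard := by
      refine Set.ncard_le_ncard_of_injOn (fun x => z * x) ?_
        (fun _ _ _ _ e => mul_left_cancel e) (Set.toFinite _)
      intro x hx
      refine ⟨fun e => hzA ?_, fun e => hzB ?_, fun e => hzC ?_⟩
      · exact (A.mul_mem_cancel_right (hKA hx)).1 e
      · exact (B.mul_mem_cancel_right (hKB hx)).1 e
      · exact (C.mul_mem_cancel_right (hKC hx)).1 e
    have e3 : (K : Set G).ncard = Nat.card K := rfl
    omega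
  -- the union
  have u1 := Set.ncard_union_add_ncard_inter (A : Set G) (B : Set G)
  have u2 := Set.ncard_union_add_ncard_inter ((A : Set G) ∪ (B : Set G)) (C : Set G)
  have u3 : (K : Set G).ncard ≤ ((A : Set G) ∩ (B : Set G)).ncard :=
    Set.ncard_le_ncard (fun x hx => ⟨hKA hx, hKB hx⟩) (Set.toFinite _)
  have u4 : (K : Set G).ncard ≤ (((A : Set G) ∪ (B : Set G)) ∩ (C : Set G)).ncard :=
    Set.ncard_le_ncard (fun x hx => ⟨Or.inl (hKA hx), hKC hx⟩) (Set.toFinite _)
  have u5 : Nat.card G ≤ T.ncard + ((((A : Set G) ∪ (B : Set G)) ∪ (C : Set G))).ncard := by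
    rw [← Set.ncard_univ]
    refine (Set.ncard_le_ncard ?_ (Set.toFinite _)).trans (Set.ncard_union_le _ _)
    intro x _
    by_cases h1 : x ∈ A
    · exact Or.inr (Or.inl (Or.inl h1))
    by_cases h2 : x ∈ B
    · exact Or.inr (Or.inl (Or.inr h2))
    by_cases h3 : x ∈ C
    · exact Or.inr (Or.inr h3)
    · exact Or.inl ⟨h1, h2, h3⟩
  have nA : (A : Set G).ncard = Nat.card A := rfl
  have nB : (B : Set G).ncard = Nat.card B := rfl
  have nC : (C : Set G).ncard = Nat.card C := rfl
  have nK : (K : Set G).ncard = Nat.card K := rfl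
  have cK := K.card_mul_index
  have k8 : 8 * Nat.card K ≤ Nat.card G := by
    rw [← cK, mul_comm]
    exact Nat.mul_le_mul_left _ hK
  -- a subgroup of index two makes the others small
  have two : ∀ X Y : Subgroup G, X.index = 2 → X ⊓ Y = K → Nat.card Y ≤ 2 * Nat.card K := by
    intro X Y hX hXY
    have e1 : ((Y : Set G) \ (K : Set G)).ncard ≤ (K : Set G).ncard := by
      by_cases hex : ∃ y, y ∈ (Y : Set G) \ (K : Set G)
      · obtain ⟨y, hyY, hyK⟩ := hex
        refine Set.ncard_le_ncard_of_injOn (fun x => y * x) ?_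
          (fun _ _ _ _ e => mul_left_cancel e) (Set.toFinite _)
        rintro x ⟨hxY, hxK⟩
        have hyX : y ∉ X := fun e => hyK (by rw [← hXY]; exact ⟨e, hyY⟩)
        have hxX : x ∉ X := fun e => hxK (by rw [← hXY]; exact ⟨e, hxY⟩)
        show y * x ∈ K
        rw [← hXY]
        refine ⟨(Subgroup.mul_mem_iff_of_index_two hX).2 ⟨fun e => absurd e hyX,
          fun e => absurd e hxX⟩, Y.mul_mem hyY hxY⟩
      · push Not at hex
        have : (Y : Set G) \ (K : Set G) = ∅ := Set.eq_empty_iff_forall_notMem.2 hex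
        rw [this, Set.ncard_empty]
        exact Nat.zero_le _
    have e2 : (Y : Set G).ncard ≤ ((Y : Set G) \ (K : Set G)).ncard + (K : Set G).ncard := by
      refine (Set.ncard_le_ncard ?_ (Set.toFinite _)).trans (Set.ncard_union_le _ _)
      intro x hx
      by_cases hxK : x ∈ (K : Set G)
      · exact Or.inr hxK
      · exact Or.inl ⟨hx, hxK⟩
    have e3 : (Y : Set G).ncard = Nat.card Y := rfl
    omega
  have ne1 : ∀ X : Subgroup G, z ∉ X → X.index ≠ 1 := by
    intro X hX e
    apply hX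
    rw [Subgroup.index_eq_one.1 e]
    trivial
  have quarter : ∀ X : Subgroup G, 4 ≤ X.index → 4 * Nat.card X ≤ Nat.card G := by
    intro X hX
    rw [← X.card_mul_index, mul_comm]
    exact Nat.mul_le_mul_left _ hX
  have half : ∀ X : Subgroup G, X.index = 2 → 2 * Nat.card X = Nat.card G := by
    intro X hX
    rw [← X.card_mul_index, mul_comm, hX]
  rcases index_cases2 h2 A with hA | hA | hA
  · exact absurd hA (ne1 A hzA)
  · have t1 := two A B hA hAB
    have t2 := two A C hA hAC
    have t3 := half A hA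
    omega
  rcases index_cases2 h2 B with hB | hB | hB
  · exact absurd hB (ne1 B hzB)
  · have t1 := two B A hB (by rw [inf_comm]; exact hAB)
    have t2 := two B C hB hBC
    have t3 := half B hB
    omega
  rcases index_cases2 h2 C with hC | hC | hC
  · exact absurd hC (ne1 C hzC)
  · have t1 := two C A hC (by rw [inf_comm]; exact hAC)
    have t2 := two C B hC (by rw [inf_comm]; exact hBC)
    have t3 := half C hC
    omega
  have t1 := quarter A hA
  have t2 := quarter B hB
  have t3 := quarter C hC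
  omega

include h2 in
/-- the same inside a subgroup `D` -/
lemma three_union_in (D A B C K : Subgroup G) (hAB : A ⊓ B = K) (hAC : A ⊓ C = K)
    (hBC : B ⊓ C = K) (z : G) (hzD : z ∈ D) (hzA : z ∉ A) (hzB : z ∉ B) (hzC : z ∉ C)
    (T : Set G) (hT : ∀ x ∈ T, x ∈ A ∨ x ∈ B ∨ x ∈ C) :
    4 * (T ∩ (D : Set G)).ncard ≤ 3 * Nat.card D := by
  have h2' : ∀ x : D, x * x = 1 := fun x => Subtype.ext (h2 x.1)
  have key := three_union h2' (A.subgroupOf D) (B.subgroupOf D) (C.subgroupOf D)
    (K.subgroupOf D) (by rw [← hAB]; rfl) (by rw [← hAC]; rfl) (by rw [← hBC]; rfl) ⟨z, hzD⟩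
    (fun e => hzA e) (fun e => hzB e) (fun e => hzC e)
  set U : Set D := {x : D | x ∉ A.subgroupOf D ∧ x ∉ B.subgroupOf D ∧ x ∉ C.subgroupOf D} with hU
  have e1 : (T ∩ (D : Set G)).ncard + (Subtype.val '' U).ncard ≤ (D : Set G).ncard := by
    rw [← Set.ncard_union_eq ?_ (Set.toFinite _) (Set.toFinite _)]
    · refine Set.ncard_le_ncard ?_ (Set.toFinite _)
      rintro x (hx | ⟨y, -, rfl⟩)
      · exact hx.2
      · exact y.2
    · rw [Set.disjoint_left]
      rintro x ⟨hxT, -⟩ ⟨y, hy, rfl⟩
      rcases hT _ hxT with e | e | e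
      · exact hy.1 e
      · exact hy.2.1 e
      · exact hy.2.2 e
  rw [Set.ncard_image_of_injective _ Subtype.val_injective] at e1
  have e2 : (D : Set G).ncard = Nat.card D := rfl
  omega

/-- more than half of all elements: every element is a product of two of them -/
lemma exists_pair (T : Set G) (hT : Nat.card G < 2 * T.ncard) (z : G) :
    ∃ x ∈ T, x * z ∈ T := by
  by_contra hc
  push Not at hc
  have e1 : T.ncard ≤ (Tᶜ).ncard :=
    Set.ncard_le_ncard_of_injOn (fun x => x * z) (fun x hx => hc x hx)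
      (fun _ _ _ _ e => mul_right_cancel e) (Set.toFinite _)
  have e2 := Set.ncard_add_ncard_compl T
  omega

end

end Pool.Agent.J6H71.ET
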