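import Pool.Agent.J6H71.ET.Row

/-! More than half of all elements have at most two values on `H`: then symbols extend. -/

set_option autoImplicit false

namespace Pool.Agent.J6H71.ET

open Pool.Agent.H315R3.ETC Pool.Agent.TH673.VG Pool.Agent.R19.QS Pool.Agent.HP778.QS

section
variable {S : QData} (h : IsQuat S) [Finite S.G]

/-- counting the elements with at most two values on `H` outside `V(h0)` -/
lemma outside_count {H : Subgroup S.G} {h0 : S.G} (hh0 : h0 ∈ H) :
    (Tw S H \ (D h h0 : Set S.G)).ncard ≤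
      ((Tw S H ∩ (D h h0 : Set S.G)) \ (Perp h H : Set S.G)).ncard +
        ((D h h0).index - 1) * Nat.card (Perp h H) := by
  classical
  set D' := D h h0 with hD'
  set N := Perp h H with hN
  set X : Set S.G := Tw S H \ (D' : Set S.G) with hX
  let ρ : S.G ⧸ D' → S.G := fun c =>
    if hc : ∃ x ∈ X, (x : S.G ⧸ D') = c then hc.choose else 1
  have hρ : ∀ x ∈ X, ρ (x : S.G ⧸ D') ∈ X ∧ ((ρ (x : S.G ⧸ D') : S.G) : S.G ⧸ D') = x := by
    intro x hx
    have hc : ∃ y ∈ X, (y : S.G ⧸ D') = (x : S.G ⧸ D') := ⟨x, hx, rfl⟩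
    have e : ρ (x : S.G ⧸ D') = hc.choose := dif_pos hc
    rw [e]
    exact hc.choose_spec
  have inv : ∀ a : S.G, a⁻¹ = a := fun a => inv_eq_of_mul_eq_one_right (h.exp2 a)
  have cls : ∀ x y : S.G, (x : S.G ⧸ D') = (y : S.G ⧸ D') ↔ S.q h0 x = S.q h0 y := by
    intro x y
    rw [QuotientGroup.eq, inv, h.qs3]
    exact Iff.rfl
  have out : ∀ x ∈ X, S.q h0 x ≠ S.zero := fun x hx e => hx.2 e
  have row : ∀ x ∈ X, x * ρ x ∈ Row h H (S.q h0 x) ∧ x * ρ x ∈ D' := by
    intro x hx
    obtain ⟨r1, r2⟩ := hρ x hx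
    have e1 := (cls _ _).1 r2
    have m1 := mem_row_of h hx.1 hh0 (out x hx)
    have m2 := mem_row_of h r1.1 hh0 (out _ r1)
    rw [e1] at m2
    refine ⟨(Row h H _).mul_mem m1 m2, ?_⟩
    have := (cls _ _).1 r2.symm
    rw [h.qs3] at this
    exact this
  have split : X ⊆ {x ∈ X | x * ρ x ∉ N} ∪ {x ∈ X | x * ρ x ∈ N} := by
    intro x hx
    by_cases e : x * ρ x ∈ N
    · exact Or.inr ⟨hx, e⟩
    · exact Or.inl ⟨hx, e⟩
  have c1 : {x ∈ X | x * ρ x ∉ N}.ncard ≤ ((Tw S H ∩ (D' : Set S.G)) \ (N : Set S.G)).ncard := by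
    refine Set.ncard_le_ncard_of_injOn (fun x => x * ρ x) ?_ ?_ (Set.toFinite _)
    · rintro x ⟨hx, hn⟩
      exact ⟨⟨row_sub h (row x hx).1, (row x hx).2⟩, hn⟩
    · rintro x ⟨hx, hn⟩ y ⟨hy, -⟩ e
      have e' : x * ρ x = y * ρ y := e
      have e1 : S.q h0 x = S.q h0 y := by
        by_contra hne
        refine hn (row_inter h hne (row x hx).1 ?_)
        rw [e']
        exact (row y hy).1
      have e2 : (x : S.G ⧸ D') = (y : S.G ⧸ D') := (cls _ _).2 e1
      rw [e2] at e'
      exact mul_right_cancel e'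
  have c2 : {x ∈ X | x * ρ x ∈ N}.ncard ≤ (D'.index - 1) * Nat.card N := by
    have d1 : {x ∈ X | x * ρ x ∈ N}.ncard ≤
        ({c : S.G ⧸ D' | c ≠ 1} ×ˢ (N : Set S.G)).ncard := by
      refine Set.ncard_le_ncard_of_injOn (fun x => ((x : S.G ⧸ D'), x * ρ x)) ?_ ?_
        (Set.toFinite _)
      · rintro x ⟨hx, hn⟩
        refine ⟨fun e => hx.2 ?_, hn⟩
        exact (QuotientGroup.eq_one_iff x).1 e
      · rintro x ⟨hx, hn⟩ y ⟨hy, -⟩ e
        simp only [Prod.mk.injEq] at e
        obtain ⟨e1, e2⟩ := e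
        rw [e1] at e2
        exact mul_right_cancel e2
    have d2 : {c : S.G ⧸ D' | c ≠ 1}.ncard = D'.index - 1 := by
      have e : {c : S.G ⧸ D' | c ≠ 1} = Set.univ \ {1} := by
        ext c; simp
      rw [e, Set.ncard_sdiff_singleton_of_mem (Set.mem_univ _), Set.ncard_univ]
      rfl
    rw [Set.ncard_prod, d2] at d1
    exact d1
  have e0 := (Set.ncard_le_ncard split (Set.toFinite _)).trans (Set.ncard_union_le _ _)
  omega

include h in
/-- more than half of all elements have at most two values on `H` -/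
theorem canExt_of_half {A : Type*} [AddCommGroup A] (hA : ∀ t : A, t + t = 0)
    (β : S.G → S.G → A) (hmul : ∀ a b c, β a (b * c) = β a b + β a c)
    (hiff : ∀ a b c d, β a b = β c d ↔ S.q a b = S.q c d) {H : Subgroup S.G}
    (hH : ∃ a, a ∉ H) (hT : Nat.card S.G < 2 * (Tw S H).ncard) : CanExt S H := by
  by_cases hall : ∀ z, TwoOn S H z
  · obtain ⟨a, ha⟩ := hH
    exact canExt_of_pairs h ha (pairs_of_two h fun z _ g _ _ => hall z)
  push Not at hall
  obtain ⟨z, hz⟩ := hall
  have hz' := hz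
  rw [TwoOn] at hz'
  push Not at hz'
  obtain ⟨b, hb, c, hc, b0, c0, bc0⟩ := hz'
  obtain ⟨x, hx, hxz⟩ := exists_pair (Tw S H) hT z
  by_cases hrad : ∀ h0 ∈ H, S.q z h0 = S.zero → ∀ y, S.q h0 y = S.zero
  · refine canExt_rank h hA β hmul hiff hH hb hc fun g hg => ?_
    obtain ⟨g0, hg0, e⟩ := four_classes h hx hxz hb hc b0 c0 bc0 hg
    refine ⟨g0, hg0, hrad _ (H.mul_mem hg ?_) e⟩
    rcases hg0 with rfl | rfl | rfl | rfl
    · exact H.one_mem
    · exact hb
    · exact hc
    · exact H.mul_mem hb hc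
  push Not at hrad
  obtain ⟨h0, hh0, h0z, y0, hy0⟩ := hrad
  have hzD : z ∈ D h h0 := by
    show S.q h0 z = S.zero
    rw [h.qs2]; exact h0z
  have hxD : x ∈ D h h0 := by
    show S.q h0 x = S.zero
    rw [h.qs2]; exact orth_of_two h hz hx hxz hh0 h0z
  have cm : ∀ x y : S.G, S.q x y ≠ S.zero → S.q y x ≠ S.zero := by
    intro x y e
    rwa [h.qs2]
  have e1 : b * (b * c) = c := by rw [← mul_assoc, h.exp2, one_mul]
  have e2 : c * (b * c) = b := by rw [mul_comm b c, ← mul_assoc, h.exp2, one_mul]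
  have three : 4 * (Tw S H ∩ (D h h0 : Set S.G)).ncard ≤ 3 * Nat.card (D h h0) := by
    refine three_union_in h.exp2 (D h h0) (D h b) (D h c) (D h (b * c)) (D h b ⊓ D h c) rfl
      (by
        refine le_antisymm (le_inf inf_le_left fun x hx => ?_) (le_inf inf_le_left fun x hx => ?_)
        · have := D_inf h b (b * c) hx.1 hx.2
          rwa [e1] at this
        · exact D_inf h b c hx.1 hx.2)
      (by
        refine le_antisymm (le_inf (fun x hx => ?_) inf_le_left) (le_inf inf_le_right fun x hx => ?_)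
        · have := D_inf h c (b * c) hx.1 hx.2
          rwa [e2] at this
        · exact D_inf h b c hx.1 hx.2) z hzD (cm _ _ b0) (cm _ _ c0) (cm _ _ bc0) _ ?_
    intro u hu
    rcases hu b hb c hc with e | e | e
    · exact Or.inl (by show S.q b u = S.zero; rwa [h.qs2])
    · exact Or.inr (Or.inl (by show S.q c u = S.zero; rwa [h.qs2]))
    · exact Or.inr (Or.inr (by show S.q (b * c) u = S.zero; rwa [h.qs2]))
  have split : (Tw S H).ncard = (Tw S H ∩ (D h h0 : Set S.G)).ncard +
      (Tw S H \ (D h h0 : Set S.G)).ncard :=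
    (Set.ncard_inter_add_ncard_sdiff_eq_ncard _ _ (Set.toFinite _)).symm
  have cD := (D h h0).card_mul_index
  have sub_card : ∀ K : Subgroup S.G, Tw S H ⊆ (K : Set S.G) → K.index = 2 → False := by
    intro K hK hi
    have f1 := Set.ncard_le_ncard hK (Set.toFinite _)
    have f2 : (K : Set S.G).ncard = Nat.card K := rfl
    have f3 := K.card_mul_index
    rw [hi] at f3
    omega
  rcases index_cases2 h.exp2 (D h h0) with hi | hi | hi
  · exfalso
    apply hy0
    have : y0 ∈ D h h0 := by
      rw [Subgroup.index_eq_one.1 hi]; trivial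
    exact this
  · -- index two
    obtain ⟨y, hyT, hyD⟩ : ∃ y ∈ Tw S H, y ∉ D h h0 := by
      by_contra hcon
      push Not at hcon
      exact sub_card _ hcon hi
    have hw : S.q h0 y ≠ S.zero := fun e => hyD e
    have rowE : ∀ u ∈ Tw S H, u ∉ D h h0 → u ∈ Row h H (S.q h0 y) := by
      intro u hu huD
      have f1 : u * y ∈ D h h0 := (Subgroup.mul_mem_iff_of_index_two hi).2
        ⟨fun e => absurd e huD, fun e => absurd e hyD⟩
      have f2 : S.q h0 u = S.q h0 y := (h.qs3 _ _ _).2 f1
      rw [← f2]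
      exact mem_row_of h hu hh0 (fun e => huD e)
    rcases index_cases2 h.exp2 (Row h H (S.q h0 y)) with fi | fi | fi
    · exfalso
      apply hz
      refine row_sub h (w := S.q h0 y) ?_
      rw [Subgroup.index_eq_one.1 fi]; trivial
    · obtain ⟨y', hyT', hyE'⟩ : ∃ y' ∈ Tw S H, y' ∉ Row h H (S.q h0 y) := by
        by_contra hcon
        push Not at hcon
        exact sub_card _ hcon fi
      obtain ⟨g1, hg1, hgy⟩ : ∃ g1 ∈ H, S.q g1 y' ≠ S.zero := by
        by_contra hcon
        push Not at hcon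
        apply hyE'
        intro g hg
        left
        rw [h.qs2]
        exact hcon g hg
      refine canExt_vals h hA β hmul hiff hH hh0 hg1 (y := y') (y1 := y) (fun u => ?_)
        (mem_row_of h hyT' hg1 hgy)
      by_cases hu : u ∈ Row h H (S.q h0 y)
      · exact Or.inl hu
      · exact Or.inr ((Subgroup.mul_mem_iff_of_index_two fi).2
          ⟨fun e => absurd e hu, fun e => absurd e hyE'⟩)
    · exfalso
      set E := Row h H (S.q h0 y) with hE
      have g1 : (Tw S H \ (D h h0 : Set S.G)).ncard ≤ ((E : Set S.G) \ (D h h0 : Set S.G)).ncard :=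
        Set.ncard_le_ncard (fun u hu => ⟨rowE u hu.1 hu.2, hu.2⟩) (Set.toFinite _)
      have g2 : ((E : Set S.G) \ (D h h0 : Set S.G)).ncard ≤
          ((E : Set S.G) ∩ (D h h0 : Set S.G)).ncard := by
        refine Set.ncard_le_ncard_of_injOn (fun u => u * y) ?_
          (fun _ _ _ _ e => mul_right_cancel e) (Set.toFinite _)
        rintro u ⟨hu1, hu2⟩
        exact ⟨E.mul_mem hu1 (rowE y hyT hyD), (Subgroup.mul_mem_iff_of_index_two hi).2
          ⟨fun e => absurd e hu2, fun e => absurd e hyD⟩⟩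
      have g3 := Set.ncard_inter_add_ncard_sdiff_eq_ncard (E : Set S.G) (D h h0 : Set S.G)
        (Set.toFinite _)
      have g4 : (E : Set S.G).ncard = Nat.card E := rfl
      have g5 := E.card_mul_index
      have g6 : 4 * Nat.card E ≤ Nat.card S.G := by
        rw [← g5, mul_comm]
        exact Nat.mul_le_mul_left _ fi
      rw [hi] at cD
      omega
  · -- index at least four
    exfalso
    have cnt := outside_count h (H := H) hh0
    have hNT : (Perp h H : Set S.G) ⊆ Tw S H ∩ (D h h0 : Set S.G) := by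
      intro u hu
      refine ⟨row_sub h hu, ?_⟩
      show S.q h0 u = S.zero
      rw [h.qs2]
      exact (mem_perp h).1 hu h0 hh0
    have hN1 : ((Tw S H ∩ (D h h0 : Set S.G)) \ (Perp h H : Set S.G)).ncard + Nat.card (Perp h H) =
        (Tw S H ∩ (D h h0 : Set S.G)).ncard := by
      have := Set.ncard_sdiff_add_ncard_of_subset hNT (Set.toFinite _)
      exact this
    -- the index of `N` in `V(h0)` is at least four
    have hxN : x ∉ Perp h H := by
      intro e
      apply hz
      intro u hu v hv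
      have f : ∀ w ∈ H, S.q z w = S.q (x * z) w := by
        intro w hw
        have : S.q w x = S.zero := by rw [h.qs2]; exact (mem_perp h).1 e w hw
        rw [h.qs2 z, h.qs2 (x * z), q_shift h z this]
      rw [f u hu, f v hv, f _ (H.mul_mem hu hv)]
      exact hxz u hu v hv
    have hzN : z ∉ Perp h H := fun e => hz (row_sub h e)
    have hxzN : z * x ∉ Perp h H := by
      intro e
      apply hz
      intro u hu v hv
      have f : ∀ w ∈ H, S.q z w = S.q x w := by
        intro w hw
        have : S.q w (z * x) = S.zero := by rw [h.qs2]; exact (mem_perp h).1 e w hw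
        rw [h.qs2 z, h.qs2 x, h.qs3]
        exact this
      rw [f u hu, f v hv, f _ (H.mul_mem hu hv)]
      exact hx u hu v hv
    have hND : Perp h H ≤ D h h0 := fun u hu => (hNT hu).2
    have k1 : 2 * Nat.card (Perp h H) ≤ Nat.card (Perp h H ⊔ Subgroup.zpowers x : Subgroup S.G) :=
      card_half le_sup_left (fun e => hxN (e (Subgroup.mem_sup_right (Subgroup.mem_zpowers x))))
    have k2 : 2 * Nat.card (Perp h H ⊔ Subgroup.zpowers x : Subgroup S.G) ≤ Nat.card (D h h0) := by
      refine card_half (sup_le hND ((Subgroup.zpowers_le).2 hxD)) fun e => ?_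
      rcases mem_sup_z h (e hzD) with f | f
      · exact hzN f
      · exact hxzN f
    obtain ⟨k, hk⟩ : ∃ k, (D h h0).index = k + 4 := ⟨(D h h0).index - 4, by omega⟩
    rw [hk] at cD cnt
    set dd := Nat.card (D h h0)
    set nn := Nat.card (Perp h H)
    set td := (Tw S H ∩ (D h h0 : Set S.G)).ncard
    have f1 : (k + 4 - 1) * nn = k * nn + 3 * nn := by
      rw [show k + 4 - 1 = k + 3 by omega]; ring
    have f2 : k * nn * 4 ≤ k * dd := by
      calc k * nn * 4 = k * (4 * nn) := by ring
        _ ≤ k * dd := Nat.mul_le_mul_left _ (by omega)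
    have f3 : dd * (k + 4) = k * dd + 4 * dd := by ring
    have f4 : 0 ≤ k * dd := Nat.zero_le _
    generalize k * nn = p at *
    generalize k * dd = r at *
    omega

end

end Pool.Agent.J6H71.ET
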