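import Pool.Agent.J6H71.ET.Half

/-! Symbols which agree with a functional on two lines. -/

set_option autoImplicit false

namespace Pool.Agent.J6H71.ET

open Pool.Agent.H315R3.ETC Pool.Agent.TH673.VG Pool.Agent.R19.QS Pool.Agent.HP778.QS

section
variable {S : QData} (h : IsQuat S)

include h in
/-- a functional which agrees with a symbol on the lines `q(b,·)` and `q(·,y)` -/
lemma fac_line {A : Type*} [AddCommGroup A] (hA : ∀ t : A, t + t = 0) (β : S.G → S.G → A)
    (hmul : ∀ a b c, β a (b * c) = β a b + β a c)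
    (hiff : ∀ a b c d, β a b = β c d ↔ S.q a b = S.q c d) {H : Subgroup S.G}
    {χ : S.G → S.G → ZMod 2} (hχ : Sy S H χ) {b : S.G} (hb : b ∈ H) (y : S.G) :
    ∃ l : A →+ ZMod 2, (∀ u, l (β b u) = χ b u) ∧ ∀ k ∈ H, l (β k y) = χ k y := by
  have hχ' := hχ
  obtain ⟨c1, c2, c3⟩ := hχ'
  have hsym : ∀ a b, β a b = β b a := fun a b => (hiff _ _ _ _).2 (h.qs2 a b)
  have b1 : ∀ a, β a 1 = 0 := by
    intro a
    have := hmul a 1 1
    rw [mul_one] at this
    exact left_eq_add.1 this
  have x1 : ∀ a ∈ H, χ a 1 = 0 := by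
    intro a ha
    have := c2 a ha 1 1
    rw [mul_one] at this
    exact left_eq_add.1 this
  have x2 : χ 1 y = 0 := by
    have := c1 1 H.one_mem 1 H.one_mem y
    rw [mul_one] at this
    exact left_eq_add.1 this
  have hmul' : ∀ a b c, β (a * b) c = β a c + β b c := by
    intro a b c
    rw [hsym, hmul, hsym c, hsym c]
  let Φ : Additive S.G × Additive H →+ A :=
    AddMonoidHom.mk' (fun z => β b z.1.toMul + β (z.2.toMul : H).1 y) (by
      intro z z'
      have e1 : β b (z + z').1.toMul = β b z.1.toMul + β b z'.1.toMul := hmul _ _ _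
      have e2 : β ((z + z').2.toMul : H).1 y = β (z.2.toMul : H).1 y + β (z'.2.toMul : H).1 y :=
        hmul' _ _ _
      rw [e1, e2]
      abel)
  let Λ : Additive S.G × Additive H →+ ZMod 2 :=
    AddMonoidHom.mk' (fun z => χ b z.1.toMul + χ (z.2.toMul : H).1 y) (by
      intro z z'
      have e1 : χ b (z + z').1.toMul = χ b z.1.toMul + χ b z'.1.toMul := c2 b hb _ _
      have e2 : χ ((z + z').2.toMul : H).1 y = χ (z.2.toMul : H).1 y + χ (z'.2.toMul : H).1 y :=
        c1 _ (z.2.toMul : H).2 _ (z'.2.toMul : H).2 _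
      rw [e1, e2]
      abel)
  obtain ⟨k, hk⟩ := Pool.Agent.TH188.ET.exists_factor hA Φ Λ (by
    rintro ⟨u, v⟩ e
    have e1 : β b u.toMul + β (v.toMul : H).1 y = 0 := e
    have e2 : β b u.toMul = β (v.toMul : H).1 y := by
      have e3 := hA (β (v.toMul : H).1 y)
      rw [← e3] at e1
      exact add_right_cancel e1
    have e4 := sy_eq h hχ hb (v.toMul : H).2 ((hiff _ _ _ _).1 e2)
    show χ b u.toMul + χ (v.toMul : H).1 y = 0
    rw [e4]
    exact CharTwo.add_self_eq_zero _)
  refine ⟨k, fun u => ?_, fun g hg => ?_⟩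
  · have e := hk (Additive.ofMul u, 0)
    have e1 : Φ (Additive.ofMul u, 0) = β b u := by
      show β b u + β 1 y = _
      rw [hsym 1 y, b1, add_zero]
    have e2 : Λ (Additive.ofMul u, 0) = χ b u := by
      show χ b u + χ 1 y = _
      rw [x2, add_zero]
    rw [← e1, ← e2]
    exact e
  · have e := hk (0, Additive.ofMul (⟨g, hg⟩ : H))
    have e1 : Φ (0, Additive.ofMul (⟨g, hg⟩ : H)) = β g y := by
      show β b 1 + β g y = _
      rw [b1, zero_add]
    have e2 : Λ (0, Additive.ofMul (⟨g, hg⟩ : H)) = χ g y := by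
      show χ b 1 + χ g y = _
      rw [x1 b hb, zero_add]
    rw [← e1, ← e2]
    exact e

/-- the elements on which a functional and a symbol agree -/
def Agree {A : Type*} [AddCommGroup A] (h : IsQuat S) (β : S.G → S.G → A)
    (hmul : ∀ a b c, β a (b * c) = β a b + β a c) (H : Subgroup S.G)
    (χ : S.G → S.G → ZMod 2) (hχ : Sy S H χ) (l : A →+ ZMod 2) : Subgroup S.G where
  carrier := {u | ∀ k ∈ H, l (β k u) = χ k u}
  one_mem' := by
    intro k hk
    have b1 : β k 1 = 0 := by
      have := hmul k 1 1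
      rw [mul_one] at this
      exact left_eq_add.1 this
    have x1 : χ k 1 = 0 := by
      have := hχ.2.1 k hk 1 1
      rw [mul_one] at this
      exact left_eq_add.1 this
    rw [b1, x1, map_zero]
  mul_mem' := by
    intro u v hu hv k hk
    rw [hmul, map_add, hu k hk, hv k hk, hχ.2.1 k hk]
  inv_mem' := by
    intro x hx
    have : x⁻¹ = x := inv_eq_of_mul_eq_one_right (h.exp2 x)
    rw [this]
    exact hx

lemma agree_row {A : Type*} [AddCommGroup A] (β : S.G → S.G → A)
    (hmul : ∀ a b c, β a (b * c) = β a b + β a c)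
    (hiff : ∀ a b c d, β a b = β c d ↔ S.q a b = S.q c d) {H : Subgroup S.G}
    {χ : S.G → S.G → ZMod 2} (hχ : Sy S H χ) {l : A →+ ZMod 2} {g : S.G} (hg : g ∈ H)
    (hl : ∀ u, l (β g u) = χ g u) {x u : S.G} (hx : x ∈ Row h H (S.q g u)) :
    x ∈ Agree h β hmul H χ hχ l := by
  intro k hk
  have b1 : β k 1 = 0 := by
    have := hmul k 1 1
    rw [mul_one] at this
    exact left_eq_add.1 this
  have q1 : S.q k 1 = S.zero := q_one h k
  rcases hx k hk with e | e
  · rw [h.qs2] at e
    rw [(hiff _ _ _ _).2 (e.trans q1.symm), b1, map_zero, hχ.2.2 k hk x e]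
  · rw [h.qs2] at e
    rw [(hiff _ _ _ _).2 e, hl, sy_eq h hχ hk hg e]

include h in
/-- the lines of two elements of `H` -/
lemma canExt_two_lines {A : Type*} [AddCommGroup A] (hA : ∀ t : A, t + t = 0)
    (β : S.G → S.G → A) (hmul : ∀ a b c, β a (b * c) = β a b + β a c)
    (hiff : ∀ a b c d, β a b = β c d ↔ S.q a b = S.q c d) {H : Subgroup S.G}
    (hH : ∃ a, a ∉ H) {g g' : S.G} (hg : g ∈ H) (hg' : g' ∈ H) (X : Set S.G)
    (hX : ∀ x ∈ X, ∃ u, x ∈ Row h H (S.q g u) ∨ x ∈ Row h H (S.q g' u))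
    (hgen : Subgroup.closure X = ⊤) : CanExt S H := by
  refine canExt_of_fac h β hmul hiff hH fun χ hχ => ?_
  obtain ⟨l, l1, l2⟩ := fac_two h hA β hmul hiff hχ hg hg'
  refine ⟨l, fun k hk u => ?_⟩
  have hle : Subgroup.closure X ≤ Agree h β hmul H χ hχ l := by
    rw [Subgroup.closure_le]
    intro x hx
    obtain ⟨u, e | e⟩ := hX x hx
    · exact agree_row h β hmul hiff hχ hg l1 e
    · exact agree_row h β hmul hiff hχ hg' l2 e
  rw [hgen] at hle
  exact hle (Subgroup.mem_top u) k hk

include h in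
/-- the lines of an element of `H` and of an arbitrary element -/
lemma canExt_line {A : Type*} [AddCommGroup A] (hA : ∀ t : A, t + t = 0)
    (β : S.G → S.G → A) (hmul : ∀ a b c, β a (b * c) = β a b + β a c)
    (hiff : ∀ a b c d, β a b = β c d ↔ S.q a b = S.q c d) {H : Subgroup S.G}
    (hH : ∃ a, a ∉ H) {g : S.G} (hg : g ∈ H) (y : S.G) (X : Set S.G)
    (hX : ∀ x ∈ X, ∃ u, x ∈ Row h H (S.q g u))
    (hgen : Subgroup.closure (insert y X) = ⊤) : CanExt S H := by
  refine canExt_of_fac h β hmul hiff hH fun χ hχ => ?_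
  obtain ⟨l, l1, l2⟩ := fac_line h hA β hmul hiff hχ hg y
  refine ⟨l, fun k hk u => ?_⟩
  have hle : Subgroup.closure (insert y X) ≤ Agree h β hmul H χ hχ l := by
    rw [Subgroup.closure_le]
    rintro x (rfl | hx)
    · exact l2
    · obtain ⟨u, e⟩ := hX x hx
      exact agree_row h β hmul hiff hχ hg l1 e
  rw [hgen] at hle
  exact hle (Subgroup.mem_top u) k hk

include h in
/-- a subgroup of elements with at most two values on `H` -/
lemma exists_line {H M : Subgroup S.G} (hM : (M : Set S.G) ⊆ Tw S H) :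
    ∃ g ∈ H, ∀ x ∈ M, ∃ u, x ∈ Row h H (S.q g u) := by
  by_cases hN : M ≤ Perp h H
  · exact ⟨1, H.one_mem, fun x hx => ⟨1, perp_le_row h _ (hN hx)⟩⟩
  obtain ⟨x0, hx0, hx0N⟩ := SetLike.not_le_iff_exists.1 hN
  obtain ⟨g, hg, hgx⟩ : ∃ g ∈ H, S.q g x0 ≠ S.zero := by
    by_contra hcon
    push Not at hcon
    apply hx0N
    rw [mem_perp]
    intro g hg
    rw [h.qs2]
    exact hcon g hg
  refine ⟨g, hg, fun x hx => ?_⟩
  by_cases e : S.q g x = S.zero
  · have e1 : S.q g (x0 * x) = S.q g x0 := by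
      rw [mul_comm, q_shift h x0 e]
    have m1 : x0 * x ∈ Row h H (S.q g x0) := by
      rw [← e1]
      exact mem_row_of h (hM (M.mul_mem hx0 hx)) hg (by rw [e1]; exact hgx)
    have m2 := mem_row_of h (hM hx0) hg hgx
    refine ⟨x0, ?_⟩
    have m3 := (Row h H (S.q g x0)).mul_mem m2 m1
    rwa [← mul_assoc, h.exp2, one_mul] at m3
  · exact ⟨x, mem_row_of h (hM hx) hg e⟩

variable [Finite S.G]

include h in
/-- an index two subgroup of elements with at most two values on `H` -/
lemma canExt_of_index_two {A : Type*} [AddCommGroup A] (hA : ∀ t : A, t + t = 0)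
    (β : S.G → S.G → A) (hmul : ∀ a b c, β a (b * c) = β a b + β a c)
    (hiff : ∀ a b c d, β a b = β c d ↔ S.q a b = S.q c d) {H M : Subgroup S.G}
    (hH : ∃ a, a ∉ H) (hM : (M : Set S.G) ⊆ Tw S H) (hi : M.index = 2) : CanExt S H := by
  obtain ⟨g, hg, hrow⟩ := exists_line h hM
  obtain ⟨y, hy⟩ : ∃ y, y ∉ M := by
    by_contra hcon
    push Not at hcon
    have : M = ⊤ := eq_top_iff.2 fun x _ => hcon x
    rw [this, Subgroup.index_top] at hi
    omega
  refine canExt_line h hA β hmul hiff hH hg y (M : Set S.G) hrow ?_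
  rw [eq_top_iff]
  intro x _
  have hMc : M ≤ Subgroup.closure (insert y (M : Set S.G)) := fun m hm =>
    Subgroup.subset_closure (Set.mem_insert_of_mem _ hm)
  have hyc : y ∈ Subgroup.closure (insert y (M : Set S.G)) :=
    Subgroup.subset_closure (Set.mem_insert _ _)
  by_cases hx : x ∈ M
  · exact hMc hx
  · have e1 : x * y ∈ M := (Subgroup.mul_mem_iff_of_index_two hi).2
      ⟨fun e => absurd e hx, fun e => absurd e hy⟩
    have e2 := Subgroup.mul_mem _ (hMc e1) hyc
    rwa [mul_assoc, h.exp2, mul_one] at e2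

/-! ### few generators -/

include h in
/-- generators with at most two values on `H` -/
lemma exists_gens {H : Subgroup S.G} (hgen : Subgroup.closure (Tw S H) = ⊤) (j : ℕ) :
    ∀ K : Subgroup S.G, Perp h H ≤ K → K.index ≤ 2 ^ j →
      ∃ X : Finset S.G, X.card ≤ j ∧ (∀ x ∈ X, x ∈ Tw S H ∧ x ∉ Perp h H) ∧
        K ⊔ Subgroup.closure (X : Set S.G) = ⊤ := by
  classical
  induction j with
  | zero =>
    intro K _ hi
    refine ⟨∅, le_rfl, fun x hx => absurd hx (Finset.notMem_empty x), ?_⟩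
    have : K.index = 1 := by
      have := idx_pos K
      rw [pow_zero] at hi
      omega
    rw [Subgroup.index_eq_one.1 this, top_sup_eq]
  | succ j ih =>
    intro K hNK hi
    by_cases hK : K = ⊤
    · exact ⟨∅, Nat.zero_le _, fun x hx => absurd hx (Finset.notMem_empty x), by
        rw [hK, top_sup_eq]⟩
    obtain ⟨x, hx, hxK⟩ : ∃ x ∈ Tw S H, x ∉ K := by
      by_contra hcon
      push Not at hcon
      apply hK
      rw [eq_top_iff, ← hgen, Subgroup.closure_le]
      exact hcon
    have h1 := two_mul_index (lt_sup_zpowers hxK)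
    obtain ⟨X, x1, x2, x3⟩ := ih (K ⊔ Subgroup.zpowers x) (hNK.trans le_sup_left) (by
      rw [pow_succ] at hi
      omega)
    refine ⟨insert x X, (Finset.card_insert_le _ _).trans (by omega), ?_, ?_⟩
    · intro y hy
      rcases Finset.mem_insert.1 hy with rfl | hy
      · exact ⟨hx, fun e => hxK (hNK e)⟩
      · exact x2 y hy
    · rw [eq_top_iff, ← x3]
      refine sup_le (sup_le le_sup_left ?_) ?_
      · rw [Subgroup.zpowers_le]
        exact Subgroup.mem_sup_right (Subgroup.subset_closure (by simp))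
      · refine le_trans (Subgroup.closure_mono ?_) le_sup_right
        intro y hy
        simp only [Finset.coe_insert]
        exact Set.mem_insert_of_mem _ hy

include h in
/-- two elements are nonorthogonal to a common element of `H` -/
lemma two_nonorth {H : Subgroup S.G} {x x' : S.G} (hx : x ∉ Perp h H) (hx' : x' ∉ Perp h H) :
    ∃ g ∈ H, S.q g x ≠ S.zero ∧ S.q g x' ≠ S.zero := by
  have ex : ∀ y, y ∉ Perp h H → ∃ g ∈ H, S.q g y ≠ S.zero := by
    intro y hy
    by_contra hcon
    push Not at hcon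
    apply hy
    rw [mem_perp]
    intro g hg
    rw [h.qs2]
    exact hcon g hg
  obtain ⟨g, hg, hg1⟩ := ex x hx
  obtain ⟨g', hg', hg1'⟩ := ex x' hx'
  by_cases e1 : S.q g x' = S.zero
  · by_cases e2 : S.q g' x = S.zero
    · refine ⟨g * g', H.mul_mem hg hg', fun e => hg1 ?_, fun e => hg1' ?_⟩
      · rw [h.qs2] at e e2 ⊢
        exact cancel_r h e2 e
      · rw [h.qs2] at e e1 ⊢
        rw [mul_comm g g'] at e
        exact cancel_r h e1 e
    · exact ⟨g', hg', e2, hg1'⟩
  · exact ⟨g, hg, hg1, e1⟩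

include h in
/-- at most six elements: all but two of them are nonorthogonal to an element of `H` -/
lemma exists_good {H : Subgroup S.G} (X : Finset S.G) (hc : X.card ≤ 6)
    (hX : ∀ x ∈ X, x ∉ Perp h H) :
    ∃ g ∈ H, ∃ Y ⊆ X, Y.card ≤ 2 ∧ ∀ x ∈ X, x ∉ Y → S.q g x ≠ S.zero := by
  classical
  by_contra hcon
  push Not at hcon
  have := Fintype.ofFinite S.G
  let s : Finset S.G := Finset.univ.filter fun g => g ∈ H
  let t : S.G → Finset S.G := fun g => X.filter fun x => S.q g x = S.zero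
  have hs : s.card = Nat.card H := by
    have e : (H : Set S.G).ncard = Nat.card H := rfl
    rw [← e, ← Set.ncard_coe_finset]
    congr 1
    ext g
    simp [s]
  have ht : ∀ g ∈ s, 3 ≤ (t g).card := by
    intro g hg
    have hgH : g ∈ H := (Finset.mem_filter.1 hg).2
    by_contra hlt
    obtain ⟨x, hx, hxt, hx0⟩ := hcon g hgH (t g) (Finset.filter_subset _ _) (by omega)
    exact hxt (Finset.mem_filter.2 ⟨hx, hx0⟩)
  have h1 : (1 : S.G) ∈ s := Finset.mem_filter.2 ⟨Finset.mem_univ _, H.one_mem⟩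
  have ht1 : t 1 = X := by
    ext x
    refine ⟨fun hx => (Finset.mem_filter.1 hx).1, fun hx => Finset.mem_filter.2 ⟨hx, ?_⟩⟩
    rw [h.qs2]
    exact q_one h x
  -- lower bound
  have lo : 3 * s.card + X.card ≤ ∑ g ∈ s, (t g).card + 3 := by
    rw [← Finset.sum_erase_add _ _ h1, ht1]
    have e1 := Finset.card_nsmul_le_sum (s.erase 1) (fun g => (t g).card) 3
      (fun g hg => ht g (Finset.mem_of_mem_erase hg))
    rw [smul_eq_mul, Finset.card_erase_of_mem h1] at e1
    have e2 : 0 < s.card := Finset.card_pos.2 ⟨1, h1⟩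
    omega
  -- upper bound
  have up : 2 * ∑ g ∈ s, (t g).card ≤ X.card * s.card := by
    have e1 : ∑ g ∈ s, (t g).card = ∑ x ∈ X, (s.filter fun g => S.q g x = S.zero).card := by
      simp only [t, Finset.card_filter]
      rw [Finset.sum_comm]
    rw [e1, Finset.mul_sum]
    have e2 : ∀ x ∈ X, 2 * (s.filter fun g => S.q g x = S.zero).card ≤ s.card := by
      intro x hx
      have e3 : (s.filter fun g => S.q g x = S.zero).card = Nat.card (H ⊓ D h x : Subgroup S.G) := by
        have e : ((H ⊓ D h x : Subgroup S.G) : Set S.G).ncard =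
          Nat.card (H ⊓ D h x : Subgroup S.G) := rfl
        rw [← e, ← Set.ncard_coe_finset]
        congr 1
        ext g
        simp only [Finset.coe_filter, s, Finset.mem_filter, Finset.mem_univ, true_and,
          Set.mem_ofPred_eq, SetLike.mem_coe, Subgroup.mem_inf]
        constructor
        · rintro ⟨e1, e2⟩
          exact ⟨e1, by show S.q x g = S.zero; rwa [h.qs2]⟩
        · rintro ⟨e1, e2⟩
          exact ⟨e1, by rw [h.qs2]; exact e2⟩
      rw [e3, hs]
      refine card_half inf_le_left fun e => hX x hx ?_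
      rw [mem_perp]
      intro g hg
      exact (e hg).2
    have e4 := Finset.sum_le_sum e2
    rw [Finset.sum_const, smul_eq_mul] at e4
    exact e4
  have ht1' := ht 1 h1
  rw [ht1] at ht1'
  have hcases : X.card = 3 ∨ X.card = 4 ∨ X.card = 5 ∨ X.card = 6 := by omega
  have e2 : 0 < s.card := Finset.card_pos.2 ⟨1, h1⟩
  rcases hcases with e | e | e | e <;> rw [e] at lo up <;> omega

include h in
/-- the elements with at most two values on `H` generate `G`, and `G` is small modulo `H^⊥` -/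
theorem canExt_of_gen {A : Type*} [AddCommGroup A] (hA : ∀ t : A, t + t = 0)
    (β : S.G → S.G → A) (hmul : ∀ a b c, β a (b * c) = β a b + β a c)
    (hiff : ∀ a b c d, β a b = β c d ↔ S.q a b = S.q c d) {H : Subgroup S.G}
    (hH : ∃ a, a ∉ H) (hgen : Subgroup.closure (Tw S H) = ⊤) (hi : (Perp h H).index ≤ 64) :
    CanExt S H := by
  classical
  obtain ⟨X, x1, x2, x3⟩ := exists_gens h hgen 6 (Perp h H) le_rfl (by norm_num; exact hi)
  obtain ⟨g, hg, Y, hYX, hY2, hgood⟩ := exists_good h X x1 fun x hx => (x2 x hx).2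
  obtain ⟨g', hg', hgood'⟩ : ∃ g' ∈ H, ∀ x ∈ Y, S.q g' x ≠ S.zero := by
    have hc : Y.card = 0 ∨ Y.card = 1 ∨ Y.card = 2 := by omega
    rcases hc with e | e | e
    · rw [Finset.card_eq_zero] at e
      exact ⟨1, H.one_mem, fun x hx => absurd (e ▸ hx) (Finset.notMem_empty x)⟩
    · obtain ⟨a, rfl⟩ := Finset.card_eq_one.1 e
      have ha : a ∉ Perp h H := (x2 a (hYX (Finset.mem_singleton_self a))).2
      obtain ⟨g', hg', e1, -⟩ := two_nonorth h ha ha
      refine ⟨g', hg', fun x hx => ?_⟩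
      rw [Finset.mem_singleton.1 hx]
      exact e1
    · obtain ⟨a, b, -, rfl⟩ := Finset.card_eq_two.1 e
      obtain ⟨g', hg', e1, e2⟩ := two_nonorth h (x2 a (hYX (by simp))).2 (x2 b (hYX (by simp))).2
      refine ⟨g', hg', fun x hx => ?_⟩
      rcases Finset.mem_insert.1 hx with rfl | hx
      · exact e1
      · rw [Finset.mem_singleton.1 hx]
        exact e2
  refine canExt_two_lines h hA β hmul hiff hH hg hg' ((Perp h H : Set S.G) ∪ (X : Set S.G)) ?_ ?_
  · rintro x (hx | hx)
    · exact ⟨1, Or.inl (perp_le_row h _ hx)⟩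
    · by_cases hxY : x ∈ Y
      · exact ⟨x, Or.inr (mem_row_of h (x2 x hx).1 hg' (hgood' x hxY))⟩
      · exact ⟨x, Or.inl (mem_row_of h (x2 x hx).1 hg (hgood x hx hxY))⟩
  · rw [Subgroup.closure_union, Subgroup.closure_eq, x3]

end

end Pool.Agent.J6H71.ET
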