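import Pool.Agent.J6H71.ET.Lines

/-! Relations between quaternions of minimal length. -/

set_option autoImplicit false

namespace Pool.Agent.J6H71.ET

open Pool.Agent.H315R3.ETC Pool.Agent.TH673.VG Pool.Agent.R19.QS Pool.Agent.HP778.QS

/-! ### a combinatorial lemma -/

/-- in a finite directed graph in which every vertex has an out-neighbour there is a nonempty set
`I` of vertices each of which has an odd number of in-neighbours in `I` -/
lemma exists_odd {α : Type*} [Fintype α] [DecidableEq α] [Nonempty α] (T : α → Finset α)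
    (hT : ∀ i, (T i).Nonempty) :
    ∃ I : Finset α, I.Nonempty ∧ ∀ j ∈ I, Odd (I.filter fun i => j ∈ T i).card := by
  classical
  -- a minimal nonempty set closed under out-neighbours
  let Good : Finset α → Prop := fun I => I.Nonempty ∧ ∀ i ∈ I, ∃ j ∈ I, j ∈ T i
  have hex : ∃ n : ℕ, ∃ I : Finset α, Good I ∧ I.card = n :=
    ⟨_, Finset.univ, ⟨Finset.univ_nonempty, fun i _ => by
      obtain ⟨j, hj⟩ := hT i
      exact ⟨j, Finset.mem_univ j, hj⟩⟩, rfl⟩
  obtain ⟨I, hI, hIn⟩ := Nat.find_spec hex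
  have hmin : ∀ J : Finset α, Good J → I.card ≤ J.card := by
    intro J hJ
    rw [hIn]
    exact Nat.find_min' hex ⟨J, hJ, rfl⟩
  refine ⟨I, hI.1, ?_⟩
  -- a choice of out-neighbours
  have img : ∀ f : α → α, (∀ i ∈ I, f i ∈ I ∧ f i ∈ T i) → I.image f = I := by
    intro f hf
    have hsub : I.image f ⊆ I := by
      intro j hj
      obtain ⟨i, hi, rfl⟩ := Finset.mem_image.1 hj
      exact (hf i hi).1
    refine Finset.eq_of_subset_of_card_le hsub (hmin _ ⟨hI.1.image f, ?_⟩)
    intro j hj
    exact ⟨f j, Finset.mem_image_of_mem f (hsub hj), (hf j (hsub hj)).2⟩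
  have hex2 : ∀ i, ∃ j, i ∈ I → j ∈ I ∧ j ∈ T i := by
    intro i
    by_cases hi : i ∈ I
    · obtain ⟨j, hj1, hj2⟩ := hI.2 i hi
      exact ⟨j, fun _ => ⟨hj1, hj2⟩⟩
    · exact ⟨i, fun h => absurd h hi⟩
  choose f hf using hex2
  have hf' : ∀ i ∈ I, f i ∈ I ∧ f i ∈ T i := fun i hi => hf i hi
  have hfim := img f hf'
  have hfinj : ∀ i ∈ I, ∀ j ∈ I, f i = f j → i = j := by
    have : (I.image f).card = I.card := by rw [hfim]
    exact Finset.card_image_iff.1 this
  -- out-neighbours are unique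
  have huniq : ∀ i ∈ I, ∀ j ∈ I, j ∈ T i → j = f i := by
    intro i hi j hj hjT
    by_contra hne
    let f' : α → α := fun x => if x = i then j else f x
    have hf'' : ∀ x ∈ I, f' x ∈ I ∧ f' x ∈ T x := by
      intro x hx
      by_cases hxi : x = i
      · subst hxi
        simp only [f', if_true]
        exact ⟨hj, hjT⟩
      · simp only [f', if_neg hxi]
        exact hf' x hx
    have h1 := img f' hf''
    have h2 : f i ∈ I.image f' := by rw [h1]; exact (hf' i hi).1
    obtain ⟨x, hx, hxe⟩ := Finset.mem_image.1 h2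
    by_cases hxi : x = i
    · subst hxi
      simp only [f', if_true] at hxe
      exact hne hxe
    · simp only [f', if_neg hxi] at hxe
      exact hxi (hfinj x hx i hi hxe)
  intro j hj
  obtain ⟨i, hi, hij⟩ : ∃ i ∈ I, f i = j := by
    have : j ∈ I.image f := by rw [hfim]; exact hj
    exact Finset.mem_image.1 this
  have : (I.filter fun x => j ∈ T x) = {i} := by
    ext x
    rw [Finset.mem_filter, Finset.mem_singleton]
    constructor
    · rintro ⟨hx, hjx⟩
      exact hfinj x hx i hi ((huniq x hx j hj hjx).symm.trans hij.symm)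
    · rintro rfl
      exact ⟨hi, by rw [← hij]; exact (hf' x hi).2⟩
  rw [this, Finset.card_singleton]
  exact odd_one

section
variable {S : QData}

/-- bilinear functions on `H × G` with values in a group of exponent two -/
structure Bi (H : Subgroup S.G) {M : Type*} [AddCommGroup M] (f : S.G → S.G → M) : Prop where
  left : ∀ a ∈ H, ∀ b ∈ H, ∀ c, f (a * b) c = f a c + f b c
  right : ∀ a ∈ H, ∀ b c, f a (b * c) = f a b + f a c
  two : ∀ t : M, t + t = 0

variable {H : Subgroup S.G} {M : Type*} [AddCommGroup M] {f : S.G → S.G → M}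

lemma Bi.one_left (hf : Bi H f) (c : S.G) : f 1 c = 0 := by
  have := hf.left 1 H.one_mem 1 H.one_mem c
  rw [mul_one] at this
  exact left_eq_add.1 this

lemma Bi.one_right (hf : Bi H f) {a : S.G} (ha : a ∈ H) : f a 1 = 0 := by
  have := hf.right a ha 1 1
  rw [mul_one] at this
  exact left_eq_add.1 this

lemma Bi.prod (hf : Bi H f) {ι : Type*} (c : Finset ι) (g : ι → S.G) (hg : ∀ i, g i ∈ H)
    (z : S.G) : f (∏ i ∈ c, g i) z = ∑ i ∈ c, f (g i) z := by
  classical
  induction c using Finset.induction_on with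
  | empty => rw [Finset.prod_empty, Finset.sum_empty, hf.one_left]
  | insert s c hs ih =>
    rw [Finset.prod_insert hs, Finset.sum_insert hs,
      hf.left _ (hg s) _ (H.prod_mem fun i _ => hg i), ih]

/-- a relation between the first slots shortens a sum -/
lemma Bi.shorten (hf : Bi H f) {n : ℕ} (g z : Fin (n + 1) → S.G) (hg : ∀ i, g i ∈ H)
    (c : Finset (Fin (n + 1))) (i0 : Fin (n + 1)) (hi0 : i0 ∈ c) (hc : ∏ i ∈ c, g i = 1) :
    ∑ j : Fin n, f (g (i0.succAbove j)) (z (i0.succAbove j) *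
      if i0.succAbove j ∈ c then z i0 else 1) = ∑ i, f (g i) (z i) := by
  have e1 : ∀ i, f (g i) (z i * if i ∈ c then z i0 else 1) =
      f (g i) (z i) + if i ∈ c then f (g i) (z i0) else 0 := by
    intro i
    rw [hf.right _ (hg i)]
    by_cases hi : i ∈ c
    · rw [if_pos hi, if_pos hi]
    · rw [if_neg hi, if_neg hi, hf.one_right (hg i)]
  have e2 : ∑ i, (if i ∈ c then f (g i) (z i0) else 0) = 0 := by
    rw [Finset.sum_ite_mem, Finset.univ_inter, ← hf.prod c g hg, hc, hf.one_left]
  rw [Fin.sum_univ_succAbove _ i0, if_pos hi0] at e2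
  rw [Fin.sum_univ_succAbove (fun i => f (g i) (z i)) i0, Finset.sum_congr rfl fun j _ => e1 _,
    Finset.sum_add_distrib, add_comm]
  congr 1
  have h3 := e2.trans (hf.two (f (g i0) (z i0))).symm
  exact add_left_cancel h3

/-- adding trivial terms -/
lemma Bi.modify (hf : Bi H f) {n : ℕ} (g z : Fin n → S.G) (hg : ∀ i, g i ∈ H)
    (I : Finset (Fin n)) (T : Fin n → Finset (Fin n))
    (h0 : ∀ i, f (∏ j ∈ T i, g j) (z i) = 0) :
    ∑ i, f (g i * if i ∈ I then ∏ j ∈ T i, g j else 1) (z i) = ∑ i, f (g i) (z i) := by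
  refine Finset.sum_congr rfl fun i _ => ?_
  by_cases hi : i ∈ I
  · rw [if_pos hi, hf.left _ (hg i) _ (H.prod_mem fun j _ => hg j), h0, add_zero]
  · rw [if_neg hi, mul_one]

/-- the products over an odd set are dependent -/
lemma prod_dep {G : Type*} [CommGroup G] (h2 : ∀ x : G, x * x = 1) {n : ℕ} (g : Fin n → G)
    (I : Finset (Fin n)) (T : Fin n → Finset (Fin n))
    (hI : ∀ j ∈ I, Odd (I.filter fun i => j ∈ T i).card) :
    ∏ j ∈ Finset.univ.filter (fun j => Odd (I.filter fun i => j ∈ T i).card),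
      (g j * if j ∈ I then ∏ k ∈ T j, g k else 1) = 1 := by
  classical
  set c : Finset (Fin n) := Finset.univ.filter (fun j => Odd (I.filter fun i => j ∈ T i).card)
    with hc
  have hIc : I ⊆ c := fun j hj => Finset.mem_filter.2 ⟨Finset.mem_univ j, hI j hj⟩
  have e1 : ∏ j ∈ c, (if j ∈ I then ∏ k ∈ T j, g k else 1) = ∏ i ∈ I, ∏ k ∈ T i, g k := by
    rw [Finset.prod_ite_mem, Finset.inter_eq_right.2 hIc]
  have e2 : ∏ i ∈ I, ∏ k ∈ T i, g k = ∏ k, g k ^ (I.filter fun i => k ∈ T i).card := by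
    have : ∀ i ∈ I, ∏ k ∈ T i, g k = ∏ k, if k ∈ T i then g k else 1 := by
      intro i _
      rw [Finset.prod_ite_mem, Finset.univ_inter]
    rw [Finset.prod_congr rfl this, Finset.prod_comm]
    refine Finset.prod_congr rfl fun k _ => ?_
    rw [← Finset.prod_filter, Finset.prod_const]
  have e3 : ∀ k, g k ^ (I.filter fun i => k ∈ T i).card = if k ∈ c then g k else 1 := by
    intro k
    by_cases hk : Odd (I.filter fun i => k ∈ T i).card
    · have hkc : k ∈ c := Finset.mem_filter.2 ⟨Finset.mem_univ k, hk⟩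
      rw [if_pos hkc]
      obtain ⟨m, hm⟩ := hk
      rw [hm, pow_add, pow_mul, pow_two, h2, one_pow, one_mul, pow_one]
    · have hkc : k ∉ c := fun e => hk (Finset.mem_filter.1 e).2
      rw [if_neg hkc]
      rw [Nat.not_odd_iff_even] at hk
      obtain ⟨m, hm⟩ := hk
      rw [hm, ← two_mul, pow_mul, pow_two, h2, one_pow]
  rw [Finset.prod_mul_distrib, e1, e2, Finset.prod_congr rfl fun k _ => e3 k,
    Finset.prod_ite_mem, Finset.univ_inter, ← Finset.prod_mul_distrib,
    Finset.prod_congr rfl fun k _ => h2 (g k), Finset.prod_const_one]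

end

end Pool.Agent.J6H71.ET
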