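import Pool.Agent.R19.QS.Ext
import Pool.Agent.HP778.QS.Almost
import Pool.Agent.TH188.ET.K2
import Pool.Agent.J6H71.ET.Grp

/-! Elements with at most two values on a subgroup `H`. -/

set_option autoImplicit false

namespace Pool.Agent.J6H71.ET

open Pool.Agent.H315R3.ETC Pool.Agent.TH673.VG Pool.Agent.R19.QS Pool.Agent.HP778.QS

section
variable {S : QData} (h : IsQuat S)

include h in
lemma mul_left0 {a b w : S.G} (h1 : S.q a w = S.zero) (h2 : S.q b w = S.zero) :
    S.q (a * b) w = S.zero := by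
  rw [h.qs2] at h1 h2 ⊢
  exact p_mul h h1 h2

include h in
lemma cancel_r {y u v : S.G} (h1 : S.q y v = S.zero) (h2 : S.q y (u * v) = S.zero) :
    S.q y u = S.zero := by
  have := p_mul h h2 h1
  rwa [mul_assoc, h.exp2, mul_one] at this

include h in
/-- elements orthogonal to `z` -/
lemma orth_of_two {H : Subgroup S.G} {z x h0 : S.G} (hz : ¬ TwoOn S H z) (hx : TwoOn S H x)
    (hxz : TwoOn S H (x * z)) (hh : h0 ∈ H) (h0z : S.q z h0 = S.zero) : S.q x h0 = S.zero := by
  by_contra hxh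
  have e1 : x * (x * z) = z := by rw [← mul_assoc, h.exp2, one_mul]
  have e2 : (x * z) * z = x := by rw [mul_assoc, h.exp2, mul_one]
  have hxzh : S.q (x * z) h0 ≠ S.zero := by
    intro hc
    have := mul_left0 h hc h0z
    rw [e2] at this
    exact hxh this
  -- both nonzero
  have both : ∀ w ∈ H, S.q x w ≠ S.zero → S.q (x * z) w ≠ S.zero → S.q z w = S.zero := by
    intro w hw h1 h2
    have f1 : S.q x (w * h0) = S.zero := by
      rcases hx w hw h0 hh with e | e | e
      · exact absurd e h1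
      · exact absurd e hxh
      · exact e
    have f2 : S.q (x * z) (w * h0) = S.zero := by
      rcases hxz w hw h0 hh with e | e | e
      · exact absurd e h2
      · exact absurd e hxzh
      · exact e
    have f3 := mul_left0 h f1 f2
    rw [e1] at f3
    exact cancel_r h h0z f3
  have none : ∀ w : S.G, S.q x w = S.zero → S.q (x * z) w = S.zero → S.q z w = S.zero := by
    intro w h1 h2
    have := mul_left0 h h1 h2
    rwa [e1] at this
  apply hz
  intro u hu v hv
  by_cases hu0 : S.q z u = S.zero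
  · exact Or.inl hu0
  by_cases hv0 : S.q z v = S.zero
  · exact Or.inr (Or.inl hv0)
  right; right
  have huv := H.mul_mem hu hv
  by_cases a1 : S.q x u = S.zero
  · have a2 : S.q (x * z) u ≠ S.zero := fun e => hu0 (none u a1 e)
    by_cases b1 : S.q x v = S.zero
    · have b2 : S.q (x * z) v ≠ S.zero := fun e => hv0 (none v b1 e)
      refine none _ (p_mul h a1 b1) ?_
      rcases hxz u hu v hv with e | e | e
      · exact absurd e a2
      · exact absurd e b2
      · exact e
    · have b2 : S.q (x * z) v = S.zero := by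
        by_contra e
        exact hv0 (both v hv b1 e)
      refine both _ huv (fun e => b1 ?_) (fun e => a2 (cancel_r h b2 e))
      rw [mul_comm] at e
      exact cancel_r h a1 e
  · have a2 : S.q (x * z) u = S.zero := by
      by_contra e
      exact hu0 (both u hu a1 e)
    by_cases b1 : S.q x v = S.zero
    · have b2 : S.q (x * z) v ≠ S.zero := fun e => hv0 (none v b1 e)
      refine both _ huv (fun e => a1 (cancel_r h b1 e)) (fun e => b2 ?_)
      rw [mul_comm u v] at e
      exact cancel_r h a2 e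
    · have b2 : S.q (x * z) v = S.zero := by
        by_contra e
        exact hv0 (both v hv b1 e)
      refine none _ ?_ (p_mul h a2 b2)
      rcases hx u hu v hv with e | e | e
      · exact absurd e a1
      · exact absurd e b1
      · exact e

include h in
/-- the character of an element with at most two values on `H` -/
lemma exists_bit {H : Subgroup S.G} {x : S.G} (hx : TwoOn S H x) :
    ∃ ξ : S.G → ZMod 2, (∀ u ∈ H, ∀ v ∈ H, ξ (u * v) = ξ u + ξ v) ∧
      ∀ u, ξ u = 0 ↔ S.q x u = S.zero := by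
  classical
  refine ⟨fun u => if S.q x u = S.zero then 0 else 1, fun u hu v hv => ?_, fun u => ?_⟩
  · show (if S.q x (u * v) = S.zero then (0 : ZMod 2) else 1) =
      (if S.q x u = S.zero then 0 else 1) + if S.q x v = S.zero then 0 else 1
    by_cases h1 : S.q x u = S.zero
    · rw [q_shift h v h1, if_pos h1, zero_add]
    · by_cases h2 : S.q x v = S.zero
      · rw [mul_comm u v, q_shift h u h2, if_pos h2, add_zero]
      · have h3 : S.q x (u * v) = S.zero := by
          rcases hx u hu v hv with e | e | e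
          · exact absurd e h1
          · exact absurd e h2
          · exact e
        rw [if_pos h3, if_neg h1, if_neg h2]
        decide
  · show (if S.q x u = S.zero then (0 : ZMod 2) else 1) = 0 ↔ _
    by_cases h1 : S.q x u = S.zero
    · simp [h1]
    · simp [h1]

include h in
/-- `H` modulo the elements orthogonal to `z` has at most four elements -/
lemma four_classes {H : Subgroup S.G} {z x : S.G} (hx : TwoOn S H x)
    (hxz : TwoOn S H (x * z)) {b c : S.G} (hb : b ∈ H) (hc : c ∈ H) (b0 : S.q z b ≠ S.zero)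
    (c0 : S.q z c ≠ S.zero) (bc0 : S.q z (b * c) ≠ S.zero) {g : S.G} (hg : g ∈ H) :
    ∃ g0 : S.G, (g0 = 1 ∨ g0 = b ∨ g0 = c ∨ g0 = b * c) ∧ S.q z (g * g0) = S.zero := by
  obtain ⟨ξ, x1, x2⟩ := exists_bit h hx
  obtain ⟨η, y1, y2⟩ := exists_bit h hxz
  have e1 : x * (x * z) = z := by rw [← mul_assoc, h.exp2, one_mul]
  have van : ∀ u : S.G, ξ u = 0 → η u = 0 → S.q z u = S.zero := by
    intro u h1 h2
    have := mul_left0 h ((x2 u).1 h1) ((y2 u).1 h2)
    rwa [e1] at this
  have hbc := H.mul_mem hb hc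
  have n1 : ¬ (ξ b = 0 ∧ η b = 0) := fun e => b0 (van b e.1 e.2)
  have n2 : ¬ (ξ c = 0 ∧ η c = 0) := fun e => c0 (van c e.1 e.2)
  have n3 : ¬ (ξ b + ξ c = 0 ∧ η b + η c = 0) := by
    rw [← x1 b hb c hc, ← y1 b hb c hc]
    exact fun e => bc0 (van _ e.1 e.2)
  have key : ∀ gb gc gg hb hc hg : ZMod 2, ¬ (gb = 0 ∧ hb = 0) → ¬ (gc = 0 ∧ hc = 0) →
      ¬ (gb + gc = 0 ∧ hb + hc = 0) → (gg = 0 ∧ hg = 0) ∨ (gg + gb = 0 ∧ hg + hb = 0) ∨
        (gg + gc = 0 ∧ hg + hc = 0) ∨ (gg + (gb + gc) = 0 ∧ hg + (hb + hc) = 0) := by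
    have z2 : ∀ x : ZMod 2, x = 0 ∨ x = 1 := by decide
    intro gb gc gg hb hc hg
    rcases z2 gb with rfl | rfl <;> rcases z2 gc with rfl | rfl <;>
      rcases z2 gg with rfl | rfl <;> rcases z2 hb with rfl | rfl <;>
      rcases z2 hc with rfl | rfl <;> rcases z2 hg with rfl | rfl <;> decide
  rcases key (ξ b) (ξ c) (ξ g) (η b) (η c) (η g) n1 n2 n3 with e | e | e | e
  · exact ⟨1, Or.inl rfl, by rw [mul_one]; exact van g e.1 e.2⟩
  · exact ⟨b, Or.inr (Or.inl rfl), van _ (by rw [x1 g hg b hb]; exact e.1)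
      (by rw [y1 g hg b hb]; exact e.2)⟩
  · exact ⟨c, Or.inr (Or.inr (Or.inl rfl)), van _ (by rw [x1 g hg c hc]; exact e.1)
      (by rw [y1 g hg c hc]; exact e.2)⟩
  · exact ⟨b * c, Or.inr (Or.inr (Or.inr rfl)),
      van _ (by rw [x1 g hg _ hbc, x1 b hb c hc]; exact e.1)
      (by rw [y1 g hg _ hbc, y1 b hb c hc]; exact e.2)⟩

include h in
/-- the elements with values `0` and `w` on `H` -/
def Row (H : Subgroup S.G) (w : S.Q) : Subgroup S.G where
  carrier := {x | ∀ g ∈ H, S.q x g = S.zero ∨ S.q x g = w}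
  one_mem' := by
    intro g _
    left
    rw [h.qs2]
    exact q_one h g
  mul_mem' := by
    intro x y hx hy g hg
    rw [h.qs2 (x * y) g]
    rcases hx g hg with e | e
    · have e' : S.q g x = S.zero := by rw [h.qs2]; exact e
      rw [q_shift h y e', h.qs2 g y]
      exact hy g hg
    · rcases hy g hg with f | f
      · have f' : S.q g y = S.zero := by rw [h.qs2]; exact f
        rw [mul_comm x y, q_shift h x f', h.qs2 g x]
        exact hx g hg
      · left
        rw [← h.qs3, h.qs2 g x, h.qs2 g y, e, f]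
  inv_mem' := by
    intro x hx
    have : x⁻¹ = x := inv_eq_of_mul_eq_one_right (h.exp2 x)
    rw [this]
    exact hx

lemma mem_Row {H : Subgroup S.G} {w : S.Q} {x : S.G} :
    x ∈ Row h H w ↔ ∀ g ∈ H, S.q x g = S.zero ∨ S.q x g = w := Iff.rfl

/-- the elements with at most two values on `H` -/
def Tw (S : QData) (H : Subgroup S.G) : Set S.G := {x | TwoOn S H x}

lemma row_sub {H : Subgroup S.G} {w : S.Q} {x : S.G} (hx : x ∈ Row h H w) : x ∈ Tw S H := by
  intro u hu v hv
  by_cases h1 : S.q x u = S.zero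
  · exact Or.inl h1
  by_cases h2 : S.q x v = S.zero
  · exact Or.inr (Or.inl h2)
  right; right
  have e1 := (hx u hu).resolve_left h1
  have e2 := (hx v hv).resolve_left h2
  rw [← h.qs3, e1, e2]

lemma mem_row_of {H : Subgroup S.G} {x h0 : S.G} (hx : x ∈ Tw S H) (hh : h0 ∈ H)
    (h0x : S.q h0 x ≠ S.zero) : x ∈ Row h H (S.q h0 x) := by
  intro g hg
  rcases hx g hg h0 hh with e | e | e
  · exact Or.inl e
  · exact absurd (by rw [h.qs2]; exact e) h0x
  · right
    rw [h.qs2 h0 x, h.qs3]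
    exact e

/-- the elements orthogonal to `H` -/
abbrev Perp (h : IsQuat S) (H : Subgroup S.G) : Subgroup S.G := Row h H S.zero

lemma mem_perp {H : Subgroup S.G} {x : S.G} : x ∈ Perp h H ↔ ∀ g ∈ H, S.q x g = S.zero :=
  ⟨fun hx g hg => (hx g hg).elim id id, fun hx g hg => Or.inl (hx g hg)⟩

lemma perp_le_row {H : Subgroup S.G} (w : S.Q) : Perp h H ≤ Row h H w := fun _ hx g hg =>
  Or.inl ((mem_perp h).1 hx g hg)

lemma row_inter {H : Subgroup S.G} {w w' : S.Q} (hw : w ≠ w') {x : S.G} (hx : x ∈ Row h H w)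
    (hx' : x ∈ Row h H w') : x ∈ Perp h H := by
  rw [mem_perp]
  intro g hg
  rcases hx g hg with e | e
  · exact e
  · rcases hx' g hg with f | f
    · exact f
    · exact absurd (e.symm.trans f) hw

include h in
/-- a functional on `H` with two given slots -/
lemma fac_two {A : Type*} [AddCommGroup A] (hA : ∀ t : A, t + t = 0) (β : S.G → S.G → A)
    (hmul : ∀ a b c, β a (b * c) = β a b + β a c)
    (hiff : ∀ a b c d, β a b = β c d ↔ S.q a b = S.q c d) {H : Subgroup S.G}
    {χ : S.G → S.G → ZMod 2} (hχ : Sy S H χ) {b c : S.G} (hb : b ∈ H) (hc : c ∈ H) :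
    ∃ l : A →+ ZMod 2, (∀ u, l (β b u) = χ b u) ∧ ∀ u, l (β c u) = χ c u := by
  have hχ' := hχ
  obtain ⟨c1, c2, c3⟩ := hχ'
  have b1 : ∀ a, β a 1 = 0 := by
    intro a
    have := hmul a 1 1
    rw [mul_one] at this
    exact left_eq_add.1 this
  have x1 : ∀ a ∈ H, χ a 1 = 0 := by
    intro a ha
    have := c2 a ha 1 1
    rw [mul_one] at this
    exact left_eq_add.1 this
  let Φ : Additive S.G × Additive S.G →+ A :=
    AddMonoidHom.mk' (fun z => β b z.1.toMul + β c z.2.toMul) (by
      intro z z'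
      simp only [Prod.fst_add, Prod.snd_add, toMul_add, hmul]
      abel)
  let Λ : Additive S.G × Additive S.G →+ ZMod 2 :=
    AddMonoidHom.mk' (fun z => χ b z.1.toMul + χ c z.2.toMul) (by
      intro z z'
      simp only [Prod.fst_add, Prod.snd_add, toMul_add, c2 b hb, c2 c hc]
      abel)
  obtain ⟨k, hk⟩ := Pool.Agent.TH188.ET.exists_factor hA Φ Λ (by
    rintro ⟨u, v⟩ e
    have e1 : β b u.toMul + β c v.toMul = 0 := e
    have e2 : β b u.toMul = β c v.toMul := by
      have e3 := hA (β c v.toMul)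
      rw [← e3] at e1
      exact add_right_cancel e1
    have e4 := sy_eq h hχ hb hc ((hiff _ _ _ _).1 e2)
    show χ b u.toMul + χ c v.toMul = 0
    rw [e4]
    exact CharTwo.add_self_eq_zero _)
  refine ⟨k, fun u => ?_, fun u => ?_⟩
  · have e := hk (Additive.ofMul u, 0)
    have e1 : Φ (Additive.ofMul u, 0) = β b u := by
      show β b u + β c 1 = _
      rw [b1, add_zero]
    have e2 : Λ (Additive.ofMul u, 0) = χ b u := by
      show χ b u + χ c 1 = _
      rw [x1 c hc, add_zero]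
    rw [← e1, ← e2]
    exact e
  · have e := hk (0, Additive.ofMul u)
    have e1 : Φ (0, Additive.ofMul u) = β c u := by
      show β b 1 + β c u = _
      rw [b1, zero_add]
    have e2 : Λ (0, Additive.ofMul u) = χ c u := by
      show χ b 1 + χ c u = _
      rw [x1 b hb, zero_add]
    rw [← e1, ← e2]
    exact e

include h in
/-- symbols given by functionals extend -/
lemma canExt_of_fac {A : Type*} [AddCommGroup A] (β : S.G → S.G → A)
    (hmul : ∀ a b c, β a (b * c) = β a b + β a c)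
    (hiff : ∀ a b c d, β a b = β c d ↔ S.q a b = S.q c d) {H : Subgroup S.G}
    (hH : ∃ a, a ∉ H)
    (hfac : ∀ χ : S.G → S.G → ZMod 2, Sy S H χ → ∃ l : A →+ ZMod 2,
      ∀ g ∈ H, ∀ u, l (β g u) = χ g u) : CanExt S H := by
  intro χ hχ
  obtain ⟨a, ha⟩ := hH
  obtain ⟨l, hl⟩ := hfac χ hχ
  have b1 : ∀ a, β a 1 = 0 := by
    intro a
    have := hmul a 1 1
    rw [mul_one] at this
    exact left_eq_add.1 this
  have q1 : ∀ a, S.q a 1 = S.zero := q_one h
  have hsym : ∀ a b, β a b = β b a := fun a b => (hiff _ _ _ _).2 (h.qs2 a b)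
  refine ⟨a, ha, fun x b => l (β x b), ⟨fun x _ y _ c => ?_, fun x _ b c => ?_,
    fun x _ b hb => ?_⟩, fun x hx b => hl x hx b⟩
  · show l (β (x * y) c) = l (β x c) + l (β y c)
    rw [hsym, hmul, map_add, hsym c x, hsym c y]
  · show l (β x (b * c)) = l (β x b) + l (β x c)
    rw [hmul, map_add]
  · show l (β x b) = 0
    have e : β x b = β x 1 := (hiff _ _ _ _).2 (hb.trans (q1 x).symm)
    rw [e, b1, map_zero]

include h in
/-- `H` is generated by two elements and radical elements -/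
lemma canExt_rank {A : Type*} [AddCommGroup A] (hA : ∀ t : A, t + t = 0) (β : S.G → S.G → A)
    (hmul : ∀ a b c, β a (b * c) = β a b + β a c)
    (hiff : ∀ a b c d, β a b = β c d ↔ S.q a b = S.q c d) {H : Subgroup S.G}
    (hH : ∃ a, a ∉ H) {b c : S.G} (hb : b ∈ H) (hc : c ∈ H)
    (hgen : ∀ g ∈ H, ∃ g0 : S.G, (g0 = 1 ∨ g0 = b ∨ g0 = c ∨ g0 = b * c) ∧
      ∀ y, S.q (g * g0) y = S.zero) : CanExt S H := by
  refine canExt_of_fac h β hmul hiff hH fun χ hχ => ?_
  obtain ⟨l, l1, l2⟩ := fac_two h hA β hmul hiff hχ hb hc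
  have hχ' := hχ
  obtain ⟨c1, c2, c3⟩ := hχ'
  have hsym : ∀ a b, β a b = β b a := fun a b => (hiff _ _ _ _).2 (h.qs2 a b)
  have b1 : ∀ a, β a 1 = 0 := by
    intro a
    have := hmul a 1 1
    rw [mul_one] at this
    exact left_eq_add.1 this
  have q1 : ∀ a, S.q a 1 = S.zero := q_one h
  refine ⟨l, fun g hg u => ?_⟩
  obtain ⟨g0, hg0, hrad⟩ := hgen g hg
  have hg0H : g0 ∈ H := by
    rcases hg0 with rfl | rfl | rfl | rfl
    · exact H.one_mem
    · exact hb
    · exact hc
    · exact H.mul_mem hb hc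
  have e1 : β (g * g0) u = 0 := by
    rw [(hiff _ _ _ _).2 ((hrad u).trans (q1 g).symm), b1]
  have e2 : β g u = β g0 u := by
    rw [hsym, hmul, hsym u g, hsym u g0] at e1
    have e3 := hA (β g0 u)
    rw [← e3] at e1
    exact add_right_cancel e1
  have e4 : χ (g * g0) u = 0 := c3 _ (H.mul_mem hg hg0H) u (hrad u)
  have e5 : χ g u = χ g0 u := by
    rw [c1 g hg g0 hg0H] at e4
    exact CharTwo.add_eq_zero.1 e4
  rw [e2, e5]
  have x0 : χ 1 u = 0 := c3 1 H.one_mem u (by rw [h.qs2]; exact q1 u)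
  have y0 : β 1 u = 0 := by rw [hsym, b1]
  rcases hg0 with rfl | rfl | rfl | rfl
  · rw [x0, y0, map_zero]
  · exact l1 u
  · exact l2 u
  · rw [c1 b hb c hc, ← l1 u, ← l2 u, ← map_add, hsym, hmul, hsym u b, hsym u c]

include h in
/-- all quaternions `q(g,u)`, `g ∈ H`, are sums of two of them -/
lemma canExt_vals {A : Type*} [AddCommGroup A] (hA : ∀ t : A, t + t = 0) (β : S.G → S.G → A)
    (hmul : ∀ a b c, β a (b * c) = β a b + β a c)
    (hiff : ∀ a b c d, β a b = β c d ↔ S.q a b = S.q c d) {H : Subgroup S.G}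
    (hH : ∃ a, a ∉ H) {h0 g1 y y1 : S.G} (hh0 : h0 ∈ H) (hg1 : g1 ∈ H)
    (hrow : ∀ u, u ∈ Row h H (S.q h0 y1) ∨ u * y ∈ Row h H (S.q h0 y1))
    (hy : y ∈ Row h H (S.q g1 y)) : CanExt S H := by
  refine canExt_of_fac h β hmul hiff hH fun χ hχ => ?_
  obtain ⟨l, l1, l2⟩ := fac_two h hA β hmul hiff hχ hh0 hg1
  have hχ' := hχ
  obtain ⟨c1, c2, c3⟩ := hχ'
  have b1 : ∀ a, β a 1 = 0 := by
    intro a
    have := hmul a 1 1
    rw [mul_one] at this
    exact left_eq_add.1 this
  have q1 : ∀ a, S.q a 1 = S.zero := q_one h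
  have hz : ∀ a b, S.q a b = S.zero → β a b = 0 := by
    intro a b e
    rw [(hiff _ _ _ _).2 (e.trans (q1 a).symm), b1]
  have r0 : ∀ u ∈ Row h H (S.q h0 y1), ∀ g ∈ H, l (β g u) = χ g u := by
    intro u hu g hg
    rcases hu g hg with e | e
    · rw [h.qs2] at e
      rw [hz _ _ e, map_zero, c3 g hg u e]
    · rw [h.qs2] at e
      rw [(hiff _ _ _ _).2 e, l1, sy_eq h hχ hg hh0 e]
  have r1 : ∀ g ∈ H, l (β g y) = χ g y := by
    intro g hg
    rcases hy g hg with e | e
    · rw [h.qs2] at e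
      rw [hz _ _ e, map_zero, c3 g hg y e]
    · rw [h.qs2] at e
      rw [(hiff _ _ _ _).2 e, l2, sy_eq h hχ hg hg1 e]
  refine ⟨l, fun g hg u => ?_⟩
  rcases hrow u with hu | hu
  · exact r0 u hu g hg
  · have e : (u * y) * y = u := by rw [mul_assoc, h.exp2, mul_one]
    have f1 : l (β g (u * y * y)) = χ g (u * y * y) := by
      rw [hmul, map_add, r0 _ hu g hg, r1 g hg, ← c2 g hg]
    rwa [e] at f1

end

end Pool.Agent.J6H71.ET
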