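import Pool.Agent.J6H71.ET.Eight
import Pool.Agent.J6H71.ET.Fld
import Pool.Agent.J6H71.ET.Code

/-! If symbols do not extend, the average number of the values on `H` is large. -/

set_option autoImplicit false

namespace Pool.Agent.J6H71.ET

open Pool.Agent.H315R3.ETC Pool.Agent.TH673.VG Pool.Agent.R19.QS Pool.Agent.HP778.QS

section
variable {S : QData} {H : Subgroup S.G} {M : Type*} [AddCommGroup M] {f : S.G → S.G → M}

lemma Bi.prod_right (hf : Bi H f) {ι : Type*} (c : Finset ι) (z : ι → S.G) {a : S.G}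
    (ha : a ∈ H) : f a (∏ i ∈ c, z i) = ∑ i ∈ c, f a (z i) := by
  classical
  induction c using Finset.induction_on with
  | empty => rw [Finset.prod_empty, Finset.sum_empty, hf.one_right ha]
  | insert s c hs ih => rw [Finset.prod_insert hs, Finset.sum_insert hs, hf.right _ ha, ih]

/-- the new first slots -/
def tw {n : ℕ} (g : Fin n → S.G) (I : Finset (Fin n)) (i0 i : Fin n) : S.G :=
  g i * if i ∈ I then g i0 else 1

lemma tw_mem {n : ℕ} {g : Fin n → S.G} (hg : ∀ i, g i ∈ H) (I : Finset (Fin n))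
    (i0 i : Fin n) : tw g I i0 i ∈ H := by
  refine H.mul_mem (hg i) ?_
  by_cases hi : i ∈ I
  · rw [if_pos hi]
    exact hg i0
  · rw [if_neg hi]
    exact H.one_mem

lemma Bi.splitA (hf : Bi H f) {n : ℕ} (g z : Fin n → S.G) (hg : ∀ i, g i ∈ H)
    (I : Finset (Fin n)) (i0 : Fin n) :
    ∑ i, f (g i) (z i) = f (g i0) (∏ i ∈ I, z i) + ∑ i, f (tw g I i0 i) (z i) := by
  have e1 : ∀ i, f (tw g I i0 i) (z i) = f (g i) (z i) + if i ∈ I then f (g i0) (z i) else 0 := by
    intro i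
    unfold tw
    by_cases hi : i ∈ I
    · rw [if_pos hi, if_pos hi, hf.left _ (hg i) _ (hg i0)]
    · rw [if_neg hi, if_neg hi, mul_one, add_zero]
  rw [hf.prod_right I z (hg i0), Finset.sum_congr rfl fun i _ => e1 i, Finset.sum_add_distrib,
    Finset.sum_ite_mem, Finset.univ_inter, add_comm, add_assoc, hf.two, add_zero]

lemma Bi.splitB (hf : Bi H f) {n : ℕ} (g : Fin n → S.G) (hg : ∀ i, g i ∈ H)
    (h2 : ∀ x : S.G, x * x = 1) (I T : Finset (Fin n)) (i0 : Fin n) (x : S.G)
    (hT : Odd (T ∩ I).card) (h0 : f (∏ i ∈ T, g i) x = 0) :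
    f (g i0) x = ∑ i, f (tw g I i0 i) (if i ∈ T then x else 1) := by
  have e1 : ∀ i, f (tw g I i0 i) (if i ∈ T then x else 1) =
      if i ∈ T then f (tw g I i0 i) x else 0 := by
    intro i
    by_cases hi : i ∈ T
    · rw [if_pos hi, if_pos hi]
    · rw [if_neg hi, if_neg hi, hf.one_right (tw_mem hg I i0 i)]
  have e2 : ∏ i ∈ T, tw g I i0 i = (∏ i ∈ T, g i) * g i0 := by
    unfold tw
    rw [Finset.prod_mul_distrib, Finset.prod_ite_mem, Finset.prod_const]
    obtain ⟨m, hm⟩ := hT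
    rw [hm, pow_add, pow_mul, pow_two, h2, one_pow, one_mul, pow_one]
  rw [Finset.sum_congr rfl fun i _ => e1 i, Finset.sum_ite_mem, Finset.univ_inter,
    ← hf.prod T _ fun i => tw_mem hg I i0 i, e2,
    hf.left _ (H.prod_mem fun i _ => hg i) _ (hg i0), h0, zero_add]

end

section
variable {S : QData} (h : IsQuat S) {A : Type*} [AddCommGroup A]

/-- the elements `x` such that `u ⊗ x` is expressed through the slots `g i` -/
def YY (h : IsQuat S) {H : Subgroup S.G} {β : S.G → S.G → A} {χ : S.G → S.G → ZMod 2}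
    (hβ : Bi H β) (hχ : Bi H χ) {u : S.G} (hu : u ∈ H) {n : ℕ} {g : Fin n → S.G}
    (hg : ∀ i, g i ∈ H) : Subgroup S.G where
  carrier := {x | ∃ w : Fin n → S.G, β u x = ∑ i, β (g i) (w i) ∧ χ u x = ∑ i, χ (g i) (w i)}
  one_mem' := by
    refine ⟨fun _ => 1, ?_, ?_⟩
    · rw [hβ.one_right hu, Finset.sum_congr rfl fun i _ => hβ.one_right (hg i),
        Finset.sum_const_zero]
    · rw [hχ.one_right hu, Finset.sum_congr rfl fun i _ => hχ.one_right (hg i),
        Finset.sum_const_zero]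
  mul_mem' := by
    rintro x y ⟨w, h1, h3⟩ ⟨w', h4, h5⟩
    refine ⟨fun i => w i * w' i, ?_, ?_⟩
    · rw [hβ.right _ hu, h1, h4, ← Finset.sum_add_distrib]
      exact Finset.sum_congr rfl fun i _ => (hβ.right _ (hg i) _ _).symm
    · rw [hχ.right _ hu, h3, h5, ← Finset.sum_add_distrib]
      exact Finset.sum_congr rfl fun i _ => (hχ.right _ (hg i) _ _).symm
  inv_mem' := by
    intro x hx
    have : x⁻¹ = x := inv_eq_of_mul_eq_one_right (h.exp2 x)
    rw [this]
    exact hx

/-- the elements with an odd relation -/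
def Odds (S : QData) (a : Fin 3 → S.G) (J : Finset (Fin 3)) : Set S.G :=
  {x | ∃ T : Finset (Fin 3), Odd (T ∩ J).card ∧ S.q (∏ j ∈ T, a j) x = S.zero}

open Classical in
/-- the number of the nonempty `J` for which `x` has no odd relation -/
noncomputable def cc (S : QData) (a : Fin 3 → S.G) (x : S.G) : ℕ :=
  ((Finset.univ : Finset (Finset (Fin 3))).filter fun J => J.Nonempty ∧
    ∀ T : Finset (Fin 3), S.q (∏ j ∈ T, a j) x = S.zero → Even (T ∩ J).card).card

lemma cc_le_seven (a : Fin 3 → S.G) (x : S.G) : cc S a x ≤ 7 := by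
  classical
  have e : ((Finset.univ : Finset (Finset (Fin 3))).filter fun J => J.Nonempty).card = 7 := by
    decide
  rw [← e]
  exact Finset.card_le_card fun J hJ => Finset.mem_filter.2
    ⟨Finset.mem_univ _, (Finset.mem_filter.1 hJ).2.1⟩

lemma cc_le_three (a : Fin 3 → S.G) (x : S.G) {T : Finset (Fin 3)} (hT : T.Nonempty)
    (h0 : S.q (∏ j ∈ T, a j) x = S.zero) : cc S a x ≤ 3 := by
  classical
  have e : ∀ T : Finset (Fin 3), T.Nonempty → ((Finset.univ : Finset (Finset (Fin 3))).filter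
      fun J => J.Nonempty ∧ Even (T ∩ J).card).card ≤ 3 := by
    decide
  refine le_trans (Finset.card_le_card fun J hJ => ?_) (e T hT)
  obtain ⟨-, h1, h3⟩ := Finset.mem_filter.1 hJ
  exact Finset.mem_filter.2 ⟨Finset.mem_univ _, h1, h3 T h0⟩

include h in
lemma cc_le_one {H : Subgroup S.G} (a : Fin 3 → S.G) (ha : ∀ j, a j ∈ H) {x : S.G}
    (hx : TwoOn S H x) : cc S a x ≤ 1 := by
  classical
  obtain ⟨ξ, x1, x2⟩ := exists_bit h hx
  set X : Finset (Fin 3) := Finset.univ.filter fun j => ξ (a j) ≠ 0 with hX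
  have z2 : ∀ t : ZMod 2, t ≠ 0 → t = 1 := by decide
  have hsum : ∀ T : Finset (Fin 3), ξ (∏ j ∈ T, a j) = ((T ∩ X).card : ZMod 2) := by
    intro T
    have e1 : ξ (∏ j ∈ T, a j) = ∑ j ∈ T, ξ (a j) := by
      induction T using Finset.induction_on with
      | empty =>
        rw [Finset.prod_empty, Finset.sum_empty]
        have := x1 1 H.one_mem 1 H.one_mem
        rw [mul_one] at this
        exact left_eq_add.1 this
      | insert s T hs ih =>
        rw [Finset.prod_insert hs, Finset.sum_insert hs,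
          x1 _ (ha s) _ (H.prod_mem fun j _ => ha j), ih]
    have e2 : ∀ j, ξ (a j) = if j ∈ X then 1 else 0 := by
      intro j
      by_cases hj : ξ (a j) = 0
      · have hjX : j ∉ X := fun e => (Finset.mem_filter.1 e).2 hj
        rw [if_neg hjX, hj]
      · have hjX : j ∈ X := Finset.mem_filter.2 ⟨Finset.mem_univ _, hj⟩
        rw [if_pos hjX, z2 _ hj]
    rw [e1, Finset.sum_congr rfl fun j _ => e2 j, Finset.sum_ite_mem, Finset.sum_const,
      nsmul_eq_mul, mul_one]
  have e : ∀ X : Finset (Fin 3), ((Finset.univ : Finset (Finset (Fin 3))).filter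
      fun J => J.Nonempty ∧ ∀ T : Finset (Fin 3), Even (T ∩ X).card → Even (T ∩ J).card).card
        ≤ 1 := by
    decide
  refine le_trans (Finset.card_le_card fun J hJ => ?_) (e X)
  obtain ⟨-, h1, h3⟩ := Finset.mem_filter.1 hJ
  refine Finset.mem_filter.2 ⟨Finset.mem_univ _, h1, fun T hT => h3 T ?_⟩
  rw [h.qs2, ← x2, hsum]
  exact (ZMod.natCast_eq_zero_iff_even).2 hT

lemma cc_zero (a : Fin 3 → S.G) (x : S.G) (h0 : ∀ j, S.q (a j) x = S.zero) :
    cc S a x = 0 := by
  classical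
  unfold cc
  rw [Finset.card_eq_zero, Finset.filter_eq_empty_iff]
  rintro J - ⟨⟨j, hj⟩, h3⟩
  have h4 := h3 {j} (by rw [Finset.prod_singleton]; exact h0 j)
  rw [Finset.singleton_inter_of_mem hj, Finset.card_singleton] at h4
  exact absurd h4 (by decide)

lemma mem_cc {a : Fin 3 → S.G} {ψ : Finset (Fin 3) → S.G → ZMod 2}
    (hodd : ∀ J, ∀ x ∈ Odds S a J, ψ J x = 0) {J : Finset (Fin 3)} {x : S.G}
    (hx : x ∈ Mem ψ J) (T : Finset (Fin 3)) (hT : S.q (∏ j ∈ T, a j) x = S.zero) :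
    Even (T ∩ J).card := by
  have key : ∀ J' : Finset (Fin 3), ψ J' x = 1 → Even (T ∩ J').card := by
    intro J' h1
    by_contra h3
    have h4 := hodd J' x ⟨T, Nat.not_even_iff_odd.1 h3, hT⟩
    rw [h4] at h1
    exact absurd h1 (by decide)
  rcases hx with hx | ⟨J', h1, h3⟩
  · exact key J hx
  · have e1 := key _ h1
    have e2 := key _ h3
    have e3 := card_inter_symmDiff T J J'
    rw [Nat.even_iff] at e1 e2 ⊢
    omega

lemma sum_cc [Fintype S.G] {a : Fin 3 → S.G} {ψ : Finset (Fin 3) → S.G → ZMod 2}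
    (hodd : ∀ J, ∀ x ∈ Odds S a J, ψ J x = 0) :
    (∑ J : Finset (Fin 3), if J.Nonempty then (Mem ψ J).ncard else 0) ≤
      ∑ x : S.G, cc S a x := by
  classical
  have e1 : ∀ x : S.G, cc S a x = ∑ J : Finset (Fin 3), if J.Nonempty ∧
      ∀ T : Finset (Fin 3), S.q (∏ j ∈ T, a j) x = S.zero → Even (T ∩ J).card then 1 else 0 := by
    intro x
    exact Finset.card_filter _ _
  rw [Finset.sum_congr rfl fun x _ => e1 x, Finset.sum_comm]
  refine Finset.sum_le_sum fun J _ => ?_
  by_cases hJ : J.Nonempty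
  · rw [if_pos hJ, ← sum_ind]
    refine Finset.sum_le_sum fun x _ => ?_
    by_cases hx : x ∈ Mem ψ J
    · rw [if_pos hx, if_pos ⟨hJ, fun T hT => mem_cc hodd hx T hT⟩]
    · rw [if_neg hx]
      exact Nat.zero_le _
  · rw [if_neg hJ]
    exact Nat.zero_le _

include h in
lemma tw_thin {H : Subgroup S.G} {a : Fin 3 → S.G} (ha : ∀ j, a j ∈ H)
    {ψ : Finset (Fin 3) → S.G → ZMod 2} (hodd : ∀ J, ∀ x ∈ Odds S a J, ψ J x = 0) :
    Tw S H ⊆ Thin ψ := by
  classical
  intro x hx J J' hJ hJ' h1 h3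
  have e := cc_le_one h a ha hx
  unfold cc at e
  exact Finset.card_le_one.1 e J
    (Finset.mem_filter.2 ⟨Finset.mem_univ _, hJ, fun T hT => mem_cc hodd (Or.inl h1) T hT⟩) J'
    (Finset.mem_filter.2 ⟨Finset.mem_univ _, hJ', fun T hT => mem_cc hodd (Or.inl h3) T hT⟩)

end

section
variable {S : QData} (h : IsQuat S) {A : Type*} [AddCommGroup A] (hA : ∀ t : A, t + t = 0)
  (β : S.G → S.G → A) (hmul : ∀ a b c, β a (b * c) = β a b + β a c)
  (hiff : ∀ a b c d, β a b = β c d ↔ S.q a b = S.q c d)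

include h hA hmul hiff in
/-- the characters of a minimal relation -/
lemma exists_psi {H : Subgroup S.G} {χ : S.G → S.G → ZMod 2} (hχ : Sy S H χ)
    {n : ℕ} (hn : Rel β H χ (n + 1)) (hmin : ¬ Rel β H χ n) :
    ∃ a z : Fin 3 → S.G, (∀ j, a j ∈ H) ∧ ∃ ψ : Finset (Fin 3) → S.G → ZMod 2,
      (∀ J, Ch (ψ J)) ∧ (∀ J : Finset (Fin 3), J.Nonempty → ψ J (∏ j ∈ J, z j) = 1) ∧
      ∀ J, ∀ x ∈ Odds S a J, ψ J x = 0 := by
  classical
  have h3 := rel_three h hA β hmul hiff hχ hn
  obtain ⟨g, z, hg, s1, s2⟩ := hn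
  have hbβ := bi_beta h hA β hmul hiff H
  have hbχ := bi_chi hχ
  let ι : Fin 3 ↪ Fin (n + 1) := Fin.castLEEmb h3
  refine ⟨fun j => g (ι j), fun j => z (ι j), fun j => hg _, ?_⟩
  suffices hs : ∀ J : Finset (Fin 3), ∃ f : S.G → ZMod 2, Ch f ∧
      (J.Nonempty → f (∏ j ∈ J, z (ι j)) = 1) ∧
      ∀ x ∈ Odds S (fun j => g (ι j)) J, f x = 0 by
    choose ψ p1 p2 p3 using hs
    exact ⟨ψ, p1, p2, p3⟩
  intro J
  by_cases hJ : J.Nonempty
  · obtain ⟨j0, hj0⟩ := hJ
    set I : Finset (Fin (n + 1)) := J.map ι with hI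
    set i0 : Fin (n + 1) := ι j0 with hi0
    have hi0I : i0 ∈ I := Finset.mem_map_of_mem ι hj0
    have hg' : ∀ i, tw g I i0 i ∈ H := tw_mem hg I i0
    set Y := YY h hbβ hbχ (hg i0) hg' with hY
    -- the subgroup is proper
    have hne : ∏ i ∈ I, z i ∉ Y := by
      rintro ⟨w, h1, h4⟩
      have gi0 : tw g I i0 i0 = 1 := by
        unfold tw
        rw [if_pos hi0I, h.exp2]
      have f1 : ∑ i, β (tw g I i0 i) (w i * z i) = 0 := by
        rw [← s1, hbβ.splitA g z hg I i0, h1, ← Finset.sum_add_distrib]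
        exact Finset.sum_congr rfl fun i _ => hbβ.right _ (hg' i) _ _
      have f2 : ∑ i, χ (tw g I i0 i) (w i * z i) ≠ 0 := by
        intro e
        apply s2
        rw [← e, hbχ.splitA g z hg I i0, h4, ← Finset.sum_add_distrib]
        exact Finset.sum_congr rfl fun i _ => (hbχ.right _ (hg' i) _ _).symm
      rw [Fin.sum_univ_succAbove _ i0, gi0] at f1 f2
      rw [hbβ.one_left, zero_add] at f1
      rw [hbχ.one_left, zero_add] at f2
      exact hmin ⟨_, _, fun j => hg' _, f1, f2⟩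
    have hsub : ∀ x ∈ Odds S (fun j => g (ι j)) J, x ∈ Y := by
      rintro x ⟨T, hT, h0⟩
      have k1 : ∏ i ∈ T.map ι, g i = ∏ j ∈ T, g (ι j) := Finset.prod_map _ _ _
      have k2 : Odd (T.map ι ∩ I).card := by
        rw [hI, ← Finset.map_inter, Finset.card_map]
        exact hT
      rw [← k1] at h0
      exact ⟨fun i => if i ∈ T.map ι then x else 1,
        hbβ.splitB g hg h.exp2 I (T.map ι) i0 x k2 (beta_zero h β hmul hiff h0),
        hbχ.splitB g hg h.exp2 I (T.map ι) i0 x k2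
          (hχ.2.2 _ (H.prod_mem fun i _ => hg i) _ h0)⟩
    obtain ⟨p, hp, hp1⟩ := Pool.Agent.TH188.ET.exists_char (A := Additive S.G)
      (Subgroup.toAddSubgroup Y) (fun x => by
        have : x + x = 0 := h.exp2 x.toMul
        rw [this]
        exact zero_mem _) (Additive.ofMul (∏ i ∈ I, z i)) (fun e => hne e)
    refine ⟨fun x => p (Additive.ofMul x), fun x y => ?_, fun _ => ?_, fun x hx => ?_⟩
    · show p (Additive.ofMul (x * y)) = p (Additive.ofMul x) + p (Additive.ofMul y)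
      rw [ofMul_mul, map_add]
    · have k1 : ∏ i ∈ I, z i = ∏ j ∈ J, z (ι j) := Finset.prod_map _ _ _
      rw [k1] at hp1
      exact (z2_cases _).resolve_left hp1
    · exact hp _ (hsub x hx)
  · refine ⟨fun _ => 0, fun x y => (add_zero 0).symm, fun e => absurd e hJ, fun _ _ => rfl⟩

include h hA hmul hiff in
/-- a subgroup to which symbols do not extend -/
theorem exists_cc [Fintype S.G] {H : Subgroup S.G} (hH : ∃ a, a ∉ H) (hno : ¬ CanExt S H) :
    ∃ a : Fin 3 → S.G, (∀ j, a j ∈ H) ∧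
      4 * (Tw S (Subgroup.closure (Set.range a))).ncard ≤ Nat.card S.G ∧
      35 * Nat.card S.G ≤ 8 * ∑ x : S.G, cc S a x := by
  classical
  by_contra hcon
  apply hno
  refine canExt_of_fac h β hmul hiff hH fun χ hχ => ?_
  by_contra hl
  have key : ∀ n, ¬ Rel β H χ n := by
    intro n
    induction n with
    | zero =>
      intro hn
      have := rel_three h hA β hmul hiff hχ hn
      omega
    | succ n ih =>
      intro hn
      obtain ⟨a, z, ha, ψ, p1, p2, p3⟩ := exists_psi h hA β hmul hiff hχ hn ih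
      refine hcon ⟨a, ha, ?_, ?_⟩
      · exact (Nat.mul_le_mul_left _ (Set.ncard_le_ncard
          (tw_thin h (fun j => Subgroup.subset_closure (Set.mem_range_self j)) p3)
          (Set.toFinite _))).trans (thin_quarter h.exp2 ψ p1 z p2)
      · exact (sum_mem h.exp2 ψ p1 z p2).trans (Nat.mul_le_mul_left _ (sum_cc p3))
  exact hl (fac_of_no_rel hA β hmul hχ key)

end

end Pool.Agent.J6H71.ET
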